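import Pool.Agent.Helper77.TP.Parts

/-! MP_f69198_co: adaptive test sets. -/

namespace Pool.Agent.Helper77.TP

open Finset Pool.Agent.Lead.UB

open scoped Classical in
/-- For every set `T` of points all but `η |P|` members of `P` are balanced on `T` up to `η N`
points. -/
def WellBalanced {N : ℕ} (η : ℝ) (P : Finset (Fs N)) : Prop :=
  ∀ T : Fs N, (#(P.filter fun A => ¬ BalOn η T A) : ℝ) ≤ η * #P

lemma wb_empty {N : ℕ} (η : ℝ) : WellBalanced η (∅ : Finset (Fs N)) := by
  intro T
  simp

lemma balOn_mono {N : ℕ} {e η : ℝ} (h : e ≤ η) {T A : Fs N} (hA : BalOn e T A) :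
    BalOn η T A := by
  have hN : (0 : ℝ) ≤ N := Nat.cast_nonneg _
  exact le_trans hA (mul_le_mul_of_nonneg_right h hN)

/-- Iteration. -/
lemma adapt_iter {N : ℕ} {η e : ℝ} (hη1 : η ≤ 1)
    (he : e ≤ η) (J : ℕ) : ∀ P : Finset (Fs N), (1 - η) ^ J * #P < 1 →
      ∃ TT : Finset (Fs N), #TT ≤ J ∧ ∃ Q ⊆ P,
        (∀ A ∈ P, (∀ T ∈ TT, BalOn e T A) → A ∈ Q) ∧ WellBalanced η Q := by
  classical
  induction J with
  | zero =>
    intro P hP
    rw [pow_zero, one_mul] at hP
    have h0 : P = ∅ := by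
      rw [← card_eq_zero]
      have : #P < 1 := by exact_mod_cast hP
      omega
    refine ⟨∅, by simp, ∅, empty_subset _, ?_, wb_empty η⟩
    intro A hA
    rw [h0] at hA
    exact absurd hA (notMem_empty _)
  | succ J ih =>
    intro P hP
    by_cases hoff : WellBalanced η P
    · exact ⟨∅, by simp, P, subset_refl _, fun A hA _ => hA, hoff⟩
    · unfold WellBalanced at hoff
      push Not at hoff
      obtain ⟨T, hT⟩ := hoff
      have h0 : (#(P.filter fun A => BalOn e T A) : ℝ) ≤ (1 - η) * #P := by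
        have h1 : (#(P.filter fun A => BalOn e T A) : ℝ) ≤ #(P.filter fun A => BalOn η T A) := by
          rw [Nat.cast_le]
          apply card_le_card
          intro A hA
          rw [mem_filter] at hA ⊢
          exact ⟨hA.1, balOn_mono he hA.2⟩
        have h2 : #(P.filter fun A => BalOn η T A) + #(P.filter fun A => ¬ BalOn η T A) = #P :=
          card_filter_add_card_filter_not _
        have h3 : (#(P.filter fun A => BalOn η T A) : ℝ) +
            #(P.filter fun A => ¬ BalOn η T A) = #P := by exact_mod_cast h2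
        have h4 : η * #P < (#(P.filter fun A => ¬ BalOn η T A) : ℝ) := by
          convert hT
        linarith
      have h1 : (1 - η) ^ J * (#(P.filter fun A => BalOn e T A) : ℝ) < 1 := by
        refine lt_of_le_of_lt ?_ hP
        rw [pow_succ, mul_assoc]
        apply mul_le_mul_of_nonneg_left h0
        apply pow_nonneg
        linarith
      obtain ⟨TT, hTT, Q, hQ, hQ2, hQ3⟩ := ih _ h1
      refine ⟨insert T TT, (card_insert_le _ _).trans (by omega), Q,
        hQ.trans (filter_subset _ _), ?_, hQ3⟩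
      intro A hA hbal
      refine hQ2 A ?_ fun T' hT' => hbal T' (mem_insert_of_mem hT')
      rw [mem_filter]
      exact ⟨hA, hbal T (mem_insert_self _ _)⟩

/-- Every family has a well-balanced subfamily which contains all members that are balanced on
suitable `O(n)` test sets. -/
theorem adapt {n : ℕ} (hn : 0 < n) {η e : ℝ} (hη : 0 < η)
    (he : e ≤ η) (P : Finset (Fs (2 * n))) :
      ∃ TT : Finset (Fs (2 * n)), (#TT : ℝ) ≤ 3 / η * n ∧ ∃ Q ⊆ P,
        (∀ A ∈ P, (∀ T ∈ TT, BalOn e T A) → A ∈ Q) ∧ WellBalanced η Q := by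
  classical
  have hnr : (0 : ℝ) < n := by exact_mod_cast hn
  have hn1 : (1 : ℝ) ≤ n := by exact_mod_cast hn
  rcases le_or_gt η 1 with hη1 | hη1
  · obtain ⟨J, hJ⟩ : ∃ J : ℕ, J = ⌈2 / η * n⌉₊ := ⟨_, rfl⟩
    have hJ1 : 2 / η * n ≤ J := by rw [hJ]; exact Nat.le_ceil _
    have hJ2 : (J : ℝ) < 2 / η * n + 1 := by
      rw [hJ]; exact Nat.ceil_lt_add_one (by positivity)
    have hpow : (1 - η) ^ J * (#P : ℝ) < 1 := by
      have h1 : 1 - η ≤ Real.exp (-η) := by
        have := Real.add_one_le_exp (-η)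
        linarith
      have h2 : (1 - η) ^ J ≤ Real.exp (-(2 * n)) := by
        calc (1 - η) ^ J ≤ Real.exp (-η) ^ J :=
              pow_le_pow_left₀ (by linarith) h1 J
          _ = Real.exp (J * (-η)) := by rw [← Real.exp_nat_mul]
          _ ≤ _ := by
              apply Real.exp_le_exp.2
              have h3 : 2 / η * n * η ≤ J * η :=
                mul_le_mul_of_nonneg_right hJ1 (by positivity)
              have h4 : 2 / η * n * η = 2 * n := by
                field_simp
              linarith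
      have h5 : (#P : ℝ) ≤ Real.exp (3 / 2 * n) := by
        have h6 : (#P : ℝ) ≤ 4 ^ n := by
          have h7 := card_le_univ P
          rw [Fintype.card_finset, Fintype.card_fin, pow_mul] at h7
          have h8 : (#P : ℝ) ≤ ((2 ^ 2) ^ n : ℕ) := by exact_mod_cast h7
          push_cast at h8
          exact h8
        refine h6.trans ?_
        have h9 : (4 : ℝ) ^ n = Real.exp (n * Real.log 4) := by
          rw [mul_comm, Real.exp_mul, Real.exp_log (by norm_num), Real.rpow_natCast]
        rw [h9]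
        apply Real.exp_le_exp.2
        have h10 : Real.log 4 = 2 * Real.log 2 := by
          rw [show (4 : ℝ) = 2 ^ 2 by norm_num, Real.log_pow]
          push_cast
          ring
        have h11 := Real.log_two_lt_d9
        rw [h10]
        nlinarith
      calc (1 - η) ^ J * (#P : ℝ) ≤ Real.exp (-(2 * n)) * Real.exp (3 / 2 * n) := by
            apply mul_le_mul h2 h5 (Nat.cast_nonneg _) (Real.exp_pos _).le
        _ = Real.exp (-(2 * n) + 3 / 2 * n) := by rw [Real.exp_add]
        _ < 1 := by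
            rw [Real.exp_lt_one_iff]
            linarith
    obtain ⟨TT, hTT, Q, hQ⟩ := adapt_iter hη1 he J P hpow
    refine ⟨TT, ?_, Q, hQ⟩
    have h1 : (#TT : ℝ) ≤ J := by exact_mod_cast hTT
    have h2 : 3 / η * n = 2 / η * n + 1 / η * n := by ring
    have h3 : 1 ≤ 1 / η * (n : ℝ) := by
      have : 1 ≤ 1 / η := by
        rw [le_div_iff₀ hη]; linarith
      nlinarith
    linarith
  · refine ⟨∅, ?_, P, subset_refl _, fun A hA _ => hA, ?_⟩
    · rw [card_empty]
      push_cast
      positivity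
    · intro T
      have h1 : (#(P.filter fun A => ¬ BalOn η T A) : ℝ) ≤ #P := by
        exact_mod_cast card_filter_le _ _
      have h2 : (0 : ℝ) ≤ #P := Nat.cast_nonneg _
      nlinarith

open scoped Classical in
/-- The points whose frequency in `P` differs from `1 - 1/√2` by more than `η`. -/
noncomputable def offPts {N : ℕ} (η : ℝ) (P : Finset (Fs N)) : Fs N :=
  univ.filter fun i => η * #P < |(#{A ∈ P | i ∈ A} : ℝ) - (1 - 1 / √2) * #P|

/-- double counting -/
lemma sum_freq {N : ℕ} (P : Finset (Fs N)) (T : Fs N) :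
    ∑ A ∈ P, (#(A ∩ T) : ℝ) = ∑ i ∈ T, (#{A ∈ P | i ∈ A} : ℝ) := by
  classical
  have e1 : ∀ A ∈ P, (#(A ∩ T) : ℝ) = ∑ i ∈ T, if i ∈ A then (1 : ℝ) else 0 := by
    intro A _
    rw [inter_comm, ← filter_mem_eq_inter, card_filter]
    push_cast
    rfl
  rw [sum_congr rfl e1, sum_comm]
  refine sum_congr rfl fun i _ => ?_
  rw [card_filter]
  push_cast
  rfl

/-- In a well-balanced family almost all points have frequency about `1 - 1/√2`. -/
lemma wb_freq {n : ℕ} {η : ℝ} (hη : 0 < η) {P : Finset (Fs (2 * n))}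
    (hne : P.Nonempty) (h : WellBalanced (η ^ 2 / 16) P) : (#(offPts η P) : ℝ) ≤ η * n := by
  classical
  obtain ⟨p, hp⟩ : ∃ p : ℝ, p = 1 - 1 / √2 := ⟨_, rfl⟩
  obtain ⟨p0, p1⟩ := p_bounds
  rw [← hp] at p0 p1
  obtain ⟨y, hy⟩ : ∃ y : ℝ, y = #P := ⟨_, rfl⟩
  have hy0 : 0 < y := by rw [hy]; exact_mod_cast card_pos.2 hne
  have hnr : (0 : ℝ) ≤ n := Nat.cast_nonneg _
  have hNn : ((2 * n : ℕ) : ℝ) = 2 * (n : ℝ) := by push_cast; ring
  have hTN : ∀ T : Fs (2 * n), (#T : ℝ) ≤ 2 * n := by
    intro T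
    rw [← hNn]
    exact card_le_N T
  have hsplitc : ∀ T : Fs (2 * n), (#(P.filter (fun A => ¬ BalOn (η ^ 2 / 16) T A)) : ℝ) ≤
      η ^ 2 / 16 * y := by
    intro T
    have := h T
    rw [← hy] at this
    convert this
  have hsplit : ∀ T : Fs (2 * n), |∑ A ∈ P, ((#(A ∩ T) : ℝ) - p * #T)| ≤
      y * (η ^ 2 / 4 * n) := by
    intro T
    refine (abs_sum_le_sum_abs _ _).trans ?_
    rw [← sum_filter_add_sum_filter_not P (BalOn (η ^ 2 / 16) T)]
    have k1 : ∑ A ∈ P.filter (BalOn (η ^ 2 / 16) T), |(#(A ∩ T) : ℝ) - p * #T| ≤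
        y * (η ^ 2 / 16 * (2 * n)) := by
      calc ∑ A ∈ P.filter (BalOn (η ^ 2 / 16) T), |(#(A ∩ T) : ℝ) - p * #T|
          ≤ ∑ A ∈ P.filter (BalOn (η ^ 2 / 16) T), (η ^ 2 / 16 * (2 * n)) := by
            apply sum_le_sum
            intro A hA
            have h3 := (mem_filter.1 hA).2
            unfold BalOn at h3
            rw [← hp, hNn] at h3
            exact h3
        _ = #(P.filter (BalOn (η ^ 2 / 16) T)) * (η ^ 2 / 16 * (2 * n)) := by
            rw [sum_const, nsmul_eq_mul]
        _ ≤ y * (η ^ 2 / 16 * (2 * n)) := by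
            apply mul_le_mul_of_nonneg_right _ (by positivity)
            rw [hy]
            exact_mod_cast card_filter_le _ _
    have k2 : ∑ A ∈ P.filter (fun A => ¬ BalOn (η ^ 2 / 16) T A), |(#(A ∩ T) : ℝ) - p * #T| ≤
        y * (η ^ 2 / 16 * (2 * n)) := by
      calc ∑ A ∈ P.filter (fun A => ¬ BalOn (η ^ 2 / 16) T A), |(#(A ∩ T) : ℝ) - p * #T|
          ≤ ∑ A ∈ P.filter (fun A => ¬ BalOn (η ^ 2 / 16) T A), (2 * (n : ℝ)) := by
            apply sum_le_sum
            intro A _
            have h3 : (#(A ∩ T) : ℝ) ≤ #T := by exact_mod_cast card_le_card inter_subset_right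
            have h4 := hTN T
            have h5 : (0 : ℝ) ≤ #(A ∩ T) := Nat.cast_nonneg _
            have h6 : (0 : ℝ) ≤ #T := Nat.cast_nonneg _
            have h7 : p * #T ≤ 1 * #T := mul_le_mul_of_nonneg_right p1 h6
            have h8 : 0 ≤ p * #T := by positivity
            rw [abs_le]
            constructor <;> linarith
        _ = #(P.filter (fun A => ¬ BalOn (η ^ 2 / 16) T A)) * (2 * (n : ℝ)) := by
            rw [sum_const, nsmul_eq_mul]
        _ ≤ η ^ 2 / 16 * y * (2 * n) :=
            mul_le_mul_of_nonneg_right (hsplitc T) (by positivity)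
        _ = y * (η ^ 2 / 16 * (2 * n)) := by ring
    linarith
  have hsum : ∀ T : Fs (2 * n), ∑ A ∈ P, ((#(A ∩ T) : ℝ) - p * #T) =
      ∑ i ∈ T, ((#{A ∈ P | i ∈ A} : ℝ) - p * y) := by
    intro T
    rw [sum_sub_distrib, sum_sub_distrib, sum_freq, sum_const, sum_const, nsmul_eq_mul,
      nsmul_eq_mul, hy]
    ring
  set U : Fs (2 * n) := univ.filter fun i => η * y < #{A ∈ P | i ∈ A} - p * y with hU
  set L : Fs (2 * n) := univ.filter fun i => η * y < p * y - (#{A ∈ P | i ∈ A} : ℝ) with hL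
  have hcov : offPts η P ⊆ U ∪ L := by
    intro i hi
    rw [offPts, mem_filter, ← hp, ← hy, lt_abs] at hi
    rw [mem_union, hU, hL, mem_filter, mem_filter]
    rcases hi.2 with h1 | h1
    · left; exact ⟨mem_univ _, h1⟩
    · right; exact ⟨mem_univ _, by linarith⟩
  have hUc : (#U : ℝ) ≤ η / 4 * n := by
    have h1 := (abs_le.1 (hsplit U)).2
    rw [hsum U] at h1
    have h2 : (#U : ℝ) * (η * y) ≤ ∑ i ∈ U, ((#{A ∈ P | i ∈ A} : ℝ) - p * y) := by
      calc (#U : ℝ) * (η * y) = ∑ i ∈ U, η * y := by rw [sum_const, nsmul_eq_mul]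
        _ ≤ _ := sum_le_sum fun i hi => by
            rw [hU, mem_filter] at hi
            exact hi.2.le
    have h3 : (#U : ℝ) * (η * y) ≤ η / 4 * n * (η * y) := by
      refine (h2.trans h1).trans (le_of_eq ?_)
      ring
    exact le_of_mul_le_mul_right h3 (by positivity)
  have hLc : (#L : ℝ) ≤ η / 4 * n := by
    have h1 := (abs_le.1 (hsplit L)).1
    rw [hsum L] at h1
    have h2 : (#L : ℝ) * (η * y) ≤ -∑ i ∈ L, ((#{A ∈ P | i ∈ A} : ℝ) - p * y) := by
      rw [← sum_neg_distrib]
      calc (#L : ℝ) * (η * y) = ∑ i ∈ L, η * y := by rw [sum_const, nsmul_eq_mul]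
        _ ≤ _ := sum_le_sum fun i hi => by
            rw [hL, mem_filter] at hi
            linarith [hi.2]
    have h3 : (#L : ℝ) * (η * y) ≤ η / 4 * n * (η * y) := by
      refine (h2.trans (neg_le.1 h1)).trans (le_of_eq ?_)
      ring
    exact le_of_mul_le_mul_right h3 (by positivity)
  have h1 : #(offPts η P) ≤ #U + #L := (card_le_card hcov).trans (card_union_le _ _)
  have h2 : (#(offPts η P) : ℝ) ≤ #U + #L := by exact_mod_cast h1
  have h3 : 0 ≤ η * n := by positivity
  linarith

end Pool.Agent.Helper77.TP
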