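import Pool.Agent.Helper77.TP.Trace

/-! MP_f69198_co: affine subspaces over the field with two elements have information sets. -/

namespace Pool.Agent.Helper77.TP

open Finset

/-- `C` is closed under `A, B, D ↦ A ∆ B ∆ D`: an affine subspace over the field with two
elements, or empty. -/
def AffineClosed {N : ℕ} (C : Finset (Finset (Fin N))) : Prop :=
  ∀ A ∈ C, ∀ B ∈ C, ∀ D ∈ C, symmDiff (symmDiff A B) D ∈ C

lemma inter_symmDiff' {N : ℕ} (A B I : Finset (Fin N)) :
    symmDiff A B ∩ I = symmDiff (A ∩ I) (B ∩ I) := by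
  ext v
  simp only [mem_inter, mem_symmDiff]
  tauto

/-- Information sets of affine subspaces. -/
theorem affine_info {N : ℕ} (C : Finset (Finset (Fin N))) (hC : AffineClosed C)
    (hne : C.Nonempty) :
    ∃ I : Finset (Fin N), (∀ A ∈ C, ∀ B ∈ C, A ∩ I = B ∩ I → A = B) ∧ 2 ^ #I ≤ #C := by
  classical
  set P : Finset (Finset (Fin N)) :=
    univ.filter fun I => ∀ A ∈ C, ∀ B ∈ C, A ∩ I = B ∩ I → A = B with hP
  have hPne : P.Nonempty := ⟨univ, by
    rw [hP, mem_filter]
    refine ⟨mem_univ _, fun A _ B _ h => ?_⟩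
    rwa [inter_univ, inter_univ] at h⟩
  obtain ⟨I, hI, hmin⟩ := exists_min_image P (fun I => #I) hPne
  have hIinj := (mem_filter.1 (hP ▸ hI)).2
  refine ⟨I, hIinj, ?_⟩
  -- for each point of `I` two members whose traces differ only there
  have hdiff : ∀ i ∈ I, ∃ A ∈ C, ∃ B ∈ C, symmDiff A B ∩ I = {i} := by
    intro i hi
    have h1 : I.erase i ∉ P := by
      intro h
      have := hmin _ h
      rw [card_erase_of_mem hi] at this
      have h2 : 0 < #I := card_pos.2 ⟨i, hi⟩
      omega
    rw [hP, mem_filter] at h1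
    push Not at h1
    obtain ⟨A, hA, B, hB, h2, h3⟩ := h1 (mem_univ _)
    refine ⟨A, hA, B, hB, ?_⟩
    have h4 : ∀ v ∈ I, v ≠ i → (v ∈ A ↔ v ∈ B) := by
      intro v hv hvi
      have h5 := Finset.ext_iff.1 h2 v
      simp only [mem_inter, mem_erase] at h5
      tauto
    have h6 : ¬ (i ∈ A ↔ i ∈ B) := by
      intro h6
      apply h3
      apply hIinj A hA B hB
      ext v
      simp only [mem_inter]
      by_cases hv : v ∈ I
      · by_cases hvi : v = i
        · subst hvi; tauto
        · have := h4 v hv hvi; tauto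
      · tauto
    ext v
    simp only [mem_inter, mem_symmDiff, mem_singleton]
    constructor
    · rintro ⟨h7, h8⟩
      by_contra hvi
      have := h4 v h8 hvi
      tauto
    · rintro rfl
      tauto
  have hall : ∀ s : Finset (Fin N), s ⊆ I → ∀ D ∈ C, ∃ D' ∈ C,
      D' ∩ I = symmDiff (D ∩ I) s := by
    intro s
    induction s using Finset.induction_on with
    | empty =>
      intro _ D hD
      refine ⟨D, hD, ?_⟩
      ext v; simp [mem_symmDiff]
    | insert i s his ih =>
      intro hs D hD
      obtain ⟨D', hD', h1⟩ := ih ((subset_insert i s).trans hs) D hD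
      obtain ⟨A, hA, B, hB, h2⟩ := hdiff i (hs (mem_insert_self i s))
      refine ⟨symmDiff (symmDiff A B) D', hC A hA B hB D' hD', ?_⟩
      rw [inter_symmDiff', h2, h1]
      ext v
      simp only [mem_symmDiff, mem_singleton, mem_insert]
      by_cases hvi : v = i
      · subst hvi; tauto
      · simp [hvi]
  obtain ⟨D, hD⟩ := hne
  have hsurj : ∀ T ∈ I.powerset, ∃ A ∈ C, A ∩ I = T := by
    intro T hT
    rw [mem_powerset] at hT
    obtain ⟨A, hA, h⟩ := hall (symmDiff (D ∩ I) T) (by
      intro v hv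
      rw [mem_symmDiff, mem_inter] at hv
      rcases hv with hv | hv
      · exact hv.1.2
      · exact hT hv.1) D hD
    exact ⟨A, hA, by rw [h, symmDiff_symmDiff_cancel_left]⟩
  have h1 : I.powerset ⊆ C.image (fun A => A ∩ I) := by
    intro T hT
    obtain ⟨A, hA, h⟩ := hsurj T hT
    exact mem_image.2 ⟨A, hA, h⟩
  have h2 := (card_le_card h1).trans card_image_le
  rwa [card_powerset] at h2

/-- An affine subspace with at most `2 ^ (θ n)` members is determined by its traces. -/
theorem affine_trace {n : ℕ} {θ μ : ℝ} (hθ : 0 ≤ θ) (hμ : 0 ≤ μ) (C : Finset (Finset (Fin (2 * n))))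
    (hC : AffineClosed C) (hc : (#C : ℝ) ≤ 2 ^ (θ * n)) : TraceDetermined θ μ C := by
  classical
  have hn : (0 : ℝ) ≤ n := Nat.cast_nonneg _
  have h1L : (1 : ℝ) ≤ 2 ^ (μ * n) := Real.one_le_rpow (by norm_num) (by positivity)
  rcases C.eq_empty_or_nonempty with rfl | hne
  · refine ⟨∅, by simp; positivity, fun T => ?_⟩
    simp
    positivity
  · obtain ⟨I, hinj, hcard⟩ := affine_info C hC hne
    refine ⟨I, ?_, fun T => ?_⟩
    · have h1 : (2 : ℝ) ^ (#I : ℝ) ≤ 2 ^ (θ * n) := by
        rw [Real.rpow_natCast]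
        refine le_trans ?_ hc
        exact_mod_cast hcard
      exact (Real.rpow_le_rpow_left_iff (by norm_num)).1 h1
    · refine le_trans ?_ h1L
      have : #(C.filter fun A => A ∩ I = T) ≤ 1 := by
        rw [card_le_one]
        intro A hA B hB
        rw [mem_filter] at hA hB
        exact hinj A hA.1 B hB.1 (hA.2.trans hB.2.symm)
      exact_mod_cast this

end Pool.Agent.Helper77.TP
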