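import Pool.Agent.Helper77.TP.Hoeff
import Pool.Agent.Helper40.UB.Bad

/-! MP_f69198_co: bad books are rare, local version with a general bound for the tail. -/

namespace Pool.Agent.Helper77.TP

open Finset Pool.Agent.Lead.UB

open Pool.Agent.Lead.UB.Bad (Bk swC swB swC_inj swB_inj swC_mem swB_mem cap_update bi_le c4 c3 c2
  d_le union4)

variable {N t : ℕ}

/-- A book whose edges halve the test sets inside `T`. -/
def TypicalOn (T : Fs N) (η : ℝ) (B C : Fs N) (A : Fin t → Fs N) : Prop :=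
  (∀ J : Finset (Fin t), #J ≤ 4 → Halves η (B ∪ C) (cap A J ∩ T)) ∧
  (∀ i, ∀ J : Finset (Fin t), #J ≤ 3 → i ∉ J → Halves η (A i ∪ B) (cap A J ∩ Cᶜ ∩ T)) ∧
  (∀ i, ∀ J : Finset (Fin t), #J ≤ 2 → i ∉ J → Halves η (A i ∪ C) (cap A J ∩ T)) ∧
  (∀ i, Halves η (A i ∪ C) (Bᶜ ∩ T))

open Classical in
/-- Few ordered edges have a union not halving `T`. -/
lemma edges_le {R : Fs N → Fs N → Prop}
    (hinj : ∀ A B A' B', R A B → R A' B' → A ∪ B = A' ∪ B' →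
      (A = A' ∧ B = B') ∨ (A = B' ∧ B = A'))
    {η β : ℝ} (hβ : ∀ T : Fs N, (#{S : Fs N | ¬ Halves η S T} : ℝ) ≤ β) (T : Fs N) :
    (#{e ∈ (univ : Finset (Fs N × Fs N)) | R e.1 e.2 ∧ ¬ Halves η (e.1 ∪ e.2) T} : ℝ) ≤
      2 * β := by
  have h1 := hβ T
  have h2 : #{e ∈ (univ : Finset (Fs N × Fs N)) | R e.1 e.2 ∧ ¬ Halves η (e.1 ∪ e.2) T} ≤
      2 * #{S : Fs N | ¬ Halves η S T} := by
    refine (card_le_mul_card_image (f := fun e : Fs N × Fs N => e.1 ∪ e.2) _ 2 ?_).trans ?_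
    · intro S hS
      rw [mem_image] at hS
      obtain ⟨⟨P, Q⟩, hPQ, rfl⟩ := hS
      rw [mem_filter] at hPQ
      refine (card_le_card (t := {(P, Q), (Q, P)}) ?_).trans (card_le_two)
      rintro ⟨P', Q'⟩ h
      rw [mem_filter, mem_filter] at h
      rcases hinj _ _ _ _ h.1.2.1 hPQ.2.1 h.2 with ⟨h3, h4⟩ | ⟨h3, h4⟩
      · simp only at h3 h4
        simp [h3, h4]
      · simp only at h3 h4
        simp [h3, h4]
    · refine Nat.mul_le_mul_left 2 (card_le_card ?_)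
      intro S hS
      rw [mem_image] at hS
      obtain ⟨e, he, rfl⟩ := hS
      rw [mem_filter] at he
      rw [mem_filter]
      exact ⟨mem_univ _, he.2.2⟩
  have h3 : (#{e ∈ (univ : Finset (Fs N × Fs N)) | R e.1 e.2 ∧ ¬ Halves η (e.1 ∪ e.2) T} : ℝ) ≤
      2 * (#{S : Fs N | ¬ Halves η S T} : ℝ) := by exact_mod_cast h2
  exact h3.trans (by linarith)

open Classical in
/-- The general count for one condition. -/
lemma count_le {F : Finset (Fs N)} {R : Fs N → Fs N → Prop}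
    (hinj : ∀ A B A' B', R A B → R A' B' → A ∪ B = A' ∪ B' →
      (A = A' ∧ B = B') ∨ (A = B' ∧ B = A'))
    {η β : ℝ} (hβ : ∀ T : Fs N, (#{S : Fs N | ¬ Halves η S T} : ℝ) ≤ β)
    (Y : Finset ((Fs N × Fs N) × (Fin t → Fs N)))
    (Φ : (Fs N × Fs N) × (Fin t → Fs N) → (Fs N × Fs N) × (Fin t → Fs N))
    (hΦ : Set.InjOn Φ Y) (τ : (Fin t → Fs N) → Fs N)
    (h1 : ∀ q ∈ Y, R (Φ q).1.1 (Φ q).1.2) (h2 : ∀ q ∈ Y, ∀ j, (Φ q).2 j ∈ F)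
    (h3 : ∀ q ∈ Y, ¬ Halves η ((Φ q).1.1 ∪ (Φ q).1.2) (τ (Φ q).2)) :
    (#Y : ℝ) ≤ (#F : ℝ) ^ t * (2 * β) := by
  have e1 : #Y = ∑ ψ ∈ Fintype.piFinset (fun _ : Fin t => F), #{q ∈ Y | (Φ q).2 = ψ} := by
    apply card_eq_sum_card_fiberwise
    intro q hq
    exact Fintype.mem_piFinset.2 (h2 q hq)
  rw [e1]
  push_cast
  have e2 : ∀ ψ ∈ Fintype.piFinset (fun _ : Fin t => F), (#{q ∈ Y | (Φ q).2 = ψ} : ℝ) ≤
      2 * β := by
    intro ψ _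
    refine le_trans ?_ (edges_le hinj hβ (τ ψ))
    rw [Nat.cast_le]
    refine card_le_card_of_injOn (fun q => (Φ q).1) ?_ ?_
    · intro q hq
      rw [mem_coe, mem_filter] at hq
      rw [mem_coe, mem_filter]
      refine ⟨mem_univ _, h1 q hq.1, ?_⟩
      rw [← hq.2]
      exact h3 q hq.1
    · intro q hq q' hq' h
      rw [mem_coe, mem_filter] at hq hq'
      exact hΦ hq.1 hq'.1 (Prod.ext h (hq.2.trans hq'.2.symm))
  refine (sum_le_sum e2).trans ?_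
  rw [sum_const, Fintype.card_piFinset_const, nsmul_eq_mul]
  push_cast
  simp

section parts

variable {F : Finset (Fs N)} {R : Fs N → Fs N → Prop}

open Classical in
lemma part1 (hF : ∀ A B, R A B → A ∈ F ∧ B ∈ F)
    (hinj : ∀ A B A' B', R A B → R A' B' → A ∪ B = A' ∪ B' →
      (A = A' ∧ B = B') ∨ (A = B' ∧ B = A'))
    {η β : ℝ} (hβ : ∀ T : Fs N, (#{S : Fs N | ¬ Halves η S T} : ℝ) ≤ β) (X : Finset (Bk N t))
    (hX : ∀ q ∈ X, R q.1.1 q.1.2 ∧ (∀ i, R (q.2 i) q.1.1 ∧ R (q.2 i) q.1.2))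
    (T : Fs N) (J : Finset (Fin t)) :
    (#{q ∈ X | ¬ Halves η (q.1.1 ∪ q.1.2) (cap q.2 J ∩ T)} : ℝ) ≤
      (#F : ℝ) ^ t * (2 * β) := by
  refine count_le (F := F) hinj hβ _ id (Set.injOn_id _) (fun ψ => cap ψ J ∩ T) ?_ ?_ ?_
  · intro q hq
    exact (hX q (mem_filter.1 hq).1).1
  · intro q hq i
    exact (hF _ _ ((hX q (mem_filter.1 hq).1).2 i).1).1
  · intro q hq
    exact (mem_filter.1 hq).2

open Classical in
lemma part2 (hF : ∀ A B, R A B → A ∈ F ∧ B ∈ F)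
    (hinj : ∀ A B A' B', R A B → R A' B' → A ∪ B = A' ∪ B' →
      (A = A' ∧ B = B') ∨ (A = B' ∧ B = A'))
    {η β : ℝ} (hβ : ∀ T : Fs N, (#{S : Fs N | ¬ Halves η S T} : ℝ) ≤ β) (X : Finset (Bk N t))
    (hX : ∀ q ∈ X, R q.1.1 q.1.2 ∧ (∀ i, R (q.2 i) q.1.1 ∧ R (q.2 i) q.1.2))
    (T : Fs N) (i : Fin t) (J : Finset (Fin t)) (hiJ : i ∉ J) :
    (#{q ∈ X | ¬ Halves η (q.2 i ∪ q.1.1) (cap q.2 J ∩ q.1.2ᶜ ∩ T)} : ℝ) ≤
      (#F : ℝ) ^ t * (2 * β) := by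
  refine count_le (F := F) hinj hβ _ (swC i) ((swC_inj i).injOn)
    (fun ψ => cap ψ J ∩ (ψ i)ᶜ ∩ T) ?_ ?_ ?_
  · intro q hq
    exact ((hX q (mem_filter.1 hq).1).2 i).1
  · intro q hq j
    exact swC_mem hF (hX q (mem_filter.1 hq).1) i j
  · intro q hq
    have h := (mem_filter.1 hq).2
    simp only [swC, Function.update_self]
    rw [cap_update hiJ]
    exact h

open Classical in
lemma part3 (hF : ∀ A B, R A B → A ∈ F ∧ B ∈ F)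
    (hinj : ∀ A B A' B', R A B → R A' B' → A ∪ B = A' ∪ B' →
      (A = A' ∧ B = B') ∨ (A = B' ∧ B = A'))
    {η β : ℝ} (hβ : ∀ T : Fs N, (#{S : Fs N | ¬ Halves η S T} : ℝ) ≤ β) (X : Finset (Bk N t))
    (hX : ∀ q ∈ X, R q.1.1 q.1.2 ∧ (∀ i, R (q.2 i) q.1.1 ∧ R (q.2 i) q.1.2))
    (T : Fs N) (i : Fin t) (J : Finset (Fin t)) (hiJ : i ∉ J) :
    (#{q ∈ X | ¬ Halves η (q.2 i ∪ q.1.2) (cap q.2 J ∩ T)} : ℝ) ≤
      (#F : ℝ) ^ t * (2 * β) := by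
  refine count_le (F := F) hinj hβ _ (swB i) ((swB_inj i).injOn)
    (fun ψ => cap ψ J ∩ T) ?_ ?_ ?_
  · intro q hq
    exact ((hX q (mem_filter.1 hq).1).2 i).2
  · intro q hq j
    exact swB_mem hF (hX q (mem_filter.1 hq).1) i j
  · intro q hq
    have h := (mem_filter.1 hq).2
    simp only [swB]
    rw [cap_update hiJ]
    exact h

open Classical in
lemma part4 (hF : ∀ A B, R A B → A ∈ F ∧ B ∈ F)
    (hinj : ∀ A B A' B', R A B → R A' B' → A ∪ B = A' ∪ B' →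
      (A = A' ∧ B = B') ∨ (A = B' ∧ B = A'))
    {η β : ℝ} (hβ : ∀ T : Fs N, (#{S : Fs N | ¬ Halves η S T} : ℝ) ≤ β) (X : Finset (Bk N t))
    (hX : ∀ q ∈ X, R q.1.1 q.1.2 ∧ (∀ i, R (q.2 i) q.1.1 ∧ R (q.2 i) q.1.2))
    (T : Fs N) (i : Fin t) :
    (#{q ∈ X | ¬ Halves η (q.2 i ∪ q.1.2) (q.1.1ᶜ ∩ T)} : ℝ) ≤
      (#F : ℝ) ^ t * (2 * β) := by
  refine count_le (F := F) hinj hβ _ (swB i) ((swB_inj i).injOn)
    (fun ψ => (ψ i)ᶜ ∩ T) ?_ ?_ ?_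
  · intro q hq
    exact ((hX q (mem_filter.1 hq).1).2 i).2
  · intro q hq j
    exact swB_mem hF (hX q (mem_filter.1 hq).1) i j
  · intro q hq
    have h := (mem_filter.1 hq).2
    simp only [swB, Function.update_self]
    exact h

end parts

open Classical in
lemma cover {η : ℝ} (T : Fs N) (X : Finset (Bk N t))
    (hbad : ∀ q ∈ X, ¬ TypicalOn T η q.1.1 q.1.2 q.2) :
    X ⊆
      ((univ.filter (fun J : Finset (Fin t) => #J ≤ 4)).biUnion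
        (fun J => {q ∈ X | ¬ Halves η (q.1.1 ∪ q.1.2) (cap q.2 J ∩ T)})) ∪
      ((((univ : Finset (Fin t)) ×ˢ (univ.filter (fun J : Finset (Fin t) => #J ≤ 3))).filter
          (fun p => p.1 ∉ p.2)).biUnion
        (fun p => {q ∈ X | ¬ Halves η (q.2 p.1 ∪ q.1.1) (cap q.2 p.2 ∩ q.1.2ᶜ ∩ T)})) ∪
      ((((univ : Finset (Fin t)) ×ˢ (univ.filter (fun J : Finset (Fin t) => #J ≤ 2))).filter
          (fun p => p.1 ∉ p.2)).biUnion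
        (fun p => {q ∈ X | ¬ Halves η (q.2 p.1 ∪ q.1.2) (cap q.2 p.2 ∩ T)})) ∪
      ((univ : Finset (Fin t)).biUnion
        (fun i => {q ∈ X | ¬ Halves η (q.2 i ∪ q.1.2) (q.1.1ᶜ ∩ T)})) := by
  intro q hq
  by_contra hcon
  rw [mem_union, mem_union, mem_union, not_or, not_or, not_or] at hcon
  obtain ⟨⟨⟨h1, h2⟩, h3⟩, h4⟩ := hcon
  apply hbad q hq
  refine ⟨fun J hJ => ?_, fun i J hJ hiJ => ?_, fun i J hJ hiJ => ?_, fun i => ?_⟩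
  · by_contra hh
    exact h1 (mem_biUnion.2 ⟨J, mem_filter.2 ⟨mem_univ _, hJ⟩, mem_filter.2 ⟨hq, hh⟩⟩)
  · by_contra hh
    exact h2 (mem_biUnion.2 ⟨(i, J), mem_filter.2 ⟨mem_product.2 ⟨mem_univ _,
      mem_filter.2 ⟨mem_univ _, hJ⟩⟩, hiJ⟩, mem_filter.2 ⟨hq, hh⟩⟩)
  · by_contra hh
    exact h3 (mem_biUnion.2 ⟨(i, J), mem_filter.2 ⟨mem_product.2 ⟨mem_univ _,
      mem_filter.2 ⟨mem_univ _, hJ⟩⟩, hiJ⟩, mem_filter.2 ⟨hq, hh⟩⟩)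
  · by_contra hh
    exact h4 (mem_biUnion.2 ⟨i, mem_univ _, mem_filter.2 ⟨hq, hh⟩⟩)

lemma arith (x bd : ℝ) (t : ℝ) (ht : 0 ≤ t) (hbd0 : 0 ≤ bd)
    (hx : x ≤ (t + 1) ^ 4 * bd + t * (t + 1) ^ 3 * bd + t * (t + 1) ^ 2 * bd + t * bd) :
    x ≤ 16 * (t + 2) ^ 4 * bd := by
  have hcoef : (t + 1) ^ 4 + t * (t + 1) ^ 3 + t * (t + 1) ^ 2 + t ≤ 16 * (t + 2) ^ 4 := by
    have h2 := pow_nonneg ht 2
    have h3 := pow_nonneg ht 3
    have h4 := pow_nonneg ht 4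
    nlinarith
  calc x ≤ ((t + 1) ^ 4 + t * (t + 1) ^ 3 + t * (t + 1) ^ 2 + t) * bd := by
        linarith [hx]
    _ ≤ (16 * (t + 2) ^ 4) * bd := mul_le_mul_of_nonneg_right hcoef hbd0

open Classical in
/-- Bad books for one test set. -/
theorem bad_one {F : Finset (Fs N)} {R : Fs N → Fs N → Prop}
    (hF : ∀ A B, R A B → A ∈ F ∧ B ∈ F)
    (hinj : ∀ A B A' B', R A B → R A' B' → A ∪ B = A' ∪ B' →
      (A = A' ∧ B = B') ∨ (A = B' ∧ B = A'))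
    {η β : ℝ} (hβ0 : 0 ≤ β) (hβ : ∀ T : Fs N, (#{S : Fs N | ¬ Halves η S T} : ℝ) ≤ β)
    (X : Finset (Bk N t))
    (hX : ∀ q ∈ X, R q.1.1 q.1.2 ∧ (∀ i, R (q.2 i) q.1.1 ∧ R (q.2 i) q.1.2))
    (T : Fs N) (hbad : ∀ q ∈ X, ¬ TypicalOn T η q.1.1 q.1.2 q.2) :
    (#X : ℝ) ≤ 16 * ((t : ℝ) + 2) ^ 4 * ((#F : ℝ) ^ t * (2 * β)) := by
  have hbd0 : (0 : ℝ) ≤ (#F : ℝ) ^ t * (2 * β) := by positivity
  have P1 := part1 hF hinj hβ X hX T
  have P2 := part2 hF hinj hβ X hX T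
  have P3 := part3 hF hinj hβ X hX T
  have P4 := part4 hF hinj hβ X hX T
  have b1 := bi_le (univ.filter (fun J : Finset (Fin t) => #J ≤ 4))
    (fun J => {q ∈ X | ¬ Halves η (q.1.1 ∪ q.1.2) (cap q.2 J ∩ T)}) ((t + 1) ^ 4 : ℝ) _ hbd0 c4
  have b1' := b1 (fun J _ => P1 J)
  have e2 : (#(((univ : Finset (Fin t)) ×ˢ
      (univ.filter (fun J : Finset (Fin t) => #J ≤ 3))).filter (fun p => p.1 ∉ p.2)) : ℝ) ≤
      t * (t + 1) ^ 3 := d_le 3 _ c3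
  have b2 := bi_le (((univ : Finset (Fin t)) ×ˢ
      (univ.filter (fun J : Finset (Fin t) => #J ≤ 3))).filter (fun p => p.1 ∉ p.2))
    (fun p => {q ∈ X | ¬ Halves η (q.2 p.1 ∪ q.1.1) (cap q.2 p.2 ∩ q.1.2ᶜ ∩ T)})
    (t * (t + 1) ^ 3 : ℝ) _ hbd0 e2
  have b2' := b2 (fun p hp => P2 p.1 p.2 (mem_filter.1 hp).2)
  have e3 : (#(((univ : Finset (Fin t)) ×ˢ
      (univ.filter (fun J : Finset (Fin t) => #J ≤ 2))).filter (fun p => p.1 ∉ p.2)) : ℝ) ≤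
      t * (t + 1) ^ 2 := d_le 2 _ c2
  have b3 := bi_le (((univ : Finset (Fin t)) ×ˢ
      (univ.filter (fun J : Finset (Fin t) => #J ≤ 2))).filter (fun p => p.1 ∉ p.2))
    (fun p => {q ∈ X | ¬ Halves η (q.2 p.1 ∪ q.1.2) (cap q.2 p.2 ∩ T)})
    (t * (t + 1) ^ 2 : ℝ) _ hbd0 e3
  have b3' := b3 (fun p hp => P3 p.1 p.2 (mem_filter.1 hp).2)
  have b4 := bi_le (univ : Finset (Fin t))
    (fun i => {q ∈ X | ¬ Halves η (q.2 i ∪ q.1.2) (q.1.1ᶜ ∩ T)}) (t : ℝ) _ hbd0 (by simp)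
  have b4' := b4 (fun i _ => P4 i)
  have hX1 := union4 _ _ _ _ _ (cover T X hbad)
  exact arith _ _ _ (Nat.cast_nonneg t) hbd0
    (hX1.trans (add_le_add (add_le_add (add_le_add b1' b2') b3') b4'))

end Pool.Agent.Helper77.TP
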