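import Pool.Agent.Helper77.TP.Affine

/-! MP_f69198_co: families made of few trace-determined parts. -/

namespace Pool.Agent.Helper77.TP

open Finset Pool.Agent.Lead.UB

lemma gap_aux {θ g : ℝ} (hg : g = Real.log 2 - θ * Real.binEntropy (1 - 1 / √2))
    (n : ℝ) (hn : 0 ≤ n) {i ε μ : ℝ} (hi : i ≤ θ * n) (hε : ε ≤ g / 12)
    (hμ : μ ≤ g / 8) (hε0 : 0 ≤ ε) :
    2 * (μ * n) + (i * Real.binEntropy (1 - 1 / √2) + ε * (2 * n) * Real.log (1 + √2)) ≤
      n * Real.log 2 - g / 2 * n := by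
  obtain ⟨h1, h2, h3⟩ := sqrt2_facts
  have hH : 0 ≤ Real.binEntropy (1 - 1 / √2) := by
    obtain ⟨p0, p1⟩ := p_bounds
    exact Real.binEntropy_nonneg p0 p1
  have hl : Real.log (1 + √2) ≤ 3 / 2 := by
    have := Real.log_le_sub_one_of_pos (show 0 < 1 + √2 by positivity)
    linarith
  have k1 : i * Real.binEntropy (1 - 1 / √2) ≤ θ * n * Real.binEntropy (1 - 1 / √2) :=
    mul_le_mul_of_nonneg_right hi hH
  have k2 : ε * (2 * n) * Real.log (1 + √2) ≤ ε * (2 * n) * (3 / 2) :=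
    mul_le_mul_of_nonneg_left hl (by positivity)
  have k3 : ε * n ≤ g / 12 * n := mul_le_mul_of_nonneg_right hε hn
  have k4 : μ * n ≤ g / 8 * n := mul_le_mul_of_nonneg_right hμ hn
  have k5 : g * n = n * Real.log 2 - θ * n * Real.binEntropy (1 - 1 / √2) := by rw [hg]; ring
  linarith

open scoped Classical in
/-- The main estimate. -/
theorem trace_parts (θ : ℝ) (hθ : θ * Real.binEntropy (1 - 1 / √2) < Real.log 2)
    (ε : ℝ) (hε : 0 < ε) :
    ∃ μ : ℝ, 0 < μ ∧ ∃ n₀ : ℕ, ∀ n ≥ n₀, ∀ F : Finset (Fs (2 * n)), ∀ (M : ℕ)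
      (C : Fin M → Finset (Fs (2 * n))), (M : ℝ) ≤ 2 ^ (μ * n) → (∀ A ∈ F, ∃ k, A ∈ C k) →
      (∀ k, TraceDetermined θ μ (C k)) →
      (#(unions F) : ℝ) ≤ (#F : ℝ) ^ 2 / 4 + ε * 4 ^ n := by
  set g : ℝ := Real.log 2 - θ * Real.binEntropy (1 - 1 / √2) with hg
  have hg0 : 0 < g := by linarith
  set e : ℝ := min ε (g / 12) with he
  have he0 : 0 < e := lt_min hε (by positivity)
  have he1 : e ≤ ε := min_le_left _ _
  have he2 : e ≤ g / 12 := min_le_right _ _
  obtain ⟨μ₀, hμ₀, n₁, hmain⟩ := many_balanced e he0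
  set μ : ℝ := min μ₀ (g / 8) with hμ
  have hμpos : 0 < μ := lt_min hμ₀ (by positivity)
  have hμ1 : μ ≤ μ₀ := min_le_left _ _
  have hμ2 : μ ≤ g / 8 := min_le_right _ _
  obtain ⟨n2, hn2⟩ := exists_nat_gt (8 / (g * e))
  refine ⟨μ, hμpos, n₁ + n2 + 1, ?_⟩
  intro n hn F M C hM hcov hpart
  by_contra hcon
  push Not at hcon
  have hn0 : 0 < n := by omega
  have hnr : (0 : ℝ) < n := by exact_mod_cast hn0
  choose I hI1 hI2 using hpart
  set TT : Finset (Fs (2 * n)) := univ.image I with hTT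
  have hexp : (2 : ℝ) ^ (μ * (n : ℝ)) ≤ Real.exp (μ * n) := by
    rw [Real.rpow_def_of_pos (by norm_num)]
    apply Real.exp_le_exp.2
    have h1 : Real.log 2 ≤ 1 := by
      have := Real.log_le_sub_one_of_pos (show (0 : ℝ) < 2 by norm_num)
      linarith
    have h2 : 0 ≤ μ * n := by positivity
    nlinarith
  have hMe : (M : ℝ) ≤ Real.exp (μ * n) := hM.trans hexp
  have hTTc : (#TT : ℝ) ≤ Real.exp (μ₀ * n) := by
    have h1 : #TT ≤ M := by
      refine card_image_le.trans ?_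
      rw [card_univ, Fintype.card_fin]
    have h2 : (#TT : ℝ) ≤ M := by exact_mod_cast h1
    refine h2.trans (hMe.trans (Real.exp_le_exp.2 ?_))
    exact mul_le_mul_of_nonneg_right hμ1 hnr.le
  have h4 : (0 : ℝ) < 4 ^ n := by positivity
  have hb := hmain n (by omega) F TT hTTc (by
    refine lt_of_le_of_lt ?_ hcon
    have : e * 4 ^ n ≤ ε * 4 ^ n := mul_le_mul_of_nonneg_right he1 h4.le
    linarith)
  have hsub : ({A ∈ F | ∀ T ∈ TT, BalOn e T A} : Finset (Fs (2 * n))) ⊆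
      (univ : Finset (Fin M)).biUnion fun k => {A ∈ C k | BalOn e (I k) A} := by
    intro A hA
    rw [mem_filter] at hA
    obtain ⟨k, hk⟩ := hcov A hA.1
    exact mem_biUnion.2 ⟨k, mem_univ _, mem_filter.2 ⟨hk, hA.2 _ (mem_image_of_mem I (mem_univ k))⟩⟩
  have h5 := (card_le_card hsub).trans card_biUnion_le
  have h6 : (#{A ∈ F | ∀ T ∈ TT, BalOn e T A} : ℝ) ≤
      ∑ k : Fin M, (#{A ∈ C k | BalOn e (I k) A} : ℝ) := by exact_mod_cast h5
  have h7 : ∀ k ∈ (univ : Finset (Fin M)), (#{A ∈ C k | BalOn e (I k) A} : ℝ) ≤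
      Real.exp (n * Real.log 2 - g / 2 * n - μ * n) := by
    intro k _
    have h8 := few_balanced (C k) (I k) (L := Real.exp (μ * n)) (ε := e) (Real.exp_pos _).le
      (fun T => by
        refine le_trans ?_ hexp
        convert hI2 k T)
    refine h8.trans ?_
    rw [← Real.exp_add]
    apply Real.exp_le_exp.2
    have h9 := gap_aux hg n hnr.le (hI1 k) he2 hμ2 he0.le
    push_cast
    linarith
  have h8 : (#{A ∈ F | ∀ T ∈ TT, BalOn e T A} : ℝ) ≤
      Real.exp (n * Real.log 2 - g / 2 * n) := by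
    refine h6.trans ((sum_le_sum h7).trans ?_)
    rw [sum_const, card_univ, Fintype.card_fin, nsmul_eq_mul]
    calc (M : ℝ) * Real.exp (n * Real.log 2 - g / 2 * n - μ * n)
        ≤ Real.exp (μ * n) * Real.exp (n * Real.log 2 - g / 2 * n - μ * n) :=
          mul_le_mul_of_nonneg_right hMe (Real.exp_pos _).le
      _ = _ := by rw [← Real.exp_add]; congr 1; ring
  have h9 : Real.exp (n * Real.log 2 - g / 2 * n) = 2 ^ n * Real.exp (-(g / 2 * n)) := by
    rw [sub_eq_add_neg, Real.exp_add]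
    congr 1
    rw [mul_comm, Real.exp_mul, Real.exp_log (by norm_num), Real.rpow_natCast]
  have h10 : Real.exp (-(g / 2 * n)) < e / 4 := by
    rw [Real.exp_neg, inv_lt_comm₀ (Real.exp_pos _) (by positivity)]
    have h11 := Real.add_one_le_exp (g / 2 * n)
    have h12 : (n2 : ℝ) ≤ n := by exact_mod_cast (by omega : n2 ≤ n)
    have h13 : 8 / (g * e) < n := by linarith
    rw [div_lt_iff₀ (by positivity)] at h13
    rw [inv_eq_one_div, div_lt_iff₀ (by positivity)]
    have h14 : 1 < g / 2 * n * (e / 4) := by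
      have : g / 2 * n * (e / 4) = n * (g * e) / 8 := by ring
      rw [this]; linarith
    have h15 : g / 2 * n * (e / 4) ≤ Real.exp (g / 2 * n) * (e / 4) :=
      mul_le_mul_of_nonneg_right (by linarith) (by positivity)
    linarith
  rw [h9] at h8
  have h2n : (0 : ℝ) < 2 ^ n := by positivity
  have h16 : (2 : ℝ) ^ n * Real.exp (-(g / 2 * n)) < 2 ^ n * (e / 4) :=
    mul_lt_mul_of_pos_left h10 h2n
  have h17 : e / 4 * 2 ^ n ≤ (#{A ∈ F | ∀ T ∈ TT, BalOn e T A} : ℝ) := by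
    convert hb
  linarith

end Pool.Agent.Helper77.TP
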