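import Pool.Agent.Helper77.TP.StructMain
import Pool.Agent.Helper77.TP.Main

/-! MP_f69198_co: products of families on small blocks have few members balanced on suitable
test sets, because their densities are rational. -/

namespace Pool.Agent.Helper77.TP

open Finset Pool.Agent.Lead.UB

/-- Rational numbers with bounded denominator stay away from an irrational number. -/
lemma rat_gap (p : ℝ) (hp : Irrational p) (B : ℕ) :
    ∃ c : ℝ, 0 < c ∧ c ≤ 1 ∧ ∀ r s : ℕ, 0 < s → s ≤ B → r ≤ s → c ≤ |(r : ℝ) / s - p| := by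
  classical
  set S : Finset (ℕ × ℕ) := (range (B + 1) ×ˢ range (B + 1)).filter fun q => 0 < q.2 ∧ q.1 ≤ q.2
    with hS
  have hpos : ∀ q ∈ S, 0 < |(q.1 : ℝ) / q.2 - p| := by
    intro q _
    rw [abs_pos]
    intro h
    apply hp
    refine ⟨(q.1 : ℚ) / q.2, ?_⟩
    push_cast
    linarith
  rcases S.eq_empty_or_nonempty with h0 | hne
  · refine ⟨1, one_pos, le_refl _, fun r s hs hsB hr => ?_⟩
    have : (r, s) ∈ S := by
      rw [hS, mem_filter, mem_product, mem_range, mem_range]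
      refine ⟨⟨?_, ?_⟩, hs, hr⟩ <;> simp only <;> omega
    rw [h0] at this
    exact absurd this (notMem_empty _)
  · obtain ⟨q, hq, hmin⟩ := exists_min_image S (fun q => |(q.1 : ℝ) / q.2 - p|) hne
    refine ⟨min |(q.1 : ℝ) / q.2 - p| 1, lt_min (hpos q hq) one_pos, min_le_right _ _,
      fun r s hs hsB hr => ?_⟩
    have : (r, s) ∈ S := by
      rw [hS, mem_filter, mem_product, mem_range, mem_range]
      refine ⟨⟨?_, ?_⟩, hs, hr⟩ <;> simp only <;> omega
    exact (min_le_left _ _).trans (hmin (r, s) this)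

lemma p_irr : Irrational (1 - 1 / √2 : ℝ) := by
  have h1 : (1 - 1 / √2 : ℝ) = 1 - √2 / 2 := by
    obtain ⟨h1, h2, h3⟩ := sqrt2_facts
    have hs : (0 : ℝ) < √2 := by positivity
    rw [sub_right_inj, div_eq_div_iff hs.ne' (by norm_num)]
    linarith
  rw [h1]
  intro ⟨q, hq⟩
  apply irrational_sqrt_two
  refine ⟨2 * (1 - q), ?_⟩
  push_cast
  linarith

section

variable {N : ℕ} (β : Fin N → Fin N) (G : Fin N → Finset (Fs N))

/-- The block with index `j`. -/
def block (j : Fin N) : Fs N := univ.filter fun x => β x = j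

/-- density of `x` in the family of its block -/
noncomputable def dens (x : Fin N) : ℝ := (#{D ∈ G (β x) | x ∈ D} : ℝ) / #(G (β x))

/-- mean of the size of the trace on `T` in the block `j` -/
noncomputable def mean (T : Fs N) (j : Fin N) : ℝ := (∑ D ∈ G j, (#(D ∩ T) : ℝ)) / #(G j)

variable {β G}

lemma card_fiber (A T : Fs N) : (#(A ∩ T) : ℝ) = ∑ j, (#(A ∩ block β j ∩ T) : ℝ) := by
  have h := card_eq_sum_card_fiberwise (f := β) (s := A ∩ T) (t := univ)
    (fun x _ => by simp)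
  rw [h]
  push_cast
  refine sum_congr rfl fun j _ => ?_
  congr 2
  ext x
  simp only [block, mem_filter, mem_inter, mem_univ, true_and]
  tauto

/-- The sum of the means is the sum of the densities. -/
lemma mean_sum (hG : ∀ j, ∀ D ∈ G j, D ⊆ block β j) (T : Fs N) :
    ∑ j, mean G T j = ∑ x ∈ T, dens β G x := by
  classical
  have h1 : ∀ j, mean G T j = ∑ x ∈ T, if β x = j then dens β G x else 0 := by
    intro j
    unfold mean
    have h2 : ∑ D ∈ G j, (#(D ∩ T) : ℝ) = ∑ x ∈ T, (#{D ∈ G j | x ∈ D} : ℝ) := by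
      have e1 : ∀ D ∈ G j, (#(D ∩ T) : ℝ) = ∑ x ∈ T, if x ∈ D then (1 : ℝ) else 0 := by
        intro D _
        rw [inter_comm, ← filter_mem_eq_inter, card_filter]
        push_cast
        rfl
      rw [sum_congr rfl e1, sum_comm]
      refine sum_congr rfl fun x _ => ?_
      rw [card_filter]
      push_cast
      rfl
    rw [h2, sum_div]
    refine sum_congr rfl fun x _ => ?_
    by_cases hx : β x = j
    · rw [if_pos hx]
      unfold dens
      rw [hx]
    · rw [if_neg hx]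
      have : ({D ∈ G j | x ∈ D} : Finset (Fs N)) = ∅ := by
        rw [filter_eq_empty_iff]
        intro D hD hxD
        have := hG j D hD hxD
        simp only [block, mem_filter] at this
        exact hx this.2
      rw [this]
      simp
  simp only [h1]
  rw [sum_comm]
  refine sum_congr rfl fun x _ => ?_
  simp

/-- Exponential moments of one block. -/
lemma block_mgf {b : ℕ} (j : Fin N) (hb : ∀ D ∈ G j, #D ≤ b) (T : Fs N) {l : ℝ}
    (hl : |l| * b ≤ 1) :
    ∑ D ∈ G j, Real.exp (l * (mean G T j - #(D ∩ T))) ≤ #(G j) * Real.exp (l ^ 2 * b ^ 2) := by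
  rcases (G j).eq_empty_or_nonempty with h0 | hne
  · rw [h0]; simp
  have hc : (0 : ℝ) < #(G j) := by exact_mod_cast card_pos.2 hne
  have hz : ∀ D ∈ G j, (#(D ∩ T) : ℝ) ≤ b := by
    intro D hD
    have h1 := card_le_card (inter_subset_left (s₁ := D) (s₂ := T))
    exact_mod_cast h1.trans (hb D hD)
  have hm0 : 0 ≤ mean G T j := by unfold mean; positivity
  have hmb : mean G T j ≤ b := by
    unfold mean
    rw [div_le_iff₀ hc]
    calc ∑ D ∈ G j, (#(D ∩ T) : ℝ) ≤ ∑ D ∈ G j, (b : ℝ) := sum_le_sum hz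
      _ = b * #(G j) := by rw [sum_const, nsmul_eq_mul, mul_comm]
  have hsum0 : ∑ D ∈ G j, l * (mean G T j - #(D ∩ T)) = 0 := by
    rw [← mul_sum, sum_sub_distrib, sum_const, nsmul_eq_mul]
    unfold mean
    rw [mul_div_cancel₀ _ hc.ne', sub_self, mul_zero]
  have hpt : ∀ D ∈ G j, Real.exp (l * (mean G T j - #(D ∩ T))) ≤
      1 + l * (mean G T j - #(D ∩ T)) + l ^ 2 * b ^ 2 := by
    intro D hD
    have h1 : |mean G T j - #(D ∩ T)| ≤ b := by
      have := hz D hD
      have h0 : (0 : ℝ) ≤ #(D ∩ T) := Nat.cast_nonneg _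
      rw [abs_le]
      constructor <;> linarith
    have h2 : |l * (mean G T j - #(D ∩ T))| ≤ 1 := by
      rw [abs_mul]
      exact (mul_le_mul_of_nonneg_left h1 (abs_nonneg l)).trans hl
    have h3 := (abs_le.1 (Real.abs_exp_sub_one_sub_id_le h2)).2
    have h4 : (l * (mean G T j - #(D ∩ T))) ^ 2 ≤ l ^ 2 * b ^ 2 := by
      rw [mul_pow]
      apply mul_le_mul_of_nonneg_left _ (sq_nonneg l)
      rw [← sq_abs]
      exact pow_le_pow_left₀ (abs_nonneg _) h1 2
    linarith
  calc ∑ D ∈ G j, Real.exp (l * (mean G T j - #(D ∩ T)))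
      ≤ ∑ D ∈ G j, (1 + l * (mean G T j - #(D ∩ T)) + l ^ 2 * b ^ 2) := sum_le_sum hpt
    _ = #(G j) * (1 + l ^ 2 * b ^ 2) := by
        rw [sum_add_distrib, sum_add_distrib, hsum0, sum_const, sum_const, nsmul_eq_mul,
          nsmul_eq_mul]
        ring
    _ ≤ #(G j) * Real.exp (l ^ 2 * b ^ 2) := by
        apply mul_le_mul_of_nonneg_left _ hc.le
        have := Real.add_one_le_exp (l ^ 2 * (b : ℝ) ^ 2)
        linarith

/-- Large deviations for products of families on blocks. -/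
lemma block_dev {b : ℕ} (hG : ∀ j, ∀ D ∈ G j, D ⊆ block β j) (hb : ∀ j, #(block β j) ≤ b)
    (T : Fs N) {l a : ℝ} (hl : |l| * b ≤ 1) (P : Finset (Fs N))
    (hP : ∀ A ∈ P, ∀ j, A ∩ block β j ∈ G j)
    (ha : ∀ A ∈ P, a ≤ l * (∑ j, mean G T j - #(A ∩ T))) :
    (#P : ℝ) ≤ (∏ j, (#(G j) : ℝ)) * Real.exp (l ^ 2 * b ^ 2 * N - a) := by
  classical
  have hinj : Set.InjOn (fun (A : Fs N) (j : Fin N) => A ∩ block β j) P := by
    intro A _ A' _ h
    ext x
    have h1 := congrFun h (β x)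
    simp only at h1
    have h2 := Finset.ext_iff.1 h1 x
    simp only [mem_inter, block, mem_filter, mem_univ, true_and, and_true] at h2
    exact h2
  have h1 : (#P : ℝ) * Real.exp a ≤
      ∑ D ∈ Fintype.piFinset G, ∏ j, Real.exp (l * (mean G T j - #(D j ∩ T))) := by
    calc (#P : ℝ) * Real.exp a = ∑ A ∈ P, Real.exp a := by rw [sum_const, nsmul_eq_mul]
      _ ≤ ∑ A ∈ P, ∏ j, Real.exp (l * (mean G T j - #(A ∩ block β j ∩ T))) := by
          apply sum_le_sum
          intro A hA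
          rw [← Real.exp_sum]
          apply Real.exp_le_exp.2
          refine (ha A hA).trans (le_of_eq ?_)
          rw [card_fiber (β := β) A T, ← sum_sub_distrib, mul_sum]
      _ = ∑ D ∈ P.image (fun (A : Fs N) (j : Fin N) => A ∩ block β j),
            ∏ j, Real.exp (l * (mean G T j - #(D j ∩ T))) := by
          rw [sum_image hinj]
      _ ≤ _ := by
          apply sum_le_sum_of_subset_of_nonneg
          · intro D hD
            rw [mem_image] at hD
            obtain ⟨A, hA, rfl⟩ := hD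
            rw [Fintype.mem_piFinset]
            exact hP A hA
          · intro D _ _
            positivity
  have h1' := (prod_univ_sum (κ := fun _ : Fin N => Fs N) G
    (fun j D => Real.exp (l * (mean G T j - #(D ∩ T))))).symm
  have h1 := h1.trans h1'.le
  have h2 : ∏ j, ∑ D ∈ G j, Real.exp (l * (mean G T j - #(D ∩ T))) ≤
      ∏ j, ((#(G j) : ℝ) * Real.exp (l ^ 2 * b ^ 2)) := by
    apply prod_le_prod
    · intro j _
      positivity
    · intro j _
      exact block_mgf j (fun D hD => (card_le_card (hG j D hD)).trans (hb j)) T hl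
  rw [prod_mul_distrib, prod_const, card_univ, Fintype.card_fin, ← Real.exp_nat_mul] at h2
  have h3 := h1.trans h2
  have h4 : (∏ j, (#(G j) : ℝ)) * Real.exp (l ^ 2 * b ^ 2 * N - a) * Real.exp a =
      (∏ j, (#(G j) : ℝ)) * Real.exp (N * (l ^ 2 * b ^ 2)) := by
    rw [mul_assoc, ← Real.exp_add]
    congr 2
    ring
  rw [← h4] at h3
  exact le_of_mul_le_mul_right h3 (Real.exp_pos _)

end

section

variable {N : ℕ} (β : Fin N → Fin N) (G : Fin N → Finset (Fs N))

open scoped Classical in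
/-- the points of large density -/
noncomputable def upT : Fs N := univ.filter fun x => 1 - 1 / √2 < dens β G x

open scoped Classical in
/-- the points of small density -/
noncomputable def dnT : Fs N := univ.filter fun x => ¬ 1 - 1 / √2 < dens β G x

variable {β G}

lemma mem_upT {x : Fin N} : x ∈ upT β G ↔ 1 - 1 / √2 < dens β G x := by
  classical
  simp [upT]

lemma mem_dnT {x : Fin N} : x ∈ dnT β G ↔ ¬ 1 - 1 / √2 < dens β G x := by
  classical
  simp [dnT]

lemma card_updn : #(upT β G) + #(dnT β G) = N := by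
  classical
  unfold upT dnT
  rw [card_filter_add_card_filter_not, card_univ, Fintype.card_fin]

lemma up_case {c : ℝ} (hc0 : 0 < c) {b : ℕ} (hb1 : (1 : ℝ) ≤ b) (hc1 : c ≤ 1)
    (hdc : ∀ x, c ≤ |dens β G x - (1 - 1 / √2)|)
    (hG : ∀ j, ∀ D ∈ G j, D ⊆ block β j) (hb : ∀ j, #(block β j) ≤ b)
    {n e : ℝ} (hn : 0 ≤ n) (hN : (N : ℝ) = 2 * n) (he : e ≤ c / 4)
    (h : n ≤ #(upT β G)) (P : Finset (Fs N)) (hP : ∀ A ∈ P, ∀ j, A ∩ block β j ∈ G j)
    (hbal : ∀ A ∈ P, BalOn e (upT β G) A) :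
    (#P : ℝ) ≤ (∏ j, (#(G j) : ℝ)) * Real.exp (-(c ^ 2 / (32 * b ^ 2) * n)) := by
  have hb0 : (0 : ℝ) < b := by linarith
  have hsum : (1 - 1 / √2 + c) * #(upT β G) ≤ ∑ j, mean G (upT β G) j := by
    rw [mean_sum hG (upT β G)]
    calc (1 - 1 / √2 + c) * #(upT β G) = ∑ x ∈ upT β G, (1 - 1 / √2 + c) := by
          rw [sum_const, nsmul_eq_mul, mul_comm]
      _ ≤ ∑ x ∈ upT β G, dens β G x := by
          apply sum_le_sum
          intro x hx
          have h0 := mem_upT.1 hx
          have h1 := hdc x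
          rw [abs_of_pos (by linarith)] at h1
          linarith
  have hlam0 : 0 < c / (8 * (b : ℝ) ^ 2) := by positivity
  have hlb : c / (8 * (b : ℝ) ^ 2) * b ≤ 1 := by
    rw [div_mul_eq_mul_div, div_le_one (by positivity)]
    nlinarith
  have h1 := block_dev (l := c / (8 * (b : ℝ) ^ 2)) (a := c / (8 * (b : ℝ) ^ 2) * (c * n / 2))
    hG hb (upT β G) (by rw [abs_of_pos hlam0]; exact hlb) P hP (by
      intro A hA
      apply mul_le_mul_of_nonneg_left _ hlam0.le
      have h2 := (abs_le.1 (hbal A hA)).2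
      rw [hN] at h2
      have h3 : e * (2 * n) ≤ c / 4 * (2 * n) := mul_le_mul_of_nonneg_right he (by positivity)
      have h4 : c * n ≤ c * #(upT β G) := mul_le_mul_of_nonneg_left h hc0.le
      linarith)
  refine h1.trans (le_of_eq ?_)
  congr 2
  rw [hN]
  field_simp
  ring

lemma dn_case {c : ℝ} (hc0 : 0 < c) {b : ℕ} (hb1 : (1 : ℝ) ≤ b) (hc1 : c ≤ 1)
    (hdc : ∀ x, c ≤ |dens β G x - (1 - 1 / √2)|)
    (hG : ∀ j, ∀ D ∈ G j, D ⊆ block β j) (hb : ∀ j, #(block β j) ≤ b)
    {n e : ℝ} (hn : 0 ≤ n) (hN : (N : ℝ) = 2 * n) (he : e ≤ c / 4)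
    (h : n ≤ #(dnT β G)) (P : Finset (Fs N)) (hP : ∀ A ∈ P, ∀ j, A ∩ block β j ∈ G j)
    (hbal : ∀ A ∈ P, BalOn e (dnT β G) A) :
    (#P : ℝ) ≤ (∏ j, (#(G j) : ℝ)) * Real.exp (-(c ^ 2 / (32 * b ^ 2) * n)) := by
  have hb0 : (0 : ℝ) < b := by linarith
  have hsum : ∑ j, mean G (dnT β G) j ≤ (1 - 1 / √2 - c) * #(dnT β G) := by
    rw [mean_sum hG (dnT β G)]
    calc ∑ x ∈ dnT β G, dens β G x ≤ ∑ x ∈ dnT β G, (1 - 1 / √2 - c) := by
          apply sum_le_sum
          intro x hx
          have h0 := mem_dnT.1 hx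
          push Not at h0
          have h1 := hdc x
          rw [abs_of_nonpos (by linarith)] at h1
          linarith
      _ = (1 - 1 / √2 - c) * #(dnT β G) := by
          rw [sum_const, nsmul_eq_mul, mul_comm]
  have hlam0 : 0 < c / (8 * (b : ℝ) ^ 2) := by positivity
  have hlb : c / (8 * (b : ℝ) ^ 2) * b ≤ 1 := by
    rw [div_mul_eq_mul_div, div_le_one (by positivity)]
    nlinarith
  have h1 := block_dev (l := -(c / (8 * (b : ℝ) ^ 2))) (a := c / (8 * (b : ℝ) ^ 2) * (c * n / 2))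
    hG hb (dnT β G) (by rw [abs_neg, abs_of_pos hlam0]; exact hlb) P hP (by
      intro A hA
      have h2 := (abs_le.1 (hbal A hA)).1
      rw [hN] at h2
      have h3 : e * (2 * n) ≤ c / 4 * (2 * n) := mul_le_mul_of_nonneg_right he (by positivity)
      have h4 : c * n ≤ c * #(dnT β G) := mul_le_mul_of_nonneg_left h hc0.le
      have h5 : c * n / 2 ≤ (#(A ∩ dnT β G) : ℝ) - ∑ j, mean G (dnT β G) j := by linarith
      have h6 := mul_le_mul_of_nonneg_left h5 hlam0.le
      linarith)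
  refine h1.trans (le_of_eq ?_)
  congr 2
  rw [hN]
  field_simp
  ring

end

/-- Block products have few balanced members. -/
theorem block_few (b : ℕ) (hb1 : 0 < b) : ∃ κ : ℝ, 0 < κ ∧ ∃ e₀ : ℝ, 0 < e₀ ∧ ∀ (n : ℕ) (e : ℝ),
    e ≤ e₀ → ∀ (β : Fin (2 * n) → Fin (2 * n)) (G : Fin (2 * n) → Finset (Fs (2 * n))),
      (∀ j, ∀ D ∈ G j, D ⊆ block β j) → (∀ j, #(block β j) ≤ b) →
      ∀ P : Finset (Fs (2 * n)), (∀ A ∈ P, ∀ j, A ∩ block β j ∈ G j) →
        (∀ A ∈ P, BalOn e (upT β G) A ∧ BalOn e (dnT β G) A) →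
        (#P : ℝ) ≤ (∏ j, (#(G j) : ℝ)) * Real.exp (-(κ * n)) := by
  obtain ⟨c, hc0, hc1, hc⟩ := rat_gap _ p_irr (2 ^ b)
  have hbr : (1 : ℝ) ≤ b := by exact_mod_cast hb1
  have hb0 : (0 : ℝ) < b := by linarith
  refine ⟨c ^ 2 / (32 * b ^ 2), by positivity, c / 4, by positivity, ?_⟩
  intro n e he β G hG hb P hP hbal
  rcases P.eq_empty_or_nonempty with h0 | hne
  · rw [h0, card_empty]
    have : (0 : ℝ) ≤ ∏ j, (#(G j) : ℝ) := prod_nonneg fun j _ => Nat.cast_nonneg _
    push_cast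
    positivity
  -- the families of the blocks are not empty
  obtain ⟨A0, hA0⟩ := hne
  have hGne : ∀ j, 0 < #(G j) := fun j => card_pos.2 ⟨_, hP A0 hA0 j⟩
  have hGle : ∀ j, #(G j) ≤ 2 ^ b := by
    intro j
    have h1 : G j ⊆ (block β j).powerset := fun D hD => mem_powerset.2 (hG j D hD)
    have h2 := card_le_card h1
    rw [card_powerset] at h2
    exact h2.trans (Nat.pow_le_pow_right (by norm_num) (hb j))
  have hdc : ∀ x, c ≤ |dens β G x - (1 - 1 / √2)| := by
    intro x
    exact hc _ _ (hGne _) (hGle _) (card_filter_le _ _)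
  have hcn : (0 : ℝ) ≤ n := Nat.cast_nonneg _
  have hNn : ((2 * n : ℕ) : ℝ) = 2 * (n : ℝ) := by push_cast; ring
  have hcard := card_updn (β := β) (G := G)
  have hhalf : n ≤ #(upT β G) ∨ n ≤ #(dnT β G) := by omega
  rcases hhalf with h | h
  · exact up_case hc0 hbr hc1 hdc hG hb hcn hNn he (by exact_mod_cast h) P hP
      (fun A hA => (hbal A hA).1)
  · exact dn_case hc0 hbr hc1 hdc hG hb hcn hNn he (by exact_mod_cast h) P hP
      (fun A hA => (hbal A hA).2)

end Pool.Agent.Helper77.TP
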