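import Pool.Agent.Helper77.TP.Core

/-! MP_f69198_co: local form of the book bound. -/

namespace Pool.Agent.Helper77.TP

open Finset Pool.Agent.Lead.UB

open Pool.Agent.Lead.UB.Bad (Bk)

variable {N t : ℕ}

/-- The traces of `A` and `B` on `T` look like two random sets of density `1 - 1/√2`. -/
def QROn (ε : ℝ) (T A B : Fs N) : Prop :=
  |(#(A ∩ T) : ℝ) - (1 - 1 / √2) * #T| ≤ ε * N ∧
  |(#(B ∩ T) : ℝ) - (1 - 1 / √2) * #T| ≤ ε * N ∧
  |(#(A ∩ B ∩ T) : ℝ) - (3 / 2 - √2) * #T| ≤ ε * N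

/-- Quasi-random on all test sets. -/
def QRL (ε : ℝ) (TT : Finset (Fs N)) (A B : Fs N) : Prop := ∀ T ∈ TT, QROn ε T A B

lemma qron_symm {ε : ℝ} {T A B : Fs N} (h : QROn ε T A B) : QROn ε T B A :=
  ⟨h.2.1, h.1, by rw [inter_comm B A]; exact h.2.2⟩

lemma qrl_symm {ε : ℝ} {TT : Finset (Fs N)} {A B : Fs N} (h : QRL ε TT A B) : QRL ε TT B A :=
  fun T hT => qron_symm (h T hT)

lemma qron_mono {ε ε' : ℝ} (h : ε ≤ ε') {T A B : Fs N} (hq : QROn ε T A B) : QROn ε' T A B := by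
  have hN : (0 : ℝ) ≤ N := Nat.cast_nonneg _
  have : ε * N ≤ ε' * N := mul_le_mul_of_nonneg_right h hN
  exact ⟨hq.1.trans this, hq.2.1.trans this, hq.2.2.trans this⟩

lemma qrl_mono {ε ε' : ℝ} (h : ε ≤ ε') {TT : Finset (Fs N)} {A B : Fs N} (hq : QRL ε TT A B) :
    QRL ε' TT A B := fun T hT => qron_mono h (hq T hT)

lemma p2_bounds : (0 : ℝ) ≤ 3 / 2 - √2 ∧ (3 : ℝ) / 2 - √2 ≤ 1 := by
  have h1 : √2 ≤ 3 / 2 := by
    rw [show (3 / 2 : ℝ) = √((3 / 2) ^ 2) by rw [Real.sqrt_sq (by norm_num)]]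
    exact Real.sqrt_le_sqrt (by norm_num)
  have h2 : (1 : ℝ) ≤ √2 := by
    rw [show (1 : ℝ) = √1 by simp]
    exact Real.sqrt_le_sqrt (by norm_num)
  constructor <;> linarith

lemma qron_small {ε : ℝ} {T A B : Fs N} (hT : ¬ ε * N ≤ #T) : QROn ε T A B := by
  refine ⟨bal_small hT, bal_small hT, ?_⟩
  push Not at hT
  have h1 : (#(A ∩ B ∩ T) : ℝ) ≤ #T := by exact_mod_cast card_le_card inter_subset_right
  have h2 : (0 : ℝ) ≤ #(A ∩ B ∩ T) := Nat.cast_nonneg _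
  have h3 : (0 : ℝ) ≤ #T := Nat.cast_nonneg _
  obtain ⟨p0, p1⟩ := p2_bounds
  have h4 : (3 / 2 - √2) * (#T : ℝ) ≤ 1 * #T := mul_le_mul_of_nonneg_right p1 h3
  have h5 : 0 ≤ (3 / 2 - √2) * (#T : ℝ) := mul_nonneg p0 h3
  rw [abs_le]
  constructor <;> linarith

/-- The local form of the book lemma. -/
theorem book_loc2 (ε : ℝ) (hε : 0 < ε) : ∃ η : ℝ, 0 < η ∧ ∃ t : ℕ, ∀ (N : ℕ), 0 < N →
    ∀ (T B C : Fs N) (A : Fin t → Fs N), TypicalOn T η B C A → QROn ε T B C := by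
  obtain ⟨η, hη, t, hbook⟩ := Pool.Agent.Helper43.UB.stmtBook ε hε
  refine ⟨η * ε, by positivity, t, ?_⟩
  intro N hN T B C A h
  by_cases hT : ε * N ≤ #T
  · have hNr : (0 : ℝ) < N := by exact_mod_cast hN
    have hT0 : 0 < #T := by
      have : (0 : ℝ) < #T := lt_of_lt_of_le (by positivity) hT
      exact_mod_cast this
    have h1 := hbook #T hT0 _ _ _ (typical_res hη.le hT h)
    obtain ⟨k1, k2, k3⟩ := h1
    rw [card_res] at k1 k2
    rw [res_inter, card_res] at k3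
    have hm : ε * (#T : ℝ) ≤ ε * N := mul_le_mul_of_nonneg_left (card_le_N T) hε.le
    exact ⟨k1.trans hm, k2.trans hm, k3.trans hm⟩
  · exact qron_small hT

open scoped Classical in
/-- In any part of the family, at most half of the pairs are edges that are not quasi-random on
all test sets. -/
theorem book_bound (ε δ κ : ℝ) (hε : 0 < ε) (hδ : 0 < δ) (hκ : 0 < κ) :
    ∃ μ : ℝ, 0 < μ ∧ ∃ n₁ : ℕ, ∀ N ≥ n₁, ∀ (F : Finset (Fs N)) (R : Fs N → Fs N → Prop)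
      (TT : Finset (Fs N)), (#TT : ℝ) ≤ Real.exp (μ * N) →
      (∀ A B, R A B → A ∈ F ∧ B ∈ F) → (∀ A B, R A B → R B A) → (∀ A, ¬ R A A) →
      (∀ A B A' B', R A B → R A' B' → A ∪ B = A' ∪ B' →
        (A = A' ∧ B = B') ∨ (A = B' ∧ B = A')) →
      (∀ A B, R A B → ¬ QRL ε TT A B) → κ * 2 ^ N ≤ (#F : ℝ) ^ 2 →
      ∀ W ⊆ F, (#{p : Fs N × Fs N | R p.1 p.2 ∧ p.1 ∈ W ∧ p.2 ∈ W} : ℝ) ≤
        (#W : ℝ) ^ 2 / 2 + δ * (#F : ℝ) ^ 2 := by
  obtain ⟨η, hη, t, hbook⟩ := book_loc2 ε hε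
  set c : ℝ := min δ 1 with hc
  have hc0 : 0 < c := lt_min hδ one_pos
  have hc1 : c ≤ 1 := min_le_right _ _
  have hcδ : c ≤ δ := min_le_left _ _
  obtain ⟨n2, hn2⟩ := exists_nat_gt (128 * (t + 2 : ℝ) ^ 4 / (κ * η ^ 2 * ((2 * δ) ^ t * c ^ (t + 2))))
  refine ⟨η ^ 2, by positivity, n2 + 1, ?_⟩
  intro N hN F R TT hTT hRF hRsymm hRirr hRdet hRqr hsq W hW
  by_contra hcon
  push Not at hcon
  have hN0 : 0 < N := by omega
  have hN0' : (0 : ℝ) < N := by exact_mod_cast hN0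
  set m : ℝ := (#F : ℝ) with hm
  have hm0 : 0 < m := by
    have h1 : 0 < m ^ 2 := lt_of_lt_of_le (by positivity) hsq
    have h2 : 0 ≤ m := by rw [hm]; positivity
    rcases h2.eq_or_lt with h | h
    · rw [← h] at h1; norm_num at h1
    · exact h
  set V : Type := {A : Fs N // A ∈ W} with hV
  have hVcard : Fintype.card V = #W := Fintype.card_coe W
  have hE : (#{p : Fs N × Fs N | R p.1 p.2 ∧ p.1 ∈ W ∧ p.2 ∈ W} : ℝ) ≤
      (#{p : V × V | R p.1.1 p.2.1} : ℝ) := by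
    rw [Nat.cast_le]
    have h1 : ({p : Fs N × Fs N | R p.1 p.2 ∧ p.1 ∈ W ∧ p.2 ∈ W} : Finset (Fs N × Fs N)) ⊆
        (univ.filter fun p : V × V => R p.1.1 p.2.1).image (fun p => (p.1.1, p.2.1)) := by
      intro p hp
      rw [mem_filter] at hp
      rw [mem_image]
      exact ⟨(⟨p.1, hp.2.2.1⟩, ⟨p.2, hp.2.2.2⟩), mem_filter.2 ⟨mem_univ _, hp.2.1⟩, rfl⟩
    exact (card_le_card h1).trans card_image_le
  have hEw : (#{p : Fs N × Fs N | R p.1 p.2 ∧ p.1 ∈ W ∧ p.2 ∈ W} : ℝ) ≤ (#W : ℝ) ^ 2 := by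
    have h1 : ({p : Fs N × Fs N | R p.1 p.2 ∧ p.1 ∈ W ∧ p.2 ∈ W} : Finset (Fs N × Fs N)) ⊆
        W ×ˢ W := by
      intro p hp
      rw [mem_filter] at hp
      exact mem_product.2 hp.2.2
    have h2 := card_le_card h1
    rw [card_product, ← sq] at h2
    exact_mod_cast h2
  have hwm : (#W : ℝ) ≤ m := by
    rw [hm]; exact_mod_cast card_le_card hW
  have hw0 : (0 : ℝ) ≤ #W := Nat.cast_nonneg _
  have hcw : c * m ≤ #W := by
    have h1 : δ * m ^ 2 ≤ (#W : ℝ) ^ 2 := by nlinarith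
    have h2 : (c * m) ^ 2 ≤ (#W : ℝ) ^ 2 := by
      refine le_trans ?_ h1
      have : (c * m) ^ 2 = c * c * m ^ 2 := by ring
      rw [this]
      have : c * c ≤ δ := by nlinarith
      gcongr
    exact le_of_sq_le_sq h2 hw0
  have hdens : (Fintype.card V : ℝ) ^ 2 * (1 / 2 + 2 * (δ / 2)) ≤
      (#{p : V × V | R p.1.1 p.2.1} : ℝ) := by
    rw [hVcard]
    refine le_trans ?_ (hcon.le.trans hE)
    have : (#W : ℝ) ^ 2 ≤ m ^ 2 := by gcongr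
    nlinarith
  have hb := Pool.Agent.Helper43.UB.stmtCount V (fun x y => R x.1 y.1)
    (fun x y h => hRsymm _ _ h) (fun x h => hRirr _ h) (δ / 2) (by positivity) t hdens
  rw [hVcard] at hb
  set X : Finset ((Fs N × Fs N) × (Fin t → Fs N)) :=
    {q | R q.1.1 q.1.2 ∧ (∀ i, R (q.2 i) q.1.1 ∧ R (q.2 i) q.1.2)} with hX
  have hbX : (#{q : (V × V) × (Fin t → V) | R q.1.1.1 q.1.2.1 ∧
        ∀ i, R (q.2 i).1 q.1.1.1 ∧ R (q.2 i).1 q.1.2.1} : ℝ) ≤ #X := by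
    have : #{q : (V × V) × (Fin t → V) | R q.1.1.1 q.1.2.1 ∧
        ∀ i, R (q.2 i).1 q.1.1.1 ∧ R (q.2 i).1 q.1.2.1} ≤ #X := by
      apply card_le_card_of_injOn (fun q => ((q.1.1.1, q.1.2.1), fun i => (q.2 i).1))
      · intro q hq
        rw [mem_coe, mem_filter] at hq
        rw [mem_coe, hX, mem_filter]
        exact ⟨mem_univ _, hq.2⟩
      · rintro ⟨⟨a, b⟩, c⟩ _ ⟨⟨a', b'⟩, c'⟩ _ he
        simp only [Prod.mk.injEq] at he
        obtain ⟨⟨h1, h2⟩, h3⟩ := he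
        have e1 : a = a' := Subtype.ext h1
        have e2 : b = b' := Subtype.ext h2
        have e3 : c = c' := by
          funext i
          exact Subtype.ext (congrFun h3 i)
        rw [e1, e2, e3]
    exact_mod_cast this
  have hnt : ∀ q ∈ X, ∃ T ∈ TT, ¬ TypicalOn T η q.1.1 q.1.2 q.2 := by
    intro q hq
    rw [hX, mem_filter] at hq
    by_contra hno
    push Not at hno
    exact hRqr _ _ hq.2.1 fun T hT => hbook N hN0 _ _ _ _ (hno T hT)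
  have hbad := bad_all hRF hRdet hη X
    (fun q hq => by rw [hX, mem_filter] at hq; exact hq.2) TT hnt
  have hfin := le_trans (le_trans hb hbX) hbad
  rw [← hm] at hfin
  have hpow : 0 < m ^ (t + 2) := by positivity
  have e4 : 4 * (δ / 2) = 2 * δ := by ring
  rw [e4] at hfin
  have hlow : (2 * δ) ^ t * c ^ (t + 2) / 2 * m ^ (t + 2) ≤ (2 * δ) ^ t / 2 * (#W : ℝ) ^ (t + 2) := by
    have h1 : (c * m) ^ (t + 2) ≤ (#W : ℝ) ^ (t + 2) := by gcongr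
    rw [mul_pow] at h1
    have h2 : (0 : ℝ) ≤ (2 * δ) ^ t / 2 := by positivity
    calc (2 * δ) ^ t * c ^ (t + 2) / 2 * m ^ (t + 2)
        = (2 * δ) ^ t / 2 * (c ^ (t + 2) * m ^ (t + 2)) := by ring
      _ ≤ _ := mul_le_mul_of_nonneg_left h1 h2
  -- the upper bound
  have hup : (#TT : ℝ) * (16 * ((t : ℝ) + 2) ^ 4 *
      (m ^ t * (2 * (2 * (2 ^ N * Real.exp (-(2 * η ^ 2 * N))))))) ≤
      64 * ((t : ℝ) + 2) ^ 4 / κ * Real.exp (-(η ^ 2 * N)) * m ^ (t + 2) := by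
    have h1 : (2 : ℝ) ^ N ≤ m ^ 2 / κ := by
      rw [le_div_iff₀ hκ]
      linarith
    have h2 : Real.exp (η ^ 2 * N) * Real.exp (-(2 * η ^ 2 * N)) = Real.exp (-(η ^ 2 * N)) := by
      rw [← Real.exp_add]; congr 1; ring
    calc (#TT : ℝ) * (16 * ((t : ℝ) + 2) ^ 4 *
          (m ^ t * (2 * (2 * (2 ^ N * Real.exp (-(2 * η ^ 2 * N)))))))
        ≤ Real.exp (η ^ 2 * N) * (16 * ((t : ℝ) + 2) ^ 4 *
          (m ^ t * (2 * (2 * (m ^ 2 / κ * Real.exp (-(2 * η ^ 2 * N))))))) := by gcongr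
      _ = 64 * ((t : ℝ) + 2) ^ 4 / κ * (Real.exp (η ^ 2 * N) * Real.exp (-(2 * η ^ 2 * N))) *
          m ^ (t + 2) := by
          rw [pow_add]; field_simp; ring
      _ = _ := by rw [h2]
  have hfin2 := le_of_mul_le_mul_right (hlow.trans (hfin.trans hup)) hpow
  have hexp : Real.exp (-(η ^ 2 * N)) ≤ 1 / (η ^ 2 * N) := by
    rw [Real.exp_neg, inv_eq_one_div]
    apply one_div_le_one_div_of_le (by positivity)
    have := Real.add_one_le_exp (η ^ 2 * N)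
    linarith
  have hfin3 : (2 * δ) ^ t * c ^ (t + 2) / 2 ≤ 64 * ((t : ℝ) + 2) ^ 4 / κ * (1 / (η ^ 2 * N)) :=
    hfin2.trans (mul_le_mul_of_nonneg_left hexp (by positivity))
  have hNR : (128 * (t + 2 : ℝ) ^ 4 / (κ * η ^ 2 * ((2 * δ) ^ t * c ^ (t + 2)))) < N := by
    have : (n2 : ℝ) ≤ N := by exact_mod_cast (by omega : n2 ≤ N)
    linarith
  rw [div_lt_iff₀ (by positivity)] at hNR
  have e5 : 64 * ((t : ℝ) + 2) ^ 4 / κ * (1 / (η ^ 2 * N)) =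
      64 * ((t : ℝ) + 2) ^ 4 / (κ * η ^ 2 * N) := by
    field_simp
  rw [e5, le_div_iff₀ (by positivity)] at hfin3
  have e6 : (2 * δ) ^ t * c ^ (t + 2) / 2 * (κ * η ^ 2 * N) * 2 =
      N * (κ * η ^ 2 * ((2 * δ) ^ t * c ^ (t + 2))) := by ring
  linarith

end Pool.Agent.Helper77.TP
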