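import Pool.Agent.Helper77.TP.Many

/-! MP_f69198_co: cherries of the representation graph, local version. -/

namespace Pool.Agent.Helper77.TP

open Finset Pool.Agent.Lead.UB

variable {N : ℕ}

lemma card_compl_inter (A T : Fs N) : (#(Aᶜ ∩ T) : ℝ) = #T - #(A ∩ T) := by
  have h : #(A ∩ T) + #(Aᶜ ∩ T) = #T := by
    rw [← card_union_of_disjoint]
    · congr 1
      ext v
      simp only [mem_union, mem_inter, mem_compl]
      tauto
    · rw [disjoint_left]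
      intro v hv hv'
      simp only [mem_inter, mem_compl] at hv hv'
      exact hv'.1 hv.1
  have h2 : (#(A ∩ T) : ℝ) + #(Aᶜ ∩ T) = #T := by exact_mod_cast h
  linarith

/-- In a typical cherry `B - A - C` with `(A, B)` quasi-random on `T`, `(A, C)` is too. -/
theorem qr_cherry {ε η : ℝ} {T A B C : Fs N}
    (h1 : Halves η (A ∪ C) (Bᶜ ∩ T)) (h2 : Halves η (A ∪ B) (Cᶜ ∩ T)) (h3 : Halves η (A ∪ C) T)
    (h : QROn ε T A B) (hε : 0 ≤ ε) (hη : 0 ≤ η) : QROn (2 * ε + 5 * η) T A C := by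
  have hN : (0 : ℝ) ≤ N := Nat.cast_nonneg _
  unfold Halves at h1 h2 h3
  have e1 : (A ∪ C)ᶜ ∩ (Bᶜ ∩ T) = (A ∪ B)ᶜ ∩ (Cᶜ ∩ T) := by
    ext v; simp only [mem_inter, mem_compl, mem_union]; tauto
  rw [e1] at h1
  have cB := card_compl_inter B T
  have cC := card_compl_inter C T
  have cAC := card_compl_inter (A ∪ C) T
  have cI : (#(A ∩ C ∩ T) : ℝ) + #((A ∪ C) ∩ T) = #(A ∩ T) + #(C ∩ T) := by
    have := card_inter_add_card_union (A ∩ T) (C ∩ T)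
    have e2 : A ∩ T ∩ (C ∩ T) = A ∩ C ∩ T := by
      ext v; simp only [mem_inter]; tauto
    have e3 : A ∩ T ∪ C ∩ T = (A ∪ C) ∩ T := by
      ext v; simp only [mem_inter, mem_union]; tauto
    rw [e2, e3] at this
    exact_mod_cast this
  rw [cB] at h1
  rw [cC] at h2
  rw [cAC] at h3
  obtain ⟨q1, q2, q3⟩ := h
  set x : ℝ := (#((A ∪ B)ᶜ ∩ (Cᶜ ∩ T)) : ℝ) with hx
  rw [abs_le] at h1 h2 h3 q1 q2
  have hs : 1 / √2 = √2 / 2 := by
    rw [div_eq_div_iff (by positivity) (by norm_num)]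
    have := Real.mul_self_sqrt (show (0 : ℝ) ≤ 2 by norm_num)
    linarith
  rw [hs] at q1 q2
  have hεN : 0 ≤ ε * N := by positivity
  have hηN : 0 ≤ η * N := by positivity
  have eN : (2 * ε + 5 * η) * (N : ℝ) = 2 * (ε * N) + 5 * (η * N) := by ring
  have eN1 : (1 - √2 / 2) * (#T : ℝ) = #T - √2 * #T / 2 := by ring
  have eN2 : (3 / 2 - √2) * (#T : ℝ) = 3 * #T / 2 - √2 * #T := by ring
  unfold QROn
  rw [eN, hs, eN1, eN2]
  rw [eN1] at q1 q2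
  generalize √2 * (#T : ℝ) = w at *
  generalize ε * (N : ℝ) = e at *
  generalize η * (N : ℝ) = f at *
  refine ⟨?_, ?_, ?_⟩
  · rw [abs_le]
    constructor <;> linarith [h1.1, h1.2, h2.1, h2.2, h3.1, h3.2, q1.1, q1.2, q2.1, q2.2]
  · rw [abs_le]
    constructor <;> linarith [h1.1, h1.2, h2.1, h2.2, h3.1, h3.2, q1.1, q1.2, q2.1, q2.2]
  · rw [abs_le]
    constructor <;> linarith [h1.1, h1.2, h2.1, h2.2, h3.1, h3.2, q1.1, q1.2, q2.1, q2.2]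

/-- The cherry `(A, B, C)` is typical on `T`. -/
def TypCherry (η : ℝ) (T A B C : Fs N) : Prop :=
  Halves η (A ∪ C) (Bᶜ ∩ T) ∧ Halves η (A ∪ B) (Cᶜ ∩ T) ∧ Halves η (A ∪ C) T

open scoped Classical in
/-- Triples with a bad edge, for a fixed test set depending on the third member. -/
lemma triple_le {F : Finset (Fs N)} {R : Fs N → Fs N → Prop}
    (hdet : ∀ A B A' B', R A B → R A' B' → A ∪ B = A' ∪ B' →
      (A = A' ∧ B = B') ∨ (A = B' ∧ B = A'))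
    {η β : ℝ} (hβ : ∀ T : Fs N, (#{S : Fs N | ¬ Halves η S T} : ℝ) ≤ β) (τ : Fs N → Fs N)
    (X : Finset (Fs N × Fs N × Fs N))
    (Φ : Fs N × Fs N × Fs N → (Fs N × Fs N) × Fs N) (hΦ : Set.InjOn Φ X)
    (h1 : ∀ q ∈ X, R (Φ q).1.1 (Φ q).1.2 ∧ (Φ q).2 ∈ F ∧
      ¬ Halves η ((Φ q).1.1 ∪ (Φ q).1.2) (τ (Φ q).2)) :
    (#X : ℝ) ≤ #F * (2 * β) := by
  have e1 : #X = ∑ B ∈ F, #{q ∈ X | (Φ q).2 = B} := by
    apply card_eq_sum_card_fiberwise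
    intro q hq
    exact (h1 q hq).2.1
  rw [e1]
  push_cast
  have e2 : ∀ B ∈ F, (#{q ∈ X | (Φ q).2 = B} : ℝ) ≤ 2 * β := by
    intro B _
    refine le_trans ?_ (edges_le hdet hβ (τ B))
    rw [Nat.cast_le]
    refine card_le_card_of_injOn (fun q => (Φ q).1) ?_ ?_
    · intro q hq
      rw [mem_coe, mem_filter] at hq
      rw [mem_coe, mem_filter]
      have := h1 q hq.1
      rw [hq.2] at this
      exact ⟨mem_univ _, this.1, this.2.2⟩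
    · intro q hq q' hq' h
      rw [mem_coe, mem_filter] at hq hq'
      exact hΦ hq.1 hq'.1 (Prod.ext h (hq.2.trans hq'.2.symm))
  refine (sum_le_sum e2).trans ?_
  rw [sum_const, nsmul_eq_mul]

open scoped Classical in
/-- Few cherries are not typical on `T`. -/
lemma cherry_count {F : Finset (Fs N)} {R : Fs N → Fs N → Prop}
    (hRF : ∀ A B, R A B → A ∈ F ∧ B ∈ F)
    (hdet : ∀ A B A' B', R A B → R A' B' → A ∪ B = A' ∪ B' →
      (A = A' ∧ B = B') ∨ (A = B' ∧ B = A'))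
    {η β : ℝ} (hβ : ∀ T : Fs N, (#{S : Fs N | ¬ Halves η S T} : ℝ) ≤ β) (T : Fs N) :
    (#{q : Fs N × Fs N × Fs N | R q.1 q.2.1 ∧ R q.1 q.2.2 ∧
      ¬ TypCherry η T q.1 q.2.1 q.2.2} : ℝ) ≤ 3 * (#F * (2 * β)) := by
  set X1 : Finset (Fs N × Fs N × Fs N) :=
    {q | R q.1 q.2.1 ∧ R q.1 q.2.2 ∧ ¬ Halves η (q.1 ∪ q.2.2) (q.2.1ᶜ ∩ T)} with hX1
  set X2 : Finset (Fs N × Fs N × Fs N) :=
    {q | R q.1 q.2.1 ∧ R q.1 q.2.2 ∧ ¬ Halves η (q.1 ∪ q.2.1) (q.2.2ᶜ ∩ T)} with hX2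
  set X3 : Finset (Fs N × Fs N × Fs N) :=
    {q | R q.1 q.2.1 ∧ R q.1 q.2.2 ∧ ¬ Halves η (q.1 ∪ q.2.2) T} with hX3
  have b1 : (#X1 : ℝ) ≤ #F * (2 * β) := by
    refine triple_le hdet hβ (fun B => Bᶜ ∩ T) X1 (fun q => ((q.1, q.2.2), q.2.1)) ?_ ?_
    · rintro ⟨a, b, c⟩ _ ⟨a', b', c'⟩ _ h
      simp only [Prod.mk.injEq] at h
      simp [h.1.1, h.1.2, h.2]
    · intro q hq
      rw [hX1, mem_filter] at hq
      exact ⟨hq.2.2.1, (hRF _ _ hq.2.1).2, hq.2.2.2⟩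
  have b2 : (#X2 : ℝ) ≤ #F * (2 * β) := by
    refine triple_le hdet hβ (fun B => Bᶜ ∩ T) X2 (fun q => ((q.1, q.2.1), q.2.2)) ?_ ?_
    · rintro ⟨a, b, c⟩ _ ⟨a', b', c'⟩ _ h
      simp only [Prod.mk.injEq] at h
      simp [h.1.1, h.1.2, h.2]
    · intro q hq
      rw [hX2, mem_filter] at hq
      exact ⟨hq.2.1, (hRF _ _ hq.2.2.1).2, hq.2.2.2⟩
  have b3 : (#X3 : ℝ) ≤ #F * (2 * β) := by
    refine triple_le hdet hβ (fun _ => T) X3 (fun q => ((q.1, q.2.2), q.2.1)) ?_ ?_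
    · rintro ⟨a, b, c⟩ _ ⟨a', b', c'⟩ _ h
      simp only [Prod.mk.injEq] at h
      simp [h.1.1, h.1.2, h.2]
    · intro q hq
      rw [hX3, mem_filter] at hq
      exact ⟨hq.2.2.1, (hRF _ _ hq.2.1).2, hq.2.2.2⟩
  have hsub : ({q : Fs N × Fs N × Fs N | R q.1 q.2.1 ∧ R q.1 q.2.2 ∧
      ¬ TypCherry η T q.1 q.2.1 q.2.2} : Finset (Fs N × Fs N × Fs N)) ⊆ X1 ∪ X2 ∪ X3 := by
    intro q hq
    rw [mem_filter] at hq
    obtain ⟨_, h1, h2, h3⟩ := hq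
    unfold TypCherry at h3
    rw [hX1, hX2, hX3, mem_union, mem_union, mem_filter, mem_filter, mem_filter]
    by_cases k1 : Halves η (q.1 ∪ q.2.2) (q.2.1ᶜ ∩ T)
    · by_cases k2 : Halves η (q.1 ∪ q.2.1) (q.2.2ᶜ ∩ T)
      · exact Or.inr ⟨mem_univ _, h1, h2, fun k3 => h3 ⟨k1, k2, k3⟩⟩
      · exact Or.inl (Or.inr ⟨mem_univ _, h1, h2, k2⟩)
    · exact Or.inl (Or.inl ⟨mem_univ _, h1, h2, k1⟩)
  have c1 := card_le_card hsub
  have c2 := card_union_le (X1 ∪ X2) X3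
  have c3 := card_union_le X1 X2
  have c4 : (#{q : Fs N × Fs N × Fs N | R q.1 q.2.1 ∧ R q.1 q.2.2 ∧
      ¬ TypCherry η T q.1 q.2.1 q.2.2} : ℝ) ≤ #X1 + #X2 + #X3 := by
    have : #{q : Fs N × Fs N × Fs N | R q.1 q.2.1 ∧ R q.1 q.2.2 ∧
      ¬ TypCherry η T q.1 q.2.1 q.2.2} ≤ #X1 + #X2 + #X3 := by omega
    exact_mod_cast this
  linarith

open scoped Classical in
/-- The degree of `A` in the edges with property `Q`. -/
noncomputable def qdeg (R : Fs N → Fs N → Prop) (Q : Fs N → Fs N → Prop) (A : Fs N) : ℕ :=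
  #{B : Fs N | R A B ∧ Q A B}

open scoped Classical in
/-- Few edges at vertices of large quasi-random degree are not quasi-random. -/
lemma few_pairs {F : Finset (Fs N)} {R : Fs N → Fs N → Prop}
    (hRF : ∀ A B, R A B → A ∈ F ∧ B ∈ F)
    (hdet : ∀ A B A' B', R A B → R A' B' → A ∪ B = A' ∪ B' →
      (A = A' ∧ B = B') ∨ (A = B' ∧ B = A'))
    {ε η γ β : ℝ} (hε : 0 < ε) (hη : 0 < η) (hγ : 0 < γ) (hm : 0 < (#F : ℝ))
    (hβ : ∀ T : Fs N, (#{S : Fs N | ¬ Halves η S T} : ℝ) ≤ β) (TT : Finset (Fs N)) :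
    (#{p : Fs N × Fs N | R p.1 p.2 ∧ γ * #F ≤ qdeg R (QRL ε TT) p.1 ∧
      ¬ QRL (2 * ε + 5 * η) TT p.1 p.2} : ℝ) ≤ #TT * (6 * β / γ) := by
  set P : Finset (Fs N × Fs N) := {p | R p.1 p.2 ∧ γ * #F ≤ qdeg R (QRL ε TT) p.1 ∧
      ¬ QRL (2 * ε + 5 * η) TT p.1 p.2} with hP
  have h1 : ∑ p ∈ P, qdeg R (QRL ε TT) p.1 ≤
      ∑ T ∈ TT, #{q : Fs N × Fs N × Fs N | R q.1 q.2.1 ∧ R q.1 q.2.2 ∧
        ¬ TypCherry η T q.1 q.2.1 q.2.2} := by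
    have e : ∑ p ∈ P, qdeg R (QRL ε TT) p.1 =
        #(P.sigma fun p => ({B : Fs N | R p.1 B ∧ QRL ε TT p.1 B} : Finset (Fs N))) := by
      rw [card_sigma]
      rfl
    rw [e]
    refine le_trans ?_ (card_biUnion_le (s := TT) (t := fun T =>
      ({q : Fs N × Fs N × Fs N | R q.1 q.2.1 ∧ R q.1 q.2.2 ∧
        ¬ TypCherry η T q.1 q.2.1 q.2.2} : Finset _)))
    refine card_le_card_of_injOn (fun x => (x.1.1, x.2, x.1.2)) ?_ ?_
    · rintro ⟨p, B⟩ hx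
      rw [mem_coe, mem_sigma] at hx
      obtain ⟨hx1, hx2⟩ := hx
      rw [mem_filter] at hx1 hx2
      obtain ⟨_, k1, k2, k3⟩ := hx1
      obtain ⟨_, k4, k5⟩ := hx2
      unfold QRL at k3
      push Not at k3
      obtain ⟨T, hT, k6⟩ := k3
      rw [mem_coe, mem_biUnion]
      refine ⟨T, hT, ?_⟩
      rw [mem_filter]
      refine ⟨mem_univ _, k4, k1, fun ht => k6 ?_⟩
      exact qr_cherry ht.1 ht.2.1 ht.2.2 (k5 T hT) hε.le hη.le
    · rintro ⟨⟨a, c⟩, b⟩ _ ⟨⟨a', c'⟩, b'⟩ _ h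
      simp only [Prod.mk.injEq] at h
      obtain ⟨rfl, rfl, rfl⟩ := h
      rfl
  have h2 : (#P : ℝ) * (γ * #F) ≤ (∑ p ∈ P, qdeg R (QRL ε TT) p.1 : ℕ) := by
    push_cast
    rw [← nsmul_eq_mul]
    apply card_nsmul_le_sum
    intro p hp
    rw [hP, mem_filter] at hp
    exact hp.2.2.1
  have h3 : (#P : ℝ) * (γ * #F) ≤ ∑ T ∈ TT, (#{q : Fs N × Fs N × Fs N | R q.1 q.2.1 ∧
      R q.1 q.2.2 ∧ ¬ TypCherry η T q.1 q.2.1 q.2.2} : ℝ) :=
    h2.trans (by exact_mod_cast h1)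
  have h4 : (#P : ℝ) * (γ * #F) ≤ #TT * (3 * (#F * (2 * β))) := by
    refine h3.trans ?_
    rw [← nsmul_eq_mul, ← sum_const]
    exact sum_le_sum fun T _ => cherry_count hRF hdet hβ T
  have h5 : (#TT : ℝ) * (6 * β / γ) * (γ * #F) = #TT * (3 * (#F * (2 * β))) := by
    field_simp
    ring
  rw [← h5] at h4
  exact le_of_mul_le_mul_right h4 (by positivity)

end Pool.Agent.Helper77.TP
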