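import Pool.Agent.Lead.UB.Defs

/-! MP_f69198_co: exponential tail for the number of sets not halving a given set. -/

namespace Pool.Agent.Helper77.TP

open Finset Pool.Agent.Lead.UB

abbrev Fs (N : ℕ) := Finset (Fin N)

/-- The exponential moment of `|Sᶜ ∩ T| - |T| / 2`. -/
lemma mgf {N : ℕ} (T : Fs N) (l : ℝ) :
    ∑ S : Fs N, Real.exp (l * ((#(Sᶜ ∩ T) : ℝ) - #T / 2)) ≤
      2 ^ N * Real.exp (l ^ 2 * N / 8) := by
  classical
  set f : Fin N → ℝ := fun v => if v ∈ T then Real.exp (-(l / 2)) else 1 with hf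
  set g : Fin N → ℝ := fun v => if v ∈ T then Real.exp (l / 2) else 1 with hg
  have h1 : ∀ S : Fs N, Real.exp (l * ((#(Sᶜ ∩ T) : ℝ) - #T / 2)) =
      (∏ v ∈ S, f v) * ∏ v ∈ univ \ S, g v := by
    intro S
    have e1 : ∏ v ∈ S, f v = Real.exp (-(l / 2)) ^ #(S ∩ T) := by
      simp only [hf]
      rw [Finset.prod_ite, Finset.prod_const, Finset.prod_const_one, mul_one]
      congr 2
    have e2 : ∏ v ∈ univ \ S, g v = Real.exp (l / 2) ^ #(Sᶜ ∩ T) := by
      simp only [hg]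
      rw [Finset.prod_ite, Finset.prod_const, Finset.prod_const_one, mul_one]
      congr 2
    rw [e1, e2, ← Real.exp_nat_mul, ← Real.exp_nat_mul, ← Real.exp_add]
    congr 1
    have e3 : (#(S ∩ T) : ℝ) + #(Sᶜ ∩ T) = #T := by
      have h0 : #(S ∩ T) + #(Sᶜ ∩ T) = #T := by
        rw [← card_union_of_disjoint]
        · congr 1
          ext v
          simp only [mem_union, mem_inter, mem_compl]
          tauto
        · rw [disjoint_left]
          intro v hv hv'
          simp only [mem_inter, mem_compl] at hv hv'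
          exact hv'.1 hv.1
      exact_mod_cast h0
    have e4 : (#T : ℝ) = #(S ∩ T) + #(Sᶜ ∩ T) := e3.symm
    rw [e4]
    ring
  have h2 : ∑ S : Fs N, (∏ v ∈ S, f v) * ∏ v ∈ univ \ S, g v = ∏ v, (f v + g v) := by
    rw [Finset.prod_add, Finset.powerset_univ]
  have h3 : ∀ v ∈ (univ : Fs N), f v + g v ≤ 2 * Real.exp (l ^ 2 / 8) := by
    intro v _
    simp only [hf, hg]
    have h4 : Real.exp (-(l / 2)) + Real.exp (l / 2) ≤ 2 * Real.exp (l ^ 2 / 8) := by
      have h5 := Real.cosh_le_exp_half_sq (l / 2)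
      rw [Real.cosh_eq] at h5
      have e : (l / 2) ^ 2 / 2 = l ^ 2 / 8 := by ring
      rw [e] at h5
      linarith
    have h5 : (1 : ℝ) ≤ Real.exp (l ^ 2 / 8) := Real.one_le_exp (by positivity)
    split_ifs
    · exact h4
    · linarith
  simp only [h1]
  rw [h2]
  refine (Finset.prod_le_prod (fun v _ => ?_) h3).trans (le_of_eq ?_)
  · simp only [hf, hg]
    split_ifs <;> positivity
  · rw [Finset.prod_const, card_univ, Fintype.card_fin, mul_pow, ← Real.exp_nat_mul]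
    congr 2
    ring

open scoped Classical in
/-- Hoeffding bound for halving. -/
theorem hoeff {N : ℕ} (T : Fs N) {η : ℝ} (hη : 0 < η) :
    (#{S : Fs N | ¬ Halves η S T} : ℝ) ≤ 2 * (2 ^ N * Real.exp (-(2 * η ^ 2 * N))) := by
  set P : Finset (Fs N) := {S : Fs N | η * N < (#(Sᶜ ∩ T) : ℝ) - #T / 2} with hP
  set Q : Finset (Fs N) := {S : Fs N | η * N < -((#(Sᶜ ∩ T) : ℝ) - #T / 2)} with hQ
  have hsub : ({S : Fs N | ¬ Halves η S T} : Finset (Fs N)) ⊆ P ∪ Q := by
    intro S hS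
    rw [mem_filter] at hS
    rw [mem_union, hP, hQ, mem_filter, mem_filter]
    have h := hS.2
    unfold Halves at h
    push Not at h
    rcases lt_abs.1 h with h | h
    · exact Or.inl ⟨mem_univ _, h⟩
    · exact Or.inr ⟨mem_univ _, h⟩
  have key : ∀ (Y : Finset (Fs N)) (l : ℝ), (∀ S ∈ Y, 4 * η * (η * N) ≤
      l * ((#(Sᶜ ∩ T) : ℝ) - #T / 2)) → l ^ 2 = 16 * η ^ 2 →
      (#Y : ℝ) ≤ 2 ^ N * Real.exp (-(2 * η ^ 2 * N)) := by
    intro Y l hY hl
    have h1 : (#Y : ℝ) * Real.exp (4 * η * (η * N)) ≤ 2 ^ N * Real.exp (l ^ 2 * N / 8) := by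
      calc (#Y : ℝ) * Real.exp (4 * η * (η * N)) = ∑ S ∈ Y, Real.exp (4 * η * (η * N)) := by
            rw [sum_const, nsmul_eq_mul]
        _ ≤ ∑ S ∈ Y, Real.exp (l * ((#(Sᶜ ∩ T) : ℝ) - #T / 2)) :=
            sum_le_sum fun S hS => Real.exp_le_exp.2 (hY S hS)
        _ ≤ ∑ S : Fs N, Real.exp (l * ((#(Sᶜ ∩ T) : ℝ) - #T / 2)) :=
            sum_le_sum_of_subset_of_nonneg (subset_univ _) fun _ _ _ => (Real.exp_pos _).le
        _ ≤ _ := mgf T l
    rw [hl] at h1
    have h2 : Real.exp (16 * η ^ 2 * N / 8) =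
        Real.exp (-(2 * η ^ 2 * N)) * Real.exp (4 * η * (η * N)) := by
      rw [← Real.exp_add]
      congr 1
      ring
    rw [h2, ← mul_assoc ((2 : ℝ) ^ N)] at h1
    exact le_of_mul_le_mul_right h1 (Real.exp_pos _)
  have b1 : (#P : ℝ) ≤ 2 ^ N * Real.exp (-(2 * η ^ 2 * N)) := by
    refine key P (4 * η) ?_ (by ring)
    intro S hS
    rw [hP, mem_filter] at hS
    exact mul_le_mul_of_nonneg_left hS.2.le (by positivity)
  have b2 : (#Q : ℝ) ≤ 2 ^ N * Real.exp (-(2 * η ^ 2 * N)) := by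
    refine key Q (-(4 * η)) ?_ (by ring)
    intro S hS
    rw [hQ, mem_filter] at hS
    have := mul_le_mul_of_nonneg_left hS.2.le (show 0 ≤ 4 * η by positivity)
    linarith
  have h1 := (card_le_card hsub).trans (card_union_le P Q)
  have h2 : (#{S : Fs N | ¬ Halves η S T} : ℝ) ≤ #P + #Q := by exact_mod_cast h1
  linarith

end Pool.Agent.Helper77.TP
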