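import Pool.Agent.Helper77.TP.TwoVar
import Pool.Agent.Helper77.TP.Hoeff

/-! MP_f69198_co: entropy of unions. -/

namespace Pool.Agent.Helper77.TP

open Finset Real Pool.Agent.Lead.UB

/-- `(s + t) h(s / (s + t))` -/
noncomputable def phi (s t : ℝ) : ℝ := negMulLog s + negMulLog t - negMulLog (s + t)

lemma phi_zero_left (t : ℝ) : phi 0 t = 0 := by simp [phi]

lemma phi_zero_right (s : ℝ) : phi s 0 = 0 := by simp [phi]

lemma phi_eq {s t : ℝ} (hs : 0 ≤ s) (ht : 0 ≤ t) (h : 0 < s + t) :
    phi s t = (s + t) * binEntropy (s / (s + t)) := by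
  rcases hs.eq_or_lt with h0 | hs
  · rw [← h0, phi_zero_left]; simp
  rcases ht.eq_or_lt with h0 | ht
  · rw [← h0, phi_zero_right, add_zero, div_self hs.ne']; simp
  have e1 : 1 - s / (s + t) = t / (s + t) := by
    field_simp
    ring
  unfold phi negMulLog binEntropy
  rw [e1, inv_div, inv_div, log_div h.ne' hs.ne', log_div h.ne' ht.ne']
  field_simp
  ring

lemma phi_nonneg {s t : ℝ} (hs : 0 ≤ s) (ht : 0 ≤ t) : 0 ≤ phi s t := by
  rcases (add_nonneg hs ht).eq_or_lt with h | h
  · have h1 : s = 0 := by linarith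
    rw [h1, phi_zero_left]
  · rw [phi_eq hs ht h]
    apply mul_nonneg h.le
    apply binEntropy_nonneg (by positivity)
    rw [div_le_one h]
    linarith

lemma phi_le {s t : ℝ} (hs : 0 ≤ s) (ht : 0 ≤ t) : phi s t ≤ (s + t) * log 2 := by
  rcases (add_nonneg hs ht).eq_or_lt with h | h
  · have h1 : s = 0 := by linarith
    rw [h1, phi_zero_left]
    rw [h1] at h
    rw [← h]
    simp
  · rw [phi_eq hs ht h]
    exact mul_le_mul_of_nonneg_left binEntropy_le_log_two h.le

lemma phi_add {s t s' t' : ℝ} (hs : 0 ≤ s) (ht : 0 ≤ t) (hs' : 0 ≤ s') (ht' : 0 ≤ t') :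
    phi s t + phi s' t' ≤ phi (s + s') (t + t') := by
  rcases (add_nonneg hs ht).eq_or_lt with h | h
  · have h1 : s = 0 := by linarith
    have h2 : t = 0 := by linarith
    rw [h1, h2, phi_zero_left, zero_add, zero_add, zero_add]
  rcases (add_nonneg hs' ht').eq_or_lt with h' | h'
  · have h1 : s' = 0 := by linarith
    have h2 : t' = 0 := by linarith
    rw [h1, h2, phi_zero_left, add_zero, add_zero, add_zero]
  rw [phi_eq hs ht h, phi_eq hs' ht' h', phi_eq (by linarith) (by linarith) (by linarith)]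
  have hc := strictConcave_binEntropy.concaveOn.2
    (show s / (s + t) ∈ Set.Icc (0 : ℝ) 1 from ⟨by positivity, by rw [div_le_one h]; linarith⟩)
    (show s' / (s' + t') ∈ Set.Icc (0 : ℝ) 1 from
      ⟨by positivity, by rw [div_le_one h']; linarith⟩)
    (show 0 ≤ (s + t) / (s + t + (s' + t')) by positivity)
    (show 0 ≤ (s' + t') / (s + t + (s' + t')) by positivity) (by field_simp)
  simp only [smul_eq_mul] at hc
  have hpos : 0 < s + t + (s' + t') := by linarith
  have e1 : (s + t) / (s + t + (s' + t')) * (s / (s + t)) +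
      (s' + t') / (s + t + (s' + t')) * (s' / (s' + t')) = (s + s') / (s + s' + (t + t')) := by
    have h1 : s + s' + (t + t') = s + t + (s' + t') := by ring
    rw [h1]
    field_simp
  rw [e1] at hc
  have h2 := mul_le_mul_of_nonneg_left hc hpos.le
  have e2 : (s + t + (s' + t')) * ((s + t) / (s + t + (s' + t')) * binEntropy (s / (s + t)) +
      (s' + t') / (s + t + (s' + t')) * binEntropy (s' / (s' + t'))) =
      (s + t) * binEntropy (s / (s + t)) + (s' + t') * binEntropy (s' / (s' + t')) := by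
    field_simp
  rw [e2] at h2
  have e3 : s + s' + (t + t') = s + t + (s' + t') := by ring
  rw [e3] at h2 ⊢
  exact h2

lemma phi_sum {κ : Type*} (Q : Finset κ) (s t : κ → ℝ) (hs : ∀ q ∈ Q, 0 ≤ s q)
    (ht : ∀ q ∈ Q, 0 ≤ t q) : ∑ q ∈ Q, phi (s q) (t q) ≤ phi (∑ q ∈ Q, s q) (∑ q ∈ Q, t q) := by
  classical
  induction Q using Finset.induction_on with
  | empty => simp [phi]
  | insert a Q ha ih =>
    rw [sum_insert ha, sum_insert ha, sum_insert ha]
    have h1 := ih (fun q hq => hs q (mem_insert_of_mem hq)) (fun q hq => ht q (mem_insert_of_mem hq))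
    have h2 := phi_add (hs a (mem_insert_self _ _)) (ht a (mem_insert_self _ _))
      (sum_nonneg fun q hq => hs q (mem_insert_of_mem hq))
      (sum_nonneg fun q hq => ht q (mem_insert_of_mem hq))
    linarith

lemma phi_mul {a0 a1 b0 b1 : ℝ} (ha0 : 0 ≤ a0) (ha1 : 0 ≤ a1) (hb0 : 0 ≤ b0) (hb1 : 0 ≤ b1) :
    29 / 40 * (a0 * phi b0 b1 + b0 * phi a0 a1) ≤
      phi (a0 * b0) (a0 * b1 + a1 * b0 + a1 * b1) := by
  rcases (add_nonneg ha0 ha1).eq_or_lt with h | h
  · have h1 : a0 = 0 := by linarith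
    rw [h1, phi_zero_left, zero_mul, zero_mul, phi_zero_left]
    simp
  rcases (add_nonneg hb0 hb1).eq_or_lt with h' | h'
  · have h1 : b0 = 0 := by linarith
    rw [h1, phi_zero_left, mul_zero, mul_zero, phi_zero_left]
    simp
  have hab : a0 * b0 + (a0 * b1 + a1 * b0 + a1 * b1) = (a0 + a1) * (b0 + b1) := by ring
  rw [phi_eq (s := a0 * b0) (t := a0 * b1 + a1 * b0 + a1 * b1) (by positivity) (by positivity)
    (by rw [hab]; positivity), hab, phi_eq ha0 ha1 h, phi_eq hb0 hb1 h']
  have h2 := two_var (x := a0 / (a0 + a1)) (y := b0 / (b0 + b1)) (by positivity)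
    (by rw [div_le_one h]; linarith) (by positivity) (by rw [div_le_one h']; linarith)
  have h3 := mul_le_mul_of_nonneg_left h2 (show 0 ≤ (a0 + a1) * (b0 + b1) by positivity)
  rw [div_mul_div_comm] at h3
  refine le_trans (le_of_eq ?_) h3
  field_simp

section

variable {N : ℕ} {ι : Type*} (Ω : Finset ι) (X : ι → Fs N)

/-- number of indices with trace `D` on `I` -/
def cnt (I D : Fs N) : ℕ := #{ω ∈ Ω | X ω ∩ I = D}

/-- those whose set does not contain `i` -/
def cz (I : Fs N) (i : Fin N) (D : Fs N) : ℕ := #{ω ∈ Ω | X ω ∩ I = D ∧ i ∉ X ω}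

/-- those whose set contains `i` -/
def co (I : Fs N) (i : Fin N) (D : Fs N) : ℕ := #{ω ∈ Ω | X ω ∩ I = D ∧ i ∈ X ω}

/-- unnormalized entropy of the trace on `I` -/
noncomputable def ent (I : Fs N) : ℝ := ∑ D ∈ I.powerset, negMulLog (cnt Ω X I D)

lemma cnt_eq (I : Fs N) (i : Fin N) (D : Fs N) :
    cnt Ω X I D = cz Ω X I i D + co Ω X I i D := by
  classical
  unfold cnt cz co
  rw [← filter_filter, ← filter_filter, add_comm]
  exact (card_filter_add_card_filter_not _).symm

lemma ent_insert {I : Fs N} {i : Fin N} (hi : i ∉ I) :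
    ent Ω X (insert i I) = ent Ω X I +
      ∑ D ∈ I.powerset, phi (cz Ω X I i D) (co Ω X I i D) := by
  classical
  unfold ent
  rw [sum_powerset_insert hi, ← sum_add_distrib, ← sum_add_distrib]
  refine sum_congr rfl fun D hD => ?_
  rw [mem_powerset] at hD
  have hiD : i ∉ D := fun h => hi (hD h)
  have e1 : cnt Ω X (insert i I) D = cz Ω X I i D := by
    unfold cnt cz
    congr 1
    ext ω
    simp only [mem_filter, and_congr_right_iff]
    intro _
    constructor
    · intro h
      have h1 : i ∉ X ω := by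
        intro h2
        apply hiD
        rw [← h]
        exact mem_inter.2 ⟨h2, mem_insert_self _ _⟩
      refine ⟨?_, h1⟩
      rw [← h, inter_insert_of_notMem h1]
    · rintro ⟨h, h1⟩
      rw [inter_insert_of_notMem h1, h]
  have e2 : cnt Ω X (insert i I) (insert i D) = co Ω X I i D := by
    unfold cnt co
    congr 1
    ext ω
    simp only [mem_filter, and_congr_right_iff]
    intro _
    constructor
    · intro h
      have h1 : i ∈ X ω := by
        have : i ∈ X ω ∩ insert i I := by rw [h]; exact mem_insert_self _ _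
        exact (mem_inter.1 this).1
      refine ⟨?_, h1⟩
      rw [inter_insert_of_mem h1] at h
      have h2 : i ∉ X ω ∩ I := fun h3 => hi (mem_inter.1 h3).2
      rw [← erase_insert h2, h, erase_insert hiD]
    · rintro ⟨h, h1⟩
      rw [inter_insert_of_mem h1, h]
  rw [e1, e2, cnt_eq Ω X I i D]
  unfold phi
  push_cast
  ring

lemma ent_empty : ent Ω X ∅ = negMulLog #Ω := by
  unfold ent cnt
  simp

lemma sum_cz (I : Fs N) (i : Fin N) :
    ∑ D ∈ I.powerset, cz Ω X I i D = #{ω ∈ Ω | i ∉ X ω} := by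
  classical
  have h := card_eq_sum_card_fiberwise (f := fun ω => X ω ∩ I) (s := {ω ∈ Ω | i ∉ X ω})
    (t := I.powerset) (fun ω _ => by simp)
  rw [h]
  refine sum_congr rfl fun D _ => ?_
  unfold cz
  congr 1
  ext ω
  simp only [mem_filter]
  tauto

lemma sum_cnt (I : Fs N) : ∑ D ∈ I.powerset, cnt Ω X I D = #Ω := by
  classical
  have h := card_eq_sum_card_fiberwise (f := fun ω => X ω ∩ I) (s := Ω)
    (t := I.powerset) (fun ω _ => by simp)
  rw [h]
  rfl

end

section

variable {N : ℕ} (P : Finset (Fs N))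

lemma pair_count (I : Fs N) (R : Fs N → Prop) [DecidablePred R]
    (hR : ∀ A B, R (A ∪ B) ↔ R A ∧ R B) (E : Fs N) :
    #{p ∈ P ×ˢ P | (p.1 ∪ p.2) ∩ I = E ∧ R (p.1 ∪ p.2)} =
      ∑ q ∈ (I.powerset ×ˢ I.powerset).filter (fun q => q.1 ∪ q.2 = E),
        #{A ∈ P | A ∩ I = q.1 ∧ R A} * #{A ∈ P | A ∩ I = q.2 ∧ R A} := by
  classical
  have h := card_eq_sum_card_fiberwise (f := fun p : Fs N × Fs N => (p.1 ∩ I, p.2 ∩ I))
    (s := {p ∈ P ×ˢ P | (p.1 ∪ p.2) ∩ I = E ∧ R (p.1 ∪ p.2)})
    (t := (I.powerset ×ˢ I.powerset).filter (fun q => q.1 ∪ q.2 = E)) (by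
      intro p hp
      rw [mem_coe, mem_filter] at hp
      rw [mem_coe, mem_filter, mem_product, mem_powerset, mem_powerset]
      refine ⟨⟨inter_subset_right, inter_subset_right⟩, ?_⟩
      rw [← hp.2.1, union_inter_distrib_right])
  rw [h]
  refine sum_congr rfl fun q hq => ?_
  rw [mem_filter] at hq
  rw [← card_product]
  congr 1
  ext p
  simp only [mem_filter, mem_product, hR, Prod.ext_iff]
  constructor
  · rintro ⟨⟨⟨h1, h2⟩, h3, h4, h5⟩, h6, h7⟩
    exact ⟨⟨h1, h6, h4⟩, h2, h7, h5⟩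
  · rintro ⟨⟨h1, h6, h4⟩, h2, h7, h5⟩
    refine ⟨⟨⟨h1, h2⟩, ?_, h4, h5⟩, h6, h7⟩
    rw [union_inter_distrib_right, h6, h7]
    exact hq.2

/-- the pairs -/
abbrev un (p : Fs N × Fs N) : Fs N := p.1 ∪ p.2

/-- The increment of the entropy of the union. -/
lemma step {I : Fs N} {i : Fin N} :
    29 / 20 * (#{A ∈ P | i ∉ A} : ℝ) * ∑ D ∈ I.powerset, phi (cz P id I i D) (co P id I i D) ≤
      ∑ D ∈ I.powerset, phi (cz (P ×ˢ P) un I i D) (co (P ×ˢ P) un I i D) := by
  classical
  have hz : ∀ E, (cz (P ×ˢ P) un I i E : ℝ) =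
      ∑ q ∈ (I.powerset ×ˢ I.powerset).filter (fun q => q.1 ∪ q.2 = E),
        (cz P id I i q.1 : ℝ) * cz P id I i q.2 := by
    intro E
    have := pair_count P I (fun A => i ∉ A) (fun A B => by simp [not_or]) E
    unfold cz un
    simp only [id]
    exact_mod_cast this
  have hc : ∀ E, (cnt (P ×ˢ P) un I E : ℝ) =
      ∑ q ∈ (I.powerset ×ˢ I.powerset).filter (fun q => q.1 ∪ q.2 = E),
        (cnt P id I q.1 : ℝ) * cnt P id I q.2 := by
    intro E
    have := pair_count P I (fun _ => True) (fun A B => by simp) E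
    simp only [and_true] at this
    unfold cnt un
    simp only [id]
    exact_mod_cast this
  have ho : ∀ E, (co (P ×ˢ P) un I i E : ℝ) =
      ∑ q ∈ (I.powerset ×ˢ I.powerset).filter (fun q => q.1 ∪ q.2 = E),
        ((cz P id I i q.1 : ℝ) * co P id I i q.2 + co P id I i q.1 * cz P id I i q.2 +
          co P id I i q.1 * co P id I i q.2) := by
    intro E
    have h1 : (co (P ×ˢ P) un I i E : ℝ) = cnt (P ×ˢ P) un I E - cz (P ×ˢ P) un I i E := by
      rw [cnt_eq (P ×ˢ P) un I i E]
      push_cast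
      ring
    rw [h1, hc, hz, ← sum_sub_distrib]
    refine sum_congr rfl fun q _ => ?_
    rw [cnt_eq P id I i q.1, cnt_eq P id I i q.2]
    push_cast
    ring
  have h1 : ∀ E, ∑ q ∈ (I.powerset ×ˢ I.powerset).filter (fun q => q.1 ∪ q.2 = E),
      29 / 40 * ((cz P id I i q.1 : ℝ) * phi (cz P id I i q.2) (co P id I i q.2) +
        cz P id I i q.2 * phi (cz P id I i q.1) (co P id I i q.1)) ≤
      phi (cz (P ×ˢ P) un I i E) (co (P ×ˢ P) un I i E) := by
    intro E
    rw [hz, ho]
    refine le_trans ?_ (phi_sum _ _ _ (fun q _ => by positivity) (fun q _ => by positivity))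
    apply sum_le_sum
    intro q _
    exact phi_mul (Nat.cast_nonneg _) (Nat.cast_nonneg _) (Nat.cast_nonneg _) (Nat.cast_nonneg _)
  refine le_trans ?_ (sum_le_sum fun E _ => h1 E)
  have h2 := sum_fiberwise_of_maps_to (s := I.powerset ×ˢ I.powerset) (t := I.powerset)
    (g := fun q : Fs N × Fs N => q.1 ∪ q.2) (by
      intro q hq
      rw [mem_product, mem_powerset, mem_powerset] at hq
      rw [mem_powerset]
      exact union_subset hq.1 hq.2)
    (fun q => 29 / 40 * ((cz P id I i q.1 : ℝ) * phi (cz P id I i q.2) (co P id I i q.2) +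
        cz P id I i q.2 * phi (cz P id I i q.1) (co P id I i q.1)))
  rw [h2, ← mul_sum, sum_add_distrib, sum_product, sum_product]
  have h3 : (∑ D ∈ I.powerset, (cz P id I i D : ℝ)) = #{A ∈ P | i ∉ A} := by
    have := sum_cz P id I i
    exact_mod_cast this
  have h4 : ∑ x ∈ I.powerset, ∑ y ∈ I.powerset,
      (cz P id I i x : ℝ) * phi (cz P id I i y) (co P id I i y) =
      #{A ∈ P | i ∉ A} * ∑ D ∈ I.powerset, phi (cz P id I i D) (co P id I i D) := by
    rw [← h3, sum_mul_sum]
  have h5 : ∑ x ∈ I.powerset, ∑ y ∈ I.powerset,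
      (cz P id I i y : ℝ) * phi (cz P id I i x) (co P id I i x) =
      #{A ∈ P | i ∉ A} * ∑ D ∈ I.powerset, phi (cz P id I i D) (co P id I i D) := by
    rw [sum_comm, ← h4]
  simp only at h4 h5 ⊢
  rw [h4, h5]
  apply le_of_eq
  ring

/-- Induction on the coordinates. -/
lemma ent_induct (Bad : Finset (Fin N)) (c : ℝ) (hc : 0 ≤ c)
    (hB : ∀ i ∉ Bad, c * #P ≤ (#{A ∈ P | i ∉ A} : ℝ)) (I : Fs N) :
    29 / 20 * (c * #P) * (ent P id I - negMulLog #P - #(I ∩ Bad) * (#P * log 2)) ≤
      ent (P ×ˢ P) un I - negMulLog (#P * #P) := by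
  classical
  induction I using Finset.induction_on with
  | empty =>
    rw [ent_empty, ent_empty, card_product]
    simp
  | insert i I hi ih =>
    rw [ent_insert _ _ hi, ent_insert _ _ hi]
    have h1 := step P (I := I) (i := i)
    obtain ⟨Δ, hΔ⟩ : ∃ Δ : ℝ, Δ = ∑ D ∈ I.powerset, phi (cz P id I i D) (co P id I i D) := ⟨_, rfl⟩
    obtain ⟨Δ', hΔ'⟩ : ∃ Δ' : ℝ, Δ' =
      ∑ D ∈ I.powerset, phi (cz (P ×ˢ P) un I i D) (co (P ×ˢ P) un I i D) := ⟨_, rfl⟩
    rw [← hΔ, ← hΔ'] at h1 ⊢
    have hΔ0 : 0 ≤ Δ := by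
      rw [hΔ]
      exact sum_nonneg fun D _ => phi_nonneg (Nat.cast_nonneg _) (Nat.cast_nonneg _)
    have hΔ'0 : 0 ≤ Δ' := by
      rw [hΔ']
      exact sum_nonneg fun D _ => phi_nonneg (Nat.cast_nonneg _) (Nat.cast_nonneg _)
    have hΔ1 : Δ ≤ #P * log 2 := by
      rw [hΔ]
      calc ∑ D ∈ I.powerset, phi (cz P id I i D) (co P id I i D)
          ≤ ∑ D ∈ I.powerset, ((cz P id I i D : ℝ) + co P id I i D) * log 2 :=
            sum_le_sum fun D _ => phi_le (Nat.cast_nonneg _) (Nat.cast_nonneg _)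
        _ = #P * log 2 := by
            rw [← sum_mul]
            congr 1
            have h2 := sum_cnt P id I
            simp only [cnt_eq P id I i] at h2
            exact_mod_cast h2
    have hcP : 0 ≤ 29 / 20 * (c * (#P : ℝ)) := by positivity
    by_cases hiB : i ∈ Bad
    · rw [insert_inter_of_mem hiB, card_insert_of_notMem (fun h => hi (mem_inter.1 h).1)]
      push_cast
      have h3 : 29 / 20 * (c * (#P : ℝ)) * (Δ - #P * log 2) ≤ 0 :=
        mul_nonpos_of_nonneg_of_nonpos hcP (by linarith)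
      linarith
    · rw [insert_inter_of_notMem hiB]
      have h3 : 29 / 20 * (c * (#P : ℝ)) * Δ ≤ 29 / 20 * (#{A ∈ P | i ∉ A} : ℝ) * Δ := by
        have := hB i hiB
        gcongr
      linarith

/-- The entropy of unions: if every point outside `Bad` is missed by at least `c |P|` members of
`P`, then a family containing all unions is large. -/
theorem union_entropy {V : Finset (Fs N)} (hP : P.Nonempty) (hV : ∀ A ∈ P, ∀ B ∈ P, A ∪ B ∈ V)
    (Bad : Finset (Fin N)) (c : ℝ) (hc : 0 ≤ c)
    (hB : ∀ i ∉ Bad, c * #P ≤ (#{A ∈ P | i ∉ A} : ℝ)) :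
    29 / 20 * c * (log #P - #Bad * log 2) ≤ log #V := by
  classical
  have h := ent_induct P Bad c hc hB univ
  have hm : (0 : ℝ) < #P := by exact_mod_cast card_pos.2 hP
  obtain ⟨m, hmd⟩ : ∃ m : ℝ, m = #P := ⟨_, rfl⟩
  have hm' : 0 < m := by rw [hmd]; exact hm
  have hVne : V.Nonempty := by
    obtain ⟨A, hA⟩ := hP
    exact ⟨_, hV A hA A hA⟩
  have hv : (0 : ℝ) < #V := by exact_mod_cast card_pos.2 hVne
  have e1 : ent P id univ = 0 := by
    unfold ent
    apply sum_eq_zero
    intro D _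
    have h1 : cnt P id univ D = if D ∈ P then 1 else 0 := by
      unfold cnt
      simp only [id, inter_univ]
      rw [filter_eq' P D]
      split_ifs <;> simp
    rw [h1]
    split_ifs <;> simp
  have e2 : ent (P ×ˢ P) un univ ≤ negMulLog (m * m) + m * m * log #V := by
    have h1 : ent (P ×ˢ P) un univ = ∑ S ∈ V, negMulLog (cnt (P ×ˢ P) un univ S) := by
      unfold ent
      symm
      apply sum_subset
      · intro S _
        simp
      · intro S _ hS
        have h2 : cnt (P ×ˢ P) un univ S = 0 := by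
          unfold cnt
          rw [card_eq_zero, filter_eq_empty_iff]
          intro p hp hpS
          rw [mem_product] at hp
          apply hS
          rw [← hpS, inter_univ]
          exact hV _ hp.1 _ hp.2
        rw [h2]
        simp
    have h2 : ∑ S ∈ V, (cnt (P ×ˢ P) un univ S : ℝ) = m * m := by
      have h3 := sum_cnt (P ×ˢ P) un univ
      have h4 : ∑ S ∈ V, cnt (P ×ˢ P) un univ S = ∑ S ∈ (univ : Fs N).powerset,
          cnt (P ×ˢ P) un univ S := by
        apply sum_subset
        · intro S _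
          simp
        · intro S _ hS
          unfold cnt
          rw [card_eq_zero, filter_eq_empty_iff]
          intro p hp hpS
          rw [mem_product] at hp
          apply hS
          rw [← hpS, inter_univ]
          exact hV _ hp.1 _ hp.2
      rw [h3, card_product] at h4
      rw [hmd]
      exact_mod_cast h4
    have h3 := concaveOn_negMulLog.le_map_sum (t := V) (w := fun _ => (1 : ℝ) / #V)
      (p := fun S => (cnt (P ×ˢ P) un univ S : ℝ)) (fun _ _ => by positivity)
      (by rw [sum_const, nsmul_eq_mul]; field_simp) (fun S _ => by simp)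
    simp only [smul_eq_mul] at h3
    rw [← mul_sum, ← mul_sum, h2] at h3
    have h4 := mul_le_mul_of_nonneg_left h3 hv.le
    rw [← mul_assoc, mul_one_div_cancel hv.ne', one_mul] at h4
    rw [h1]
    refine h4.trans (le_of_eq ?_)
    unfold negMulLog
    rw [log_mul (by positivity) (by positivity), one_div, log_inv]
    field_simp
    ring
  rw [e1, ← hmd, univ_inter] at h
  have e3 : negMulLog m = -(m * log m) := by unfold negMulLog; ring
  rw [e3] at h
  have h5 : 29 / 20 * (c * m) * (m * log m - #Bad * (m * log 2)) ≤ m * m * log #V := by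
    have : 0 - -(m * log m) - (#Bad : ℝ) * (m * log 2) = m * log m - #Bad * (m * log 2) := by ring
    rw [this] at h
    linarith
  have h6 : (29 / 20 * c * (log m - #Bad * log 2)) * (m * m) ≤ log #V * (m * m) := by
    linarith
  rw [← hmd]
  exact le_of_mul_le_mul_right h6 (by positivity)

end

end Pool.Agent.Helper77.TP
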