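import Pool.Agent.Helper77.TP.BadLoc
import Pool.Agent.Helper43.UB.Book

/-! MP_f69198_co: books which are typical on a test set `T` have members of density
`1 - 1/√2` on `T`. -/

namespace Pool.Agent.Helper77.TP

open Finset Pool.Agent.Lead.UB

variable {N t : ℕ}

/-- The trace of `S` on `T`, as a subset of `Fin #T`. -/
noncomputable def res (T S : Fs N) : Finset (Fin #T) :=
  univ.filter fun j => ((T.equivFin.symm j : T) : Fin N) ∈ S

lemma mem_res {T S : Fs N} {j : Fin #T} :
    j ∈ res T S ↔ ((T.equivFin.symm j : T) : Fin N) ∈ S := by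
  simp [res]

lemma card_res (T S : Fs N) : #(res T S) = #(S ∩ T) := by
  have h : S ∩ T = (res T S).image (fun j => ((T.equivFin.symm j : T) : Fin N)) := by
    ext v
    rw [mem_inter, mem_image]
    constructor
    · rintro ⟨h1, h2⟩
      refine ⟨T.equivFin ⟨v, h2⟩, ?_, ?_⟩
      · rw [mem_res, Equiv.symm_apply_apply]
        exact h1
      · rw [Equiv.symm_apply_apply]
    · rintro ⟨j, hj, rfl⟩
      exact ⟨mem_res.1 hj, (T.equivFin.symm j).2⟩
  rw [h, card_image_of_injective]
  intro j j' hjj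
  exact T.equivFin.symm.injective (Subtype.ext hjj)

lemma res_compl (T S : Fs N) : (res T S)ᶜ = res T Sᶜ := by
  ext j
  simp [mem_res]

lemma res_inter (T S S' : Fs N) : res T S ∩ res T S' = res T (S ∩ S') := by
  ext j
  simp [mem_res]

lemma res_union (T S S' : Fs N) : res T S ∪ res T S' = res T (S ∪ S') := by
  ext j
  simp [mem_res]

lemma cap_res (T : Fs N) (A : Fin t → Fs N) (J : Finset (Fin t)) :
    cap (fun i => res T (A i)) J = res T (cap A J) := by
  ext j
  simp [mem_res, cap]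

lemma halves_res {T S T' : Fs N} {η ε : ℝ} (hη : 0 ≤ η) (hT : ε * N ≤ #T)
    (h : Halves (η * ε) S (T' ∩ T)) : Halves η (res T S) (res T T') := by
  unfold Halves at h ⊢
  rw [res_compl, res_inter, card_res, card_res, inter_assoc]
  refine h.trans ?_
  rw [mul_assoc]
  exact mul_le_mul_of_nonneg_left hT hη

/-- A book typical on `T` gives a typical book on the ground set `T`. -/
lemma typical_res {T B C : Fs N} {A : Fin t → Fs N} {η ε : ℝ} (hη : 0 ≤ η) (hT : ε * N ≤ #T)
    (h : TypicalOn T (η * ε) B C A) :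
    TypicalBook η (res T B) (res T C) (fun i => res T (A i)) := by
  obtain ⟨h1, h2, h3, h4⟩ := h
  refine ⟨fun J hJ => ?_, fun i J hJ hi => ?_, fun i J hJ hi => ?_, fun i => ?_⟩
  · rw [res_union, cap_res]
    exact halves_res hη hT (h1 J hJ)
  · rw [res_union, cap_res, res_compl, res_inter]
    exact halves_res hη hT (h2 i J hJ hi)
  · rw [res_union, cap_res]
    exact halves_res hη hT (h3 i J hJ hi)
  · rw [res_union, res_compl]
    exact halves_res hη hT (h4 i)

/-- `B` has density about `1 - 1/√2` on `T`. -/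
def BalOn (ε : ℝ) (T B : Fs N) : Prop :=
  |(#(B ∩ T) : ℝ) - (1 - 1 / √2) * #T| ≤ ε * N

lemma card_le_N (T : Fs N) : (#T : ℝ) ≤ N := by
  have := card_le_univ T
  rw [Fintype.card_fin] at this
  exact_mod_cast this

lemma p_bounds : (0 : ℝ) ≤ 1 - 1 / √2 ∧ (1 : ℝ) - 1 / √2 ≤ 1 := by
  have h1 : (1 : ℝ) ≤ √2 := by
    rw [show (1 : ℝ) = √1 by simp]
    exact Real.sqrt_le_sqrt (by norm_num)
  constructor
  · have : 1 / √2 ≤ 1 := by
      rw [div_le_one (by positivity)]
      exact h1
    linarith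
  · have : 0 ≤ 1 / √2 := by positivity
    linarith

/-- Small test sets are always balanced. -/
lemma bal_small {ε : ℝ} {T B : Fs N} (hT : ¬ ε * N ≤ #T) : BalOn ε T B := by
  push Not at hT
  unfold BalOn
  have h1 : (#(B ∩ T) : ℝ) ≤ #T := by exact_mod_cast card_le_card inter_subset_right
  have h2 : (0 : ℝ) ≤ #(B ∩ T) := Nat.cast_nonneg _
  have h3 : (0 : ℝ) ≤ #T := Nat.cast_nonneg _
  obtain ⟨p0, p1⟩ := p_bounds
  have h4 : (1 - 1 / √2) * (#T : ℝ) ≤ 1 * #T := mul_le_mul_of_nonneg_right p1 h3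
  have h5 : 0 ≤ (1 - 1 / √2) * (#T : ℝ) := mul_nonneg p0 h3
  rw [abs_le]
  constructor <;> linarith

/-- The local form of the book lemma. -/
theorem book_loc (ε : ℝ) (hε : 0 < ε) : ∃ η : ℝ, 0 < η ∧ ∃ t : ℕ, ∀ (N : ℕ), 0 < N →
    ∀ (T B C : Fs N) (A : Fin t → Fs N), TypicalOn T η B C A → BalOn ε T B := by
  obtain ⟨η, hη, t, hbook⟩ := Pool.Agent.Helper43.UB.stmtBook ε hε
  refine ⟨η * ε, by positivity, t, ?_⟩
  intro N hN T B C A h
  by_cases hT : ε * N ≤ #T
  · have hNr : (0 : ℝ) < N := by exact_mod_cast hN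
    have hT0 : 0 < #T := by
      have : (0 : ℝ) < #T := lt_of_lt_of_le (by positivity) hT
      exact_mod_cast this
    have h1 := hbook #T hT0 _ _ _ (typical_res hη.le hT h)
    have h2 := h1.1
    rw [card_res] at h2
    unfold BalOn
    refine h2.trans ?_
    exact mul_le_mul_of_nonneg_left (card_le_N T) hε.le
  · exact bal_small hT

end Pool.Agent.Helper77.TP
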