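import Mathlib
import Pool.Agent.Helper77.TP.Loc
import Pool.Agent.Helper77.TP.Main

/-! MP_f69198_co: small down-sets and up-sets have few members of density `1 - 1/√2`. -/

namespace Pool.Agent.Helper77.TP

open Finset Pool.Agent.Lead.UB
open scoped FinsetFamily

lemma downset_level {N k : ℕ} {V : Finset (Fs N)} (hV : ∀ A ∈ V, ∀ B, B ⊆ A → B ∈ V) (hk : k ≤ N)
    (hc : (k + 1) * #V < 2 ^ k) {r : ℕ} (hr : k / 2 ≤ r) :
    #(V.filter fun A => #A = r) ≤ k.choose r := by
  classical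
  rcases le_or_gt r k with hrk | hrk
  · by_contra hcon
    push Not at hcon
    have h1 := kruskal_katona_lovasz_form (n := N) (r := r) (k := k) (i := r - k / 2)
      (𝒜 := V.filter fun A => #A = r) (Nat.sub_le _ _) hrk hk (by
        intro A hA
        exact (mem_filter.1 (mem_coe.1 hA)).2) hcon.le
    rw [Nat.sub_sub_self hr] at h1
    have h2 : ∂^[r - k / 2] (V.filter fun A => #A = r) ⊆ V := by
      intro B hB
      rw [mem_shadow_iterate_iff_exists_sdiff] at hB
      obtain ⟨A, hA, hBA, _⟩ := hB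
      exact hV A (mem_filter.1 hA).1 B hBA
    have h3 := h1.trans (card_le_card h2)
    have h4 : 2 ^ k ≤ (k + 1) * k.choose (k / 2) := by
      rw [← Nat.sum_range_choose]
      calc _ ≤ ∑ i ∈ range (k + 1), k.choose (k / 2) :=
            sum_le_sum fun i _ => Nat.choose_le_middle i k
        _ = _ := by simp
    have := Nat.mul_le_mul_left (k + 1) h3
    omega
  · rw [Nat.choose_eq_zero_of_lt hrk, Nat.le_zero, card_eq_zero, filter_eq_empty_iff]
    intro A hA hAr
    have h1 : A.powerset ⊆ V := fun B hB => hV A hA B (mem_powerset.1 hB)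
    have h2 := card_le_card h1
    rw [card_powerset, hAr] at h2
    have h3 : 2 ^ k ≤ 2 ^ r := Nat.pow_le_pow_right (by norm_num) hrk.le
    have h4 : #V ≤ (k + 1) * #V := Nat.le_mul_of_pos_left _ (by omega)
    omega

lemma downset_count {N k : ℕ} {V : Finset (Fs N)} (hV : ∀ A ∈ V, ∀ B, B ⊆ A → B ∈ V) (hk : k ≤ N)
    (hc : (k + 1) * #V < 2 ^ k) {a x : ℝ} (hx : 1 ≤ x) (ha : ((k / 2 : ℕ) : ℝ) ≤ a)
    (P : Finset (Fs N)) (hP : P ⊆ V) (hPa : ∀ A ∈ P, a ≤ (#A : ℝ)) :
    (#P : ℝ) ≤ (x + 1) ^ k / x ^ a := by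
  classical
  have hx0 : 0 < x := by linarith
  have hmaps : ∀ A ∈ P, #A ∈ range (k + 1) := by
    intro A hA
    rw [mem_range]
    by_contra hcon
    push Not at hcon
    have h1 := downset_level hV hk hc (r := #A) (by omega)
    rw [Nat.choose_eq_zero_of_lt (by omega), Nat.le_zero, card_eq_zero,
      filter_eq_empty_iff] at h1
    exact h1 (hP hA) rfl
  have h1 := card_eq_sum_card_fiberwise (f := fun A : Fs N => #A) (s := P) (t := range (k + 1))
    hmaps
  rw [h1, add_pow, sum_div]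
  push_cast
  apply sum_le_sum
  intro r _
  rw [one_pow, mul_one]
  by_cases har : a ≤ r
  · have h2 : #(P.filter fun A => #A = r) ≤ k.choose r := by
      refine (card_le_card ?_).trans (downset_level hV hk hc (r := r) ?_)
      · exact filter_subset_filter _ hP
      · exact_mod_cast ha.trans har
    have h3 : (#(P.filter fun A => #A = r) : ℝ) ≤ k.choose r := by exact_mod_cast h2
    refine h3.trans ?_
    rw [le_div_iff₀ (by positivity)]
    have h4 : x ^ a ≤ x ^ r := by
      rw [← Real.rpow_natCast]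
      exact Real.rpow_le_rpow_of_exponent_le hx har
    calc (k.choose r : ℝ) * x ^ a ≤ k.choose r * x ^ r := by gcongr
      _ = x ^ r * k.choose r := by ring
  · have h2 : (P.filter fun A => #A = r) = ∅ := by
      rw [filter_eq_empty_iff]
      intro A hA hAr
      apply har
      rw [← hAr]
      exact hPa A hA
    rw [h2]
    simp only [card_empty, Nat.cast_zero]
    positivity

lemma num_aux : (101 : ℝ) * Real.log (47 / 20) ≤
    58 * Real.log (27 / 20) + 100 * Real.log 2 - 1 / 3 := by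
  have h1 : Real.log ((47 / 20 : ℝ) ^ 101) ≤
      Real.log ((27 / 20 : ℝ) ^ 58 * 2 ^ 100 * (2 / 3)) := by
    apply Real.log_le_log (by positivity)
    norm_num
  rw [Real.log_mul (by positivity) (by norm_num), Real.log_mul (by positivity) (by positivity),
    Real.log_pow, Real.log_pow, Real.log_pow] at h1
  have h2 : Real.log (2 / 3) ≤ 2 / 3 - 1 := Real.log_le_sub_one_of_pos (by norm_num)
  push_cast at h1
  linarith

/-- Small down-sets have few members of density `1 - 1/√2`. -/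
theorem mono_few {n : ℕ} (hn : 200000 ≤ n) {e : ℝ} (he : e ≤ 1 / 1000)
    (V : Finset (Fs (2 * n))) (hV : ∀ A ∈ V, ∀ B, B ⊆ A → B ∈ V)
    (hVc : (#V : ℝ) ≤ 2 ^ ((1001 / 1000 : ℝ) * n))
    (P : Finset (Fs (2 * n))) (hP : P ⊆ V) (hb : ∀ A ∈ P, BalOn e univ A) :
    (#P : ℝ) ≤ Real.exp (n * Real.log 2 - 1 / 500 * n) := by
  classical
  have hnr : (200000 : ℝ) ≤ n := by exact_mod_cast hn
  have hn0 : (0 : ℝ) < n := by linarith
  obtain ⟨s1, s2, s3⟩ := sqrt2_facts
  have hs : (0 : ℝ) < √2 := by positivity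
  have hinv : 1 / √2 = √2 / 2 := by
    rw [div_eq_div_iff hs.ne' (by norm_num)]; linarith
  have hsl : (7071 / 5000 : ℝ) < √2 := by
    rw [show (7071 / 5000 : ℝ) = √((7071 / 5000) ^ 2) by rw [Real.sqrt_sq (by norm_num)]]
    exact Real.sqrt_lt_sqrt (by norm_num) (by norm_num)
  have hsu : √2 < (7072 / 5000 : ℝ) := by
    rw [show (7072 / 5000 : ℝ) = √((7072 / 5000) ^ 2) by rw [Real.sqrt_sq (by norm_num)]]
    exact Real.sqrt_lt_sqrt (by norm_num) (by norm_num)
  have hsize : ∀ A ∈ P, (29 / 50 : ℝ) * n ≤ #A ∧ (#A : ℝ) ≤ 59 / 100 * n := by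
    intro A hA
    have h1 := hb A hA
    unfold BalOn at h1
    rw [inter_univ, card_univ, Fintype.card_fin, hinv, abs_le] at h1
    push_cast at h1
    have h2 : e * (2 * n) ≤ 1 / 1000 * (2 * n) := mul_le_mul_of_nonneg_right he (by positivity)
    have h3 : (7071 / 5000 : ℝ) * n ≤ √2 * n := mul_le_mul_of_nonneg_right hsl.le hn0.le
    have h4 : √2 * n ≤ (7072 / 5000 : ℝ) * n := mul_le_mul_of_nonneg_right hsu.le hn0.le
    constructor <;> linarith [h1.1, h1.2]
  obtain ⟨k, hkd⟩ : ∃ k : ℕ, k = ⌈(101 / 100 : ℝ) * n⌉₊ := ⟨_, rfl⟩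
  have hk1 : (101 / 100 : ℝ) * n ≤ k := by rw [hkd]; exact Nat.le_ceil _
  have hk2 : (k : ℝ) < 101 / 100 * n + 1 := by
    rw [hkd]; exact Nat.ceil_lt_add_one (by positivity)
  have hkN : k ≤ 2 * n := by
    have : (k : ℝ) ≤ 2 * n := by linarith
    exact_mod_cast this
  have hlog2 : (2 / 3 : ℝ) ≤ Real.log 2 := by
    have := Real.log_two_gt_d9
    linarith
  have hcc : (k + 1) * #V < 2 ^ k := by
    have h1 : ((k : ℝ) + 1) * #V < 2 ^ k := by
      have h2 : (2 : ℝ) ^ ((101 / 100 : ℝ) * n) ≤ 2 ^ k := by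
        rw [← Real.rpow_natCast]
        exact Real.rpow_le_rpow_of_exponent_le (by norm_num) hk1
      have h3 : (2 : ℝ) ^ ((101 / 100 : ℝ) * n) =
          2 ^ ((9 / 1000 : ℝ) * n) * 2 ^ ((1001 / 1000 : ℝ) * n) := by
        rw [← Real.rpow_add (by norm_num)]
        congr 1
        ring
      have h4 : (k : ℝ) + 1 < 2 ^ ((9 / 1000 : ℝ) * n) := by
        rw [Real.rpow_def_of_pos (by norm_num)]
        have h5 : (6 / 1000 : ℝ) * n ≤ Real.log 2 * (9 / 1000 * n) := by
          have : 2 / 3 * (9 / 1000 * n) ≤ Real.log 2 * (9 / 1000 * n) :=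
            mul_le_mul_of_nonneg_right hlog2 (by positivity)
          linarith
        have h6 := Real.quadratic_le_exp_of_nonneg (show (0 : ℝ) ≤ 6 / 1000 * n by positivity)
        have h7 := Real.exp_le_exp.2 h5
        have h8 : (6 / 1000 * (n : ℝ)) ^ 2 / 2 = 18 / 1000000 * (n * n) := by ring
        have h9 : (200000 : ℝ) * n ≤ n * n := mul_le_mul_of_nonneg_right hnr hn0.le
        rw [h8] at h6
        linarith
      have h10 : (0 : ℝ) < 2 ^ ((1001 / 1000 : ℝ) * n) := by positivity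
      calc ((k : ℝ) + 1) * #V ≤ ((k : ℝ) + 1) * 2 ^ ((1001 / 1000 : ℝ) * n) := by gcongr
        _ < 2 ^ ((9 / 1000 : ℝ) * n) * 2 ^ ((1001 / 1000 : ℝ) * n) :=
            mul_lt_mul_of_pos_right h4 h10
        _ = (2 : ℝ) ^ ((101 / 100 : ℝ) * n) := h3.symm
        _ ≤ 2 ^ k := h2
    exact_mod_cast h1
  have hcount := downset_count hV hkN hcc (a := 29 / 50 * n) (x := 27 / 20) (by norm_num) (by
    have h1 : ((k / 2 : ℕ) : ℝ) ≤ (k : ℝ) / 2 := Nat.cast_div_le
    linarith) P hP (fun A hA => (hsize A hA).1)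
  refine hcount.trans ?_
  rw [show (27 / 20 + 1 : ℝ) = 47 / 20 by norm_num, ← Real.rpow_natCast,
    Real.rpow_def_of_pos (by norm_num), Real.rpow_def_of_pos (by norm_num), ← Real.exp_sub]
  apply Real.exp_le_exp.2
  have h1 := num_aux
  have h2 : Real.log (47 / 20) ≤ 47 / 20 - 1 := Real.log_le_sub_one_of_pos (by norm_num)
  have h3 : 0 < Real.log (47 / 20) := Real.log_pos (by norm_num)
  have h4 : Real.log (47 / 20) * k ≤ Real.log (47 / 20) * (101 / 100 * n + 1) :=
    mul_le_mul_of_nonneg_left hk2.le h3.le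
  have h5 : (101 * Real.log (47 / 20)) * n ≤
      (58 * Real.log (27 / 20) + 100 * Real.log 2 - 1 / 3) * n :=
    mul_le_mul_of_nonneg_right h1 hn0.le
  linarith

end Pool.Agent.Helper77.TP
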