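import Pool.Agent.Helper77.TP.Gen
import Pool.Agent.Helper77.TP.Mono
import Pool.Agent.Helper77.TP.Block
import Pool.Agent.Helper77.TP.Adapt
import Pool.Agent.Helper77.TP.Ent

/-! MP_f69198_co: families covered by few structured parts. -/

namespace Pool.Agent.Helper77.TP

open Finset Pool.Agent.Lead.UB

/-- All pairwise Hamming distances are at most `(√2 - 1 - δ) 2n`. -/
def Clustered (δ : ℝ) {n : ℕ} (C : Finset (Finset (Fin (2 * n)))) : Prop :=
  ∀ A ∈ C, ∀ B ∈ C, (#(symmDiff A B) : ℝ) ≤ (√2 - 1 - δ) * (2 * n)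

/-- `C` is contained in a product of families on blocks with at most `b` points. -/
def InBlockProduct (b : ℕ) (μ : ℝ) {n : ℕ} (C : Finset (Finset (Fin (2 * n)))) : Prop :=
  ∃ (β : Fin (2 * n) → Fin (2 * n)) (G : Fin (2 * n) → Finset (Finset (Fin (2 * n)))),
    (∀ j, #(univ.filter fun x => β x = j) ≤ b) ∧
    (∀ j, ∀ D ∈ G j, D ⊆ univ.filter fun x => β x = j) ∧
    (∏ j, (#(G j) : ℝ)) ≤ 2 ^ ((1 + μ) * n) ∧
    ∀ A ∈ C, ∀ j, A ∩ (univ.filter fun x => β x = j) ∈ G j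

/-- No large subfamily is well-balanced. -/
def Biased (κ η : ℝ) {n : ℕ} (C : Finset (Finset (Fin (2 * n)))) : Prop :=
  ∀ P ⊆ C, (2 : ℝ) ^ ((1 - κ) * n) ≤ #P → ¬ WellBalanced η P

/-- The hereditary kinds of parts. -/
def Kind (θ δ : ℝ) (b : ℕ) (κ η μ : ℝ) {n : ℕ} (C : Finset (Finset (Fin (2 * n)))) : Prop :=
  TraceDetermined θ μ C ∨
  (∃ V, C ⊆ V ∧ AffineClosed V ∧ (#V : ℝ) ≤ 2 ^ (θ * n)) ∨
  (∃ V, C ⊆ V ∧ (∀ A ∈ V, ∀ B, B ⊆ A → B ∈ V) ∧ (#V : ℝ) ≤ 2 ^ ((1001 / 1000 : ℝ) * n)) ∨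
  InBlockProduct b μ C ∨ Clustered δ C ∨ (#(unions C) : ℝ) ≤ 2 ^ ((51 / 50 : ℝ) * n) ∨
  Biased κ η C

/-- Subfamilies of biased families which are balanced on the adaptive test sets are small. -/
lemma biased_tests {n : ℕ} (hn : 0 < n) {κ η e : ℝ} (hη : 0 < η)
    (he : e ≤ η) {C : Finset (Fs (2 * n))} (hC : Biased κ η C) :
    ∃ TT : Finset (Fs (2 * n)), (#TT : ℝ) ≤ 3 / η * n ∧
      ∀ P ⊆ C, (∀ A ∈ P, ∀ T ∈ TT, BalOn e T A) → (#P : ℝ) ≤ 2 ^ ((1 - κ) * n) := by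
  obtain ⟨TT, hTT, Q, hQC, hQ, hwb⟩ := adapt hn hη he C
  refine ⟨TT, hTT, fun P hP hbal => ?_⟩
  have h1 : P ⊆ Q := fun A hA => hQ A (hP hA) (hbal A hA)
  have h2 : (#P : ℝ) ≤ #Q := by exact_mod_cast card_le_card h1
  by_contra hcon
  push Not at hcon
  exact hC Q hQC (by linarith) hwb

/-- Families with few unions are biased. -/
lemma doubling_biased {n : ℕ} (hn : 0 < n) {C : Finset (Fs (2 * n))}
    (hC : (#(unions C) : ℝ) ≤ 2 ^ ((51 / 50 : ℝ) * n)) :
    Biased (1 / 2000) ((1 / 2000) ^ 2 / 16) C := by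
  classical
  intro P hPC hP hwb
  have hnr : (0 : ℝ) < n := by exact_mod_cast hn
  have hPc : (0 : ℝ) < #P := lt_of_lt_of_le (by positivity) hP
  have hPne : P.Nonempty := card_pos.1 (by exact_mod_cast hPc)
  have hcon := wb_freq (η := 1 / 2000) (by norm_num) hPne hwb
  obtain ⟨s1, s2, s3⟩ := sqrt2_facts
  have hs : (0 : ℝ) < √2 := by positivity
  have hinv : 1 / √2 = √2 / 2 := by
    rw [div_eq_div_iff hs.ne' (by norm_num)]; linarith
  have hsl : (7071 / 5000 : ℝ) < √2 := by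
    rw [show (7071 / 5000 : ℝ) = √((7071 / 5000) ^ 2) by rw [Real.sqrt_sq (by norm_num)]]
    exact Real.sqrt_lt_sqrt (by norm_num) (by norm_num)
  have hB : ∀ i ∉ offPts (1 / 2000) P, (7066 / 10000 : ℝ) * #P ≤ (#{A ∈ P | i ∉ A} : ℝ) := by
    intro i hi
    rw [offPts, mem_filter, hinv] at hi
    push Not at hi
    have h1 := (abs_le.1 (hi (mem_univ _))).2
    have h2 : #{A ∈ P | i ∈ A} + #{A ∈ P | i ∉ A} = #P :=
      card_filter_add_card_filter_not _
    have h3 : (#{A ∈ P | i ∈ A} : ℝ) + #{A ∈ P | i ∉ A} = #P := by exact_mod_cast h2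
    have h4 : (7071 / 5000 : ℝ) * #P ≤ √2 * #P := mul_le_mul_of_nonneg_right hsl.le hPc.le
    linarith
  have h1 := union_entropy P hPne (V := unions C)
    (fun A hA B hB => mem_unions.2 ⟨A, hPC hA, B, hPC hB, rfl⟩) (offPts (1 / 2000) P)
    (7066 / 10000) (by norm_num) hB
  have hlog2 : 0 < Real.log 2 := Real.log_pos (by norm_num)
  have hV0 : (0 : ℝ) < #(unions C) := by
    obtain ⟨A, hA⟩ := hPne
    exact_mod_cast card_pos.2 ⟨A, mem_unions.2 ⟨A, hPC hA, A, hPC hA, union_self A⟩⟩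
  have h2 : Real.log #(unions C) ≤ 51 / 50 * n * Real.log 2 := by
    have := Real.log_le_log hV0 hC
    rwa [Real.log_rpow (by norm_num)] at this
  have h3 : (1 - 1 / 2000) * n * Real.log 2 ≤ Real.log #P := by
    have := Real.log_le_log (by positivity) hP
    rwa [Real.log_rpow (by norm_num)] at this
  have h4 : (#(offPts (1 / 2000) P) : ℝ) * Real.log 2 ≤ 1 / 2000 * n * Real.log 2 :=
    mul_le_mul_of_nonneg_right hcon hlog2.le
  have h5 : 0 < n * Real.log 2 := by positivity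
  linarith

lemma card_symmDiff_aux {N : ℕ} (A B : Fs N) :
    (#(symmDiff A B) : ℝ) = #A + #B - 2 * #(A ∩ B) := by
  have h1 : #(symmDiff A B) = #(A \ B) + #(B \ A) := by
    rw [symmDiff_def, sup_eq_union, card_union_of_disjoint]
    exact disjoint_sdiff_sdiff
  have h2 := card_sdiff_add_card_inter A B
  have h3 := card_sdiff_add_card_inter B A
  rw [inter_comm B A] at h3
  have h4 : (#(A \ B) : ℝ) + #(A ∩ B) = #A := by exact_mod_cast h2
  have h5 : (#(B \ A) : ℝ) + #(A ∩ B) = #B := by exact_mod_cast h3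
  rw [h1]
  push_cast
  linarith

lemma cluster_aux {n : ℕ} (hn : 0 < n) {δ e : ℝ} (hδ : 0 < δ) (he : e ≤ δ / 20)
    {A A0 : Fs (2 * n)} (h1 : BalOn e univ A) (h2 : BalOn e univ A0) (h3 : BalOn e A0 A)
    (h4 : (#(symmDiff A A0) : ℝ) ≤ (√2 - 1 - δ) * (2 * n)) : False := by
  obtain ⟨s1, s2, s3⟩ := sqrt2_facts
  have hs : (0 : ℝ) < √2 := by positivity
  have hinv : 1 / √2 = √2 / 2 := by
    rw [div_eq_div_iff hs.ne' (by norm_num)]; linarith
  unfold BalOn at h1 h2 h3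
  rw [inter_univ, card_univ, Fintype.card_fin, hinv, abs_le] at h1 h2
  rw [hinv, abs_le] at h3
  rw [card_symmDiff_aux] at h4
  push_cast at h1 h2 h3
  have hnr : (0 : ℝ) < n := by exact_mod_cast hn
  have h5 : e * (2 * n) ≤ δ / 20 * (2 * n) := mul_le_mul_of_nonneg_right he (by positivity)
  obtain ⟨a0, ha0⟩ : ∃ a0 : ℝ, a0 = #A0 := ⟨_, rfl⟩
  obtain ⟨E, hE⟩ : ∃ E : ℝ, E = e * (2 * n) := ⟨_, rfl⟩
  rw [← ha0, ← hE] at h2 h3
  rw [← ha0] at h4
  rw [← hE] at h1
  have hE0 : 0 ≤ E := by linarith [h1.1, h1.2]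
  -- `a0 (√2 - 1) ≥ ((1 - √2/2) 2 n - E) (√2 - 1)`
  have h6 : ((1 - √2 / 2) * (2 * n) - E) * (√2 - 1) ≤ a0 * (√2 - 1) :=
    mul_le_mul_of_nonneg_right (by linarith [h2.1]) (by linarith)
  have h7 : E * (√2 - 1) ≤ E * 1 := mul_le_mul_of_nonneg_left (by linarith) hE0
  have h8 : (1 - √2 / 2) * (2 * n) * (√2 - 1) = (3 * √2 - 4) * n := by
    have : (1 - √2 / 2) * (2 * n) * (√2 - 1) = (3 * √2 - 2 - √2 * √2) * n := by ring
    rw [this, s1]
    ring
  have h9 : 0 < δ * n := by positivity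
  nlinarith [h1.1, h3.2]

/-- The theorem on structured parts. -/
theorem class_parts (θ : ℝ) (hθ0 : 0 ≤ θ) (hθ : θ * Real.binEntropy (1 - 1 / √2) < Real.log 2)
    (δ ε : ℝ) (hδ : 0 < δ) (hε : 0 < ε) (b : ℕ) (hb : 0 < b) (κ η : ℝ) (hκ : 0 < κ)
    (hη : 0 < η) :
    ∃ μ : ℝ, 0 < μ ∧ ∃ n₀ : ℕ, ∀ n ≥ n₀, ∀ F : Finset (Fs (2 * n)), ∀ (M : ℕ)
      (C : Fin M → Finset (Fs (2 * n))), (M : ℝ) ≤ 2 ^ (μ * n) →
      (∀ A ∈ F, ∃ k, A ∈ C k) →
      (∀ k, Kind θ δ b κ η μ (C k) ∨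
        (Symmetric δ (C k) ∧ C k ⊆ F ∧ ∀ l, l ≠ k → Disjoint (C k) (C l))) →
      (#(unions F) : ℝ) ≤ (#F : ℝ) ^ 2 / 4 + ε * 4 ^ n := by
  classical
  set g : ℝ := Real.log 2 - θ * Real.binEntropy (1 - 1 / √2) with hg
  have hg0 : 0 < g := by linarith
  obtain ⟨κb, hκb, e₁, he₁, hblock⟩ := block_few b hb
  obtain ⟨γ, hγ⟩ : ∃ γ : ℝ, γ = min (min (g / 2) (κ / 2)) (min (κb / 2) (1 / 4000)) := ⟨_, rfl⟩
  have hγ0 : 0 < γ := by
    rw [hγ]
    exact lt_min (lt_min (by positivity) (by positivity)) (lt_min (by positivity) (by norm_num))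
  have hγ1 : γ ≤ g / 2 := by rw [hγ]; exact (min_le_left _ _).trans (min_le_left _ _)
  have hγ4 : γ ≤ κ / 2 := by rw [hγ]; exact (min_le_left _ _).trans (min_le_right _ _)
  have hγ2 : γ ≤ κb / 2 := by rw [hγ]; exact (min_le_right _ _).trans (min_le_left _ _)
  have hγ3 : γ ≤ 1 / 4000 := by rw [hγ]; exact (min_le_right _ _).trans (min_le_right _ _)
  obtain ⟨e₀, he₀⟩ : ∃ e₀ : ℝ, e₀ = min (min (g / 12) (δ / 20))
    (min (min e₁ η) ((1 / 2000) ^ 2 / 16)) := ⟨_, rfl⟩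
  have he₀0 : 0 < e₀ := by
    rw [he₀]
    exact lt_min (lt_min (by positivity) (by positivity))
      (lt_min (lt_min he₁ (by positivity)) (by norm_num))
  have q1 : e₀ ≤ g / 12 := by rw [he₀]; exact (min_le_left _ _).trans (min_le_left _ _)
  have q2 : e₀ ≤ δ / 20 := by rw [he₀]; exact (min_le_left _ _).trans (min_le_right _ _)
  have q3 : e₀ ≤ e₁ := by
    rw [he₀]; exact (min_le_right _ _).trans ((min_le_left _ _).trans (min_le_left _ _))
  have q5 : e₀ ≤ η := by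
    rw [he₀]; exact (min_le_right _ _).trans ((min_le_left _ _).trans (min_le_right _ _))
  have q6 : e₀ ≤ (1 / 2000) ^ 2 / 16 := by
    rw [he₀]; exact (min_le_right _ _).trans (min_le_right _ _)
  have hr0 : 0 < 200000000 + 3 / η := by positivity
  obtain ⟨e, he0, hele, μ₀, hμ₀, hgen⟩ :=
    parts_gen ε γ e₀ (200000000 + 3 / η) hε hγ0 he₀0 hr0
  have he1 : e ≤ g / 12 := hele.trans q1
  have he2 : e ≤ δ / 20 := hele.trans q2
  have he3 : e ≤ e₁ := hele.trans q3
  have he5 : e ≤ η := hele.trans q5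
  have he6 : e ≤ (1 / 2000) ^ 2 / 16 := hele.trans q6
  have he4 : e ≤ 1 / 1000 := by
    refine he6.trans ?_
    norm_num
  obtain ⟨μ, hμ⟩ : ∃ μ : ℝ, μ = min (min μ₀ (g / 8)) (κb / 2) := ⟨_, rfl⟩
  have hμpos : 0 < μ := by
    rw [hμ]; exact lt_min (lt_min hμ₀ (by positivity)) (by positivity)
  have hμ1 : μ ≤ μ₀ := by rw [hμ]; exact (min_le_left _ _).trans (min_le_left _ _)
  have hμ2 : μ ≤ g / 8 := by rw [hμ]; exact (min_le_left _ _).trans (min_le_right _ _)
  have hμ3 : μ ≤ κb / 2 := by rw [hμ]; exact min_le_right _ _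
  obtain ⟨n₀, hn₀⟩ := hgen μ hμpos hμ1
  refine ⟨μ, hμpos, n₀ + 200000, ?_⟩
  intro n hn F M C hM hcov hpart
  have hn0 : 0 < n := by omega
  have hnr : (0 : ℝ) < n := by exact_mod_cast hn0
  have hn1 : (1 : ℝ) ≤ n := by exact_mod_cast hn0
  have hlog1 : Real.log 2 ≤ 1 := by
    have := Real.log_le_sub_one_of_pos (show (0 : ℝ) < 2 by norm_num)
    linarith
  have hlog2 : 1 / 2 ≤ Real.log 2 := by
    have := Real.log_two_gt_d9
    linarith
  have hexp : (2 : ℝ) ^ (μ * (n : ℝ)) ≤ Real.exp (μ * n) := by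
    rw [Real.rpow_def_of_pos (by norm_num)]
    apply Real.exp_le_exp.2
    have h2 : 0 ≤ μ * n := by positivity
    nlinarith
  have hγn : ∀ {x : ℝ}, γ ≤ x → Real.exp (n * Real.log 2 - x * n) ≤
      Real.exp (n * Real.log 2 - γ * n) := by
    intro x hx
    apply Real.exp_le_exp.2
    have : γ * n ≤ x * n := mul_le_mul_of_nonneg_right hx hnr.le
    linarith
  have hκn : ∀ {x : ℝ}, 0 < x → γ ≤ x / 2 → (2 : ℝ) ^ ((1 - x) * n) ≤
      Real.exp (n * Real.log 2 - γ * n) := by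
    intro x hx0 hx
    refine le_trans ?_ (hγn hx)
    rw [Real.rpow_def_of_pos (by norm_num)]
    apply Real.exp_le_exp.2
    have h1 : x * n * (1 / 2) ≤ x * n * Real.log 2 :=
      mul_le_mul_of_nonneg_left hlog2 (by positivity)
    linarith
  have h2r : (2 : ℝ) ≤ (200000000 + 3 / η) * n := by
    have h1 : 0 < 3 / η := by positivity
    nlinarith
  have hcard1 : ∀ A : Fs (2 * n), (#({A} : Finset (Fs (2 * n))) : ℝ) ≤ (200000000 + 3 / η) * n := by
    intro A
    rw [card_singleton]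
    push_cast
    linarith
  have hcard2 : ∀ A B : Fs (2 * n),
      (#({A, B} : Finset (Fs (2 * n))) : ℝ) ≤ (200000000 + 3 / η) * n := by
    intro A B
    have h1 : #({A, B} : Finset (Fs (2 * n))) ≤ 2 := card_le_two
    have h2 : (#({A, B} : Finset (Fs (2 * n))) : ℝ) ≤ 2 := by exact_mod_cast h1
    linarith
  -- test sets
  have hex : ∀ k, ∃ D : Finset (Fs (2 * n)), (#D : ℝ) ≤ (200000000 + 3 / η) * n ∧
      ((∀ P ⊆ C k, (∀ A ∈ P, ∀ T ∈ D, BalOn e T A) →
          (#P : ℝ) ≤ Real.exp (n * Real.log 2 - γ * n)) ∨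
        (C k ⊆ F ∧ (∀ l, l ≠ k → Disjoint (C k) (C l)) ∧
          ∀ P ⊆ C k, (∀ A ∈ P, ∀ T ∈ D, BalOn e T A) → 2 * #P ≤ #(C k))) := by
    intro k
    have htrace : TraceDetermined θ μ (C k) → ∃ D : Finset (Fs (2 * n)),
      (#D : ℝ) ≤ (200000000 + 3 / η) * n ∧
      ((∀ P ⊆ C k, (∀ A ∈ P, ∀ T ∈ D, BalOn e T A) →
          (#P : ℝ) ≤ Real.exp (n * Real.log 2 - γ * n)) ∨
        (C k ⊆ F ∧ (∀ l, l ≠ k → Disjoint (C k) (C l)) ∧
          ∀ P ⊆ C k, (∀ A ∈ P, ∀ T ∈ D, BalOn e T A) → 2 * #P ≤ #(C k))) := by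
      rintro ⟨I, hI1, hI2⟩
      refine ⟨{I}, hcard1 I, Or.inl fun P hP hbal => ?_⟩
      have h1 : (#P : ℝ) ≤ (#{A ∈ C k | BalOn e I A} : ℝ) := by
        rw [Nat.cast_le]
        apply card_le_card
        intro A hA
        rw [mem_filter]
        exact ⟨hP hA, hbal A hA I (mem_singleton_self I)⟩
      have h8 := few_balanced (C k) I (L := Real.exp (μ * n)) (ε := e) (Real.exp_pos _).le
        (fun T => by
          refine le_trans ?_ hexp
          convert hI2 T)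
      refine h1.trans (h8.trans ?_)
      rw [← Real.exp_add]
      refine le_trans (Real.exp_le_exp.2 ?_) (hγn hγ1)
      have h9 := gap_aux hg n hnr.le hI1 he1 hμ2 he0.le
      have h10 : 0 < μ * n := by positivity
      push_cast
      linarith
    rcases hpart k with (h | ⟨V, hCV, hV, hVc⟩ | ⟨V, hCV, hV, hVc⟩ | h | h | h | h) |
      ⟨h, hCF, hdj⟩
    · exact htrace h
    · exact htrace (trace_mono hCV (affine_trace hθ0 hμpos.le V hV hVc))
    · refine ⟨{univ}, hcard1 _, Or.inl fun P hP hbal => ?_⟩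
      exact (mono_few (by omega) he4 V hV hVc P (hP.trans hCV)
        fun A hA => hbal A hA univ (mem_singleton_self _)).trans (hγn (hγ3.trans (by norm_num)))
    · obtain ⟨β, G, hβ, hG, hprod, hCG⟩ := h
      refine ⟨{upT β G, dnT β G}, hcard2 _ _, Or.inl fun P hP hbal => ?_⟩
      have h1 := hblock n e he3 β G hG hβ P (fun A hA j => hCG A (hP hA) j)
        (fun A hA => ⟨hbal A hA _ (by simp), hbal A hA _ (by simp)⟩)
      refine h1.trans ?_
      calc (∏ j, (#(G j) : ℝ)) * Real.exp (-(κb * n))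
          ≤ 2 ^ ((1 + μ) * (n : ℝ)) * Real.exp (-(κb * n)) :=
            mul_le_mul_of_nonneg_right hprod (Real.exp_pos _).le
        _ ≤ Real.exp (n * Real.log 2 + μ * n) * Real.exp (-(κb * n)) := by
            apply mul_le_mul_of_nonneg_right _ (Real.exp_pos _).le
            rw [Real.rpow_def_of_pos (by norm_num)]
            apply Real.exp_le_exp.2
            have h3 : Real.log 2 * (μ * n) ≤ 1 * (μ * n) :=
              mul_le_mul_of_nonneg_right hlog1 (by positivity)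
            linarith
        _ = Real.exp (n * Real.log 2 + μ * n - κb * n) := by
            rw [← Real.exp_add]
            congr 1
        _ ≤ Real.exp (n * Real.log 2 - κb / 2 * n) := by
            apply Real.exp_le_exp.2
            have : μ * n ≤ κb / 2 * n := mul_le_mul_of_nonneg_right hμ3 hnr.le
            linarith
        _ ≤ _ := hγn hγ2
    · by_cases hA0 : ∃ A0 ∈ C k, BalOn e univ A0
      · obtain ⟨A0, hA0, hA0b⟩ := hA0
        refine ⟨{univ, A0}, hcard2 _ _, Or.inl fun P hP hbal => ?_⟩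
        rcases P.eq_empty_or_nonempty with h0 | ⟨A, hA⟩
        · rw [h0, card_empty]
          push_cast
          positivity
        · exact (cluster_aux hn0 hδ he2 (hbal A hA univ (by simp)) hA0b
            (hbal A hA A0 (by simp)) (h A (hP hA) A0 hA0)).elim
      · refine ⟨{univ}, hcard1 _, Or.inl fun P hP hbal => ?_⟩
        rcases P.eq_empty_or_nonempty with h0 | ⟨A, hA⟩
        · rw [h0, card_empty]
          push_cast
          positivity
        · exact (hA0 ⟨A, hP hA, hbal A hA univ (by simp)⟩).elim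
    · obtain ⟨TT, hTT, hTT2⟩ := biased_tests hn0 (by norm_num) he6 (doubling_biased hn0 h)
      refine ⟨TT, hTT.trans ?_, Or.inl fun P hP hbal => ?_⟩
      · apply mul_le_mul_of_nonneg_right _ hnr.le
        have : 0 < 3 / η := by positivity
        norm_num
        linarith
      · exact (hTT2 P hP hbal).trans (hκn (by norm_num) (hγ3.trans (by norm_num)))
    · obtain ⟨TT, hTT, hTT2⟩ := biased_tests hn0 hη he5 h
      refine ⟨TT, hTT.trans ?_, Or.inl fun P hP hbal => ?_⟩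
      · apply mul_le_mul_of_nonneg_right _ hnr.le
        linarith
      · exact (hTT2 P hP hbal).trans (hκn hκ hγ4)
    · obtain ⟨σ, D, hD, hD2⟩ := h
      refine ⟨{D, D.map σ.symm.toEmbedding}, hcard2 _ _,
        Or.inr ⟨hCF, hdj, fun P hP hbal => ?_⟩⟩
      have h1 : #P ≤ #(C k \ P) := by
        apply card_le_card_of_injOn (fun A => symmDiff (A.map σ.toEmbedding) D)
        · intro A hA
          rw [mem_coe] at hA
          rw [mem_coe, mem_sdiff]
          exact ⟨hD2 A (hP hA), fun hmem =>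
            unbal hδ he2 hn0 hD (hbal A hA _ (by simp)) (hbal _ hmem _ (by simp))⟩
        · intro A _ B _ hAB
          simp only at hAB
          have h2 := symmDiff_left_injective D hAB
          exact map_injective _ h2
      have h2 := card_sdiff_add_card_eq_card hP
      omega
  choose D hD1 hD2 using hex
  exact hn₀ n (by omega) F M C hM hcov D hD1 hD2

end Pool.Agent.Helper77.TP
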