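import Pool.Agent.Helper77.TP.Loc
import Pool.Agent.Helper43.UB.Count

/-! MP_f69198_co: families with more than `|F|^2 / 4` unions have many members that are balanced
on all test sets. -/

namespace Pool.Agent.Helper77.TP

open Finset Pool.Agent.Lead.UB

open Pool.Agent.Lead.UB.Bad (Bk)

open scoped Classical in
/-- The set of all unions of two members of `F`. -/
noncomputable def unions {N : ℕ} (F : Finset (Fs N)) : Finset (Fs N) :=
  univ.filter fun S => ∃ A ∈ F, ∃ B ∈ F, A ∪ B = S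

lemma mem_unions {N : ℕ} {F : Finset (Fs N)} {S : Fs N} :
    S ∈ unions F ↔ ∃ A ∈ F, ∃ B ∈ F, A ∪ B = S := by
  classical
  simp [unions]

open scoped Classical in
/-- The representation graph of a family, preferring representations with property `Q`. -/
theorem exists_rel {N : ℕ} (F : Finset (Fs N)) (Q : Fs N → Fs N → Prop)
    (hQ : ∀ A B, Q A B → Q B A) :
    ∃ R : Fs N → Fs N → Prop,
      (∀ A B, R A B → A ∈ F ∧ B ∈ F) ∧ (∀ A B, R A B → R B A) ∧ (∀ A, ¬ R A A) ∧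
      (∀ A B A' B', R A B → R A' B' → A ∪ B = A' ∪ B' →
        (A = A' ∧ B = B') ∨ (A = B' ∧ B = A')) ∧
      2 * ((#(unions F) : ℝ) - #F) ≤ (#{p : Fs N × Fs N | R p.1 p.2} : ℝ) ∧
      2 * ((#{S : Fs N | ∃ A ∈ F, ∃ B ∈ F, A ∪ B = S ∧ Q A B} : ℝ) - #F) ≤
        (#{p : Fs N × Fs N | R p.1 p.2 ∧ Q p.1 p.2} : ℝ) := by
  set NS : Finset (Fs N) := {S | ∃ A ∈ F, ∃ B ∈ F, A ∪ B = S ∧ Q A B} with hNS
  have hrep : ∀ S : Fs N, ∃ p : Fs N × Fs N, S ∈ unions F →
      (p.1 ∈ F ∧ p.2 ∈ F ∧ p.1 ∪ p.2 = S ∧ (S ∈ NS → Q p.1 p.2)) := by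
    intro S
    by_cases hS : S ∈ NS
    · rw [hNS, mem_filter] at hS
      obtain ⟨A, hA, B, hB, h1, h2⟩ := hS.2
      exact ⟨(A, B), fun _ => ⟨hA, hB, h1, fun _ => h2⟩⟩
    · by_cases hU : S ∈ unions F
      · obtain ⟨A, hA, B, hB, h⟩ := mem_unions.1 hU
        exact ⟨(A, B), fun _ => ⟨hA, hB, h, fun h => absurd h hS⟩⟩
      · exact ⟨(S, S), fun h => absurd h hU⟩
  choose rep hrepS using hrep
  obtain ⟨R, hR⟩ : ∃ R : Fs N → Fs N → Prop, ∀ A B, R A B ↔
      (A ≠ B ∧ ∃ S ∈ unions F, rep S = (A, B) ∨ rep S = (B, A)) := ⟨_, fun _ _ => Iff.rfl⟩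
  have hRF : ∀ A B, R A B → A ∈ F ∧ B ∈ F := by
    intro A B hAB
    rw [hR] at hAB
    obtain ⟨_, S, hS, h | h⟩ := hAB
    · have := hrepS S hS
      rw [h] at this
      exact ⟨this.1, this.2.1⟩
    · have := hrepS S hS
      rw [h] at this
      exact ⟨this.2.1, this.1⟩
  have hRsymm : ∀ A B, R A B → R B A := by
    intro A B hAB
    rw [hR] at hAB ⊢
    obtain ⟨hne, S, hS, h⟩ := hAB
    exact ⟨hne.symm, S, hS, h.symm⟩
  have hRU : ∀ A B, R A B → (A ∪ B ∈ unions F ∧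
      (rep (A ∪ B) = (A, B) ∨ rep (A ∪ B) = (B, A))) := by
    intro A B hAB
    rw [hR] at hAB
    obtain ⟨_, S, hS, h⟩ := hAB
    have : A ∪ B = S := by
      have h1 := (hrepS S hS).2.2.1
      rcases h with h | h
      · rw [h] at h1; exact h1
      · rw [h] at h1; rw [union_comm]; exact h1
    rw [this]; exact ⟨hS, h⟩
  have hRdet : ∀ A B A' B', R A B → R A' B' → A ∪ B = A' ∪ B' →
      (A = A' ∧ B = B') ∨ (A = B' ∧ B = A') := by
    intro A B A' B' h h' hU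
    have h1 := (hRU A B h).2
    have h2 := (hRU A' B' h').2
    rw [hU] at h1
    rcases h1 with h1 | h1 <;> rcases h2 with h2 | h2 <;> rw [h1] at h2 <;>
      simp only [Prod.mk.injEq] at h2
    · exact Or.inl h2
    · exact Or.inr h2
    · exact Or.inr ⟨h2.2, h2.1⟩
    · exact Or.inl ⟨h2.2, h2.1⟩
  have hcount : ∀ Q : Finset (Fs N), Q ⊆ unions F →
      2 * ((#Q : ℝ) - #F) ≤ (#{p : Fs N × Fs N | R p.1 p.2 ∧ p.1 ∪ p.2 ∈ Q} : ℝ) := by
    intro Q hQU
    set Q1 := Q.filter (fun S => (rep S).1 ≠ (rep S).2) with hQ1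
    set Q0 := Q.filter (fun S => ¬ (rep S).1 ≠ (rep S).2) with hQ0
    have h1 : #Q0 ≤ #F := by
      apply card_le_card
      intro S hS
      rw [hQ0, mem_filter] at hS
      obtain ⟨hS1, hS2⟩ := hS
      push Not at hS2
      obtain ⟨k1, k2, k3, k4⟩ := hrepS S (hQU hS1)
      rw [← hS2, union_self] at k3
      rw [← k3]; exact k1
    have h2 : #Q1 + #Q0 = #Q := card_filter_add_card_filter_not _
    have h3 : #(Q1 ×ˢ (univ : Finset Bool)) ≤
        #{p : Fs N × Fs N | R p.1 p.2 ∧ p.1 ∪ p.2 ∈ Q} := by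
      apply card_le_card_of_injOn
        (fun x : Fs N × Bool => if x.2 then rep x.1 else ((rep x.1).2, (rep x.1).1))
      · rintro ⟨S, b⟩ hx
        rw [mem_coe, mem_product, hQ1, mem_filter] at hx
        obtain ⟨⟨hS1, hS2⟩, _⟩ := hx
        obtain ⟨k1, k2, k3, k4⟩ := hrepS S (hQU hS1)
        rw [mem_coe, mem_filter]
        cases b with
        | true =>
          refine ⟨mem_univ _, (hR _ _).2 ⟨hS2, S, hQU hS1, Or.inl rfl⟩, ?_⟩
          simp only [if_true]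
          rw [k3]; exact hS1
        | false =>
          refine ⟨mem_univ _, (hR _ _).2 ⟨hS2.symm, S, hQU hS1, Or.inr rfl⟩, ?_⟩
          simp only [Bool.false_eq_true, if_false]
          rw [union_comm, k3]; exact hS1
      · rintro ⟨S, b⟩ hx ⟨S', b'⟩ hx' he
        rw [mem_coe, mem_product, hQ1, mem_filter] at hx hx'
        obtain ⟨⟨hS1, hS2⟩, _⟩ := hx
        obtain ⟨⟨hS1', hS2'⟩, _⟩ := hx'
        obtain ⟨k1, k2, k3, k4⟩ := hrepS S (hQU hS1)
        obtain ⟨k1', k2', k3', k4'⟩ := hrepS S' (hQU hS1')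
        simp only at hS2 hS2' k3 k3' he
        cases b <;> cases b' <;> simp only [Bool.false_eq_true, if_false, if_true, Prod.ext_iff] at he
        · have : S = S' := by rw [← k3, ← k3', he.1, he.2]
          rw [this]
        · exfalso
          have : S = S' := by rw [← k3, ← k3', he.1, he.2, union_comm]
          subst this
          exact hS2 he.2
        · exfalso
          have : S = S' := by rw [← k3, ← k3', he.1, he.2, union_comm]
          subst this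
          exact hS2 he.1
        · have : S = S' := by rw [← k3, ← k3', he.1, he.2]
          rw [this]
    have h4 : #(Q1 ×ˢ (univ : Finset Bool)) = #Q1 * 2 := by simp
    have h7 : #Q * 2 ≤ #{p : Fs N × Fs N | R p.1 p.2 ∧ p.1 ∪ p.2 ∈ Q} + 2 * #F := by omega
    have h8 : (#Q : ℝ) * 2 ≤ (#{p : Fs N × Fs N | R p.1 p.2 ∧ p.1 ∪ p.2 ∈ Q} : ℝ) + 2 * #F := by
      exact_mod_cast h7
    linarith
  refine ⟨R, hRF, hRsymm, fun A h => ((hR _ _).1 h).1 rfl, hRdet, ?_, ?_⟩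
  · refine (hcount (unions F) (Subset.refl _)).trans ?_
    rw [Nat.cast_le]
    apply card_le_card
    intro p hp
    rw [mem_filter] at hp ⊢
    exact ⟨mem_univ _, hp.2.1⟩
  · refine (hcount NS ?_).trans ?_
    · intro S hS
      rw [hNS, mem_filter] at hS
      obtain ⟨A, hA, B, hB, h1, h2⟩ := hS.2
      exact mem_unions.2 ⟨A, hA, B, hB, h1⟩
    · rw [Nat.cast_le]
      apply card_le_card
      intro p hp
      rw [mem_filter] at hp ⊢
      refine ⟨mem_univ _, hp.2.1, ?_⟩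
      obtain ⟨hU, hr⟩ := hRU p.1 p.2 hp.2.1
      have h1 := (hrepS (p.1 ∪ p.2) hU).2.2.2 hp.2.2
      rcases hr with h | h
      · rw [h] at h1; exact h1
      · rw [h] at h1; exact hQ _ _ h1

open scoped Classical in
/-- The books of the graph `R` which are not typical on some test set are rare. -/
theorem bad_all {N t : ℕ} {F : Finset (Fs N)} {R : Fs N → Fs N → Prop}
    (hF : ∀ A B, R A B → A ∈ F ∧ B ∈ F)
    (hinj : ∀ A B A' B', R A B → R A' B' → A ∪ B = A' ∪ B' →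
      (A = A' ∧ B = B') ∨ (A = B' ∧ B = A'))
    {η : ℝ} (hη : 0 < η) (X : Finset (Bk N t))
    (hX : ∀ q ∈ X, R q.1.1 q.1.2 ∧ (∀ i, R (q.2 i) q.1.1 ∧ R (q.2 i) q.1.2))
    (TT : Finset (Fs N)) (hbad : ∀ q ∈ X, ∃ T ∈ TT, ¬ TypicalOn T η q.1.1 q.1.2 q.2) :
    (#X : ℝ) ≤ #TT * (16 * ((t : ℝ) + 2) ^ 4 *
      ((#F : ℝ) ^ t * (2 * (2 * (2 ^ N * Real.exp (-(2 * η ^ 2 * N))))))) := by
  have h1 : X ⊆ TT.biUnion fun T => {q ∈ X | ¬ TypicalOn T η q.1.1 q.1.2 q.2} := by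
    intro q hq
    obtain ⟨T, hT, h⟩ := hbad q hq
    exact mem_biUnion.2 ⟨T, hT, mem_filter.2 ⟨hq, h⟩⟩
  have h2 := (card_le_card h1).trans card_biUnion_le
  have h3 : (#X : ℝ) ≤ ∑ T ∈ TT, (#{q ∈ X | ¬ TypicalOn T η q.1.1 q.1.2 q.2} : ℝ) := by
    exact_mod_cast h2
  refine h3.trans ?_
  rw [← nsmul_eq_mul, ← sum_const]
  apply sum_le_sum
  intro T _
  refine bad_one hF hinj (by positivity) (fun T => hoeff T hη) _ ?_ T ?_
  · intro q hq
    exact hX q (mem_filter.1 hq).1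
  · intro q hq
    exact (mem_filter.1 hq).2

end Pool.Agent.Helper77.TP
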