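import Pool.Agent.Helper77.TP.Parts

/-! MP_f69198_co: families covered by few parts with few balanced members, general form. -/

namespace Pool.Agent.Helper77.TP

open Finset Pool.Agent.Lead.UB

/-- General form of the theorem on parts. -/
theorem parts_gen (ε γ e₀ r : ℝ) (hε : 0 < ε) (hγ : 0 < γ) (he₀ : 0 < e₀) (hr : 0 < r) :
    ∃ e : ℝ, 0 < e ∧ e ≤ e₀ ∧ ∃ μ₀ : ℝ, 0 < μ₀ ∧ ∀ μ : ℝ, 0 < μ → μ ≤ μ₀ → ∃ n₀ : ℕ, ∀ n ≥ n₀,
      ∀ F : Finset (Fs (2 * n)), ∀ (M : ℕ) (C : Fin M → Finset (Fs (2 * n))),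
      (M : ℝ) ≤ 2 ^ (μ * n) → (∀ A ∈ F, ∃ k, A ∈ C k) → ∀ D : Fin M → Finset (Fs (2 * n)),
      (∀ k, (#(D k) : ℝ) ≤ r * n) →
      (∀ k, (∀ P ⊆ C k, (∀ A ∈ P, ∀ T ∈ D k, BalOn e T A) →
          (#P : ℝ) ≤ Real.exp (n * Real.log 2 - γ * n)) ∨
        (C k ⊆ F ∧ (∀ l, l ≠ k → Disjoint (C k) (C l)) ∧
          ∀ P ⊆ C k, (∀ A ∈ P, ∀ T ∈ D k, BalOn e T A) → 2 * #P ≤ #(C k))) →
      (#(unions F) : ℝ) ≤ (#F : ℝ) ^ 2 / 4 + ε * 4 ^ n := by
  classical
  set e : ℝ := min (ε / 2) e₀ with he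
  have he0 : 0 < e := lt_min (by positivity) he₀
  have he1 : e ≤ ε / 2 := min_le_left _ _
  obtain ⟨μ₁, hμ₁, n₁, hmain⟩ := local_structure e he0
  refine ⟨e, he0, min_le_right _ _, min (μ₁ / 2) (γ / 2), lt_min (by positivity) (by positivity),
    ?_⟩
  intro μ hμpos hμle
  have hμ1 : μ ≤ μ₁ / 2 := hμle.trans (min_le_left _ _)
  have hμ2 : μ ≤ γ / 2 := hμle.trans (min_le_right _ _)
  obtain ⟨n2, hn2⟩ := exists_nat_gt (8 / (γ * e))
  obtain ⟨n3, hn3⟩ := exists_nat_gt (8 * r / μ₁ ^ 2)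
  refine ⟨n₁ + n2 + n3 + 1, ?_⟩
  intro n hn F M C hM hcov D hDr hpart
  have hn0 : 0 < n := by omega
  have hnr : (0 : ℝ) < n := by exact_mod_cast hn0
  obtain ⟨P, hPd⟩ : ∃ P : ℝ, P = 2 ^ n := ⟨_, rfl⟩
  have hP : 0 < P := by rw [hPd]; positivity
  have h4n : (4 : ℝ) ^ n = P * P := by rw [hPd, ← mul_pow]; norm_num
  obtain ⟨m, hm⟩ : ∃ m : ℝ, m = #F := ⟨_, rfl⟩
  have hm0 : 0 ≤ m := by rw [hm]; positivity
  have hU4 := unions_le_pow F
  by_cases hbig : 2 * P ≤ m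
  · rw [← hm]
    rw [h4n] at hU4 ⊢
    have h1 : (2 * P) * (2 * P) ≤ m * m := mul_self_le_mul_self (by positivity) hbig
    have h2 : 0 < ε * (P * P) := by positivity
    nlinarith
  push Not at hbig
  set TT : Finset (Fs (2 * n)) := univ.biUnion D with hTT
  have hexp : (2 : ℝ) ^ (μ * (n : ℝ)) ≤ Real.exp (μ * n) := by
    rw [Real.rpow_def_of_pos (by norm_num)]
    apply Real.exp_le_exp.2
    have h1 : Real.log 2 ≤ 1 := by
      have := Real.log_le_sub_one_of_pos (show (0 : ℝ) < 2 by norm_num)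
      linarith
    have h2 : 0 ≤ μ * n := by positivity
    nlinarith
  have hMe : (M : ℝ) ≤ Real.exp (μ * n) := hM.trans hexp
  have hTTc : (#TT : ℝ) ≤ Real.exp (μ₁ * n) := by
    have h1 : (#TT : ℝ) ≤ ∑ k : Fin M, (#(D k) : ℝ) := by
      rw [hTT]
      exact_mod_cast card_biUnion_le
    have h2 : ∑ k : Fin M, (#(D k) : ℝ) ≤ M * (r * n) := by
      refine (sum_le_sum fun k _ => hDr k).trans (le_of_eq ?_)
      rw [sum_const, card_univ, Fintype.card_fin, nsmul_eq_mul]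
    have h3 : r * n ≤ Real.exp (μ₁ / 2 * n) := by
      have h4 := Real.quadratic_le_exp_of_nonneg (show (0 : ℝ) ≤ μ₁ / 2 * n by positivity)
      have h5 : (n3 : ℝ) ≤ n := by exact_mod_cast (by omega : n3 ≤ n)
      have h6 : 8 * r / μ₁ ^ 2 < n := by linarith
      rw [div_lt_iff₀ (by positivity)] at h6
      have h7 : r * n ≤ (μ₁ / 2 * n) ^ 2 / 2 := by
        have h8 : 8 * r * n ≤ n * μ₁ ^ 2 * n := mul_le_mul_of_nonneg_right h6.le hnr.le
        have h9 : (μ₁ / 2 * n) ^ 2 / 2 = n * μ₁ ^ 2 * n / 8 := by ring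
        rw [h9]
        linarith
      have h10 : 0 ≤ μ₁ / 2 * n := by positivity
      linarith
    calc (#TT : ℝ) ≤ M * (r * n) := h1.trans h2
      _ ≤ Real.exp (μ * n) * Real.exp (μ₁ / 2 * n) := by gcongr
      _ = Real.exp (μ * n + μ₁ / 2 * n) := by rw [Real.exp_add]
      _ ≤ Real.exp (μ₁ * n) := by
          apply Real.exp_le_exp.2
          have : μ * n ≤ μ₁ / 2 * n := mul_le_mul_of_nonneg_right hμ1 hnr.le
          linarith
  obtain ⟨F0, hF0, hbal, hU, -⟩ := hmain n (by omega) F TT hTTc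
  have hb : ∀ k, ∀ A ∈ F0 ∩ C k, ∀ T ∈ D k, BalOn e T A := by
    intro k A hA T hT
    rw [mem_inter] at hA
    exact hbal A hA.1 T (mem_biUnion.2 ⟨k, mem_univ _, hT⟩)
  -- the two kinds of parts
  set Y : Finset (Fin M) := univ.filter fun k => C k ⊆ F ∧ (∀ l, l ≠ k → Disjoint (C k) (C l)) ∧
      ∀ P ⊆ C k, (∀ A ∈ P, ∀ T ∈ D k, BalOn e T A) → 2 * #P ≤ #(C k) with hY
  have hYsum : ∑ k ∈ Y, #(C k) ≤ #F := by
    rw [← card_biUnion]
    · apply card_le_card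
      intro A hA
      rw [mem_biUnion] at hA
      obtain ⟨k, hk, hAk⟩ := hA
      rw [hY, mem_filter] at hk
      exact hk.2.1 hAk
    · intro k hk l _ hkl
      rw [hY, mem_coe, mem_filter] at hk
      exact hk.2.2.1 l hkl.symm
  have hY2 : ∀ k ∈ Y, 2 * #(F0 ∩ C k) ≤ #(C k) := by
    intro k hk
    rw [hY, mem_filter] at hk
    exact hk.2.2.2 _ inter_subset_right (hb k)
  have hYf : 2 * ∑ k ∈ Y, (#(F0 ∩ C k) : ℝ) ≤ m := by
    have h1 : ∑ k ∈ Y, 2 * #(F0 ∩ C k) ≤ #F := (sum_le_sum hY2).trans hYsum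
    rw [← mul_sum] at h1
    rw [hm]
    exact_mod_cast h1
  have hZ : ∀ k ∉ Y, (#(F0 ∩ C k) : ℝ) ≤ Real.exp (n * Real.log 2 - γ * n) := by
    intro k hk
    rcases hpart k with h | h
    · exact h _ inter_subset_right (hb k)
    · exact absurd (by rw [hY, mem_filter]; exact ⟨mem_univ _, h⟩) hk
  have hF0s : (#F0 : ℝ) ≤ ∑ k : Fin M, (#(F0 ∩ C k) : ℝ) := by
    have h1 : F0 ⊆ univ.biUnion fun k => F0 ∩ C k := by
      intro A hA
      obtain ⟨k, hk⟩ := hcov A (hF0 hA)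
      exact mem_biUnion.2 ⟨k, mem_univ _, mem_inter.2 ⟨hA, hk⟩⟩
    exact_mod_cast (card_le_card h1).trans card_biUnion_le
  have hf0 : (#F0 : ℝ) ≤ m / 2 + Real.exp (n * Real.log 2 - γ / 2 * n) := by
    refine hF0s.trans ?_
    rw [← sum_add_sum_compl Y]
    have h1 : ∑ k ∈ Yᶜ, (#(F0 ∩ C k) : ℝ) ≤ Real.exp (n * Real.log 2 - γ / 2 * n) := by
      calc ∑ k ∈ Yᶜ, (#(F0 ∩ C k) : ℝ)
          ≤ ∑ k ∈ Yᶜ, Real.exp (n * Real.log 2 - γ * n) :=
            sum_le_sum fun k hk => hZ k (mem_compl.1 hk)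
        _ ≤ ∑ k : Fin M, Real.exp (n * Real.log 2 - γ * n) :=
            sum_le_sum_of_subset_of_nonneg (subset_univ _) fun _ _ _ => (Real.exp_pos _).le
        _ = (M : ℝ) * Real.exp (n * Real.log 2 - γ * n) := by
            rw [sum_const, card_univ, Fintype.card_fin, nsmul_eq_mul]
        _ ≤ Real.exp (μ * n) * Real.exp (n * Real.log 2 - γ * n) :=
            mul_le_mul_of_nonneg_right hMe (Real.exp_pos _).le
        _ = Real.exp (μ * n + (n * Real.log 2 - γ * n)) := by rw [Real.exp_add]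
        _ ≤ Real.exp (n * Real.log 2 - γ / 2 * n) := by
            apply Real.exp_le_exp.2
            have : μ * n ≤ γ / 2 * n := mul_le_mul_of_nonneg_right hμ2 hnr.le
            linarith
    linarith
  have h9 : Real.exp (n * Real.log 2 - γ / 2 * n) = 2 ^ n * Real.exp (-(γ / 2 * n)) := by
    rw [sub_eq_add_neg, Real.exp_add]
    congr 1
    rw [mul_comm, Real.exp_mul, Real.exp_log (by norm_num), Real.rpow_natCast]
  have h10 : Real.exp (-(γ / 2 * n)) < e / 4 := by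
    rw [Real.exp_neg, inv_lt_comm₀ (Real.exp_pos _) (by positivity)]
    have h11 := Real.add_one_le_exp (γ / 2 * n)
    have h12 : (n2 : ℝ) ≤ n := by exact_mod_cast (by omega : n2 ≤ n)
    have h13 : 8 / (γ * e) < n := by linarith
    rw [div_lt_iff₀ (by positivity)] at h13
    rw [inv_eq_one_div, div_lt_iff₀ (by positivity)]
    have h14 : 1 < γ / 2 * n * (e / 4) := by
      have : γ / 2 * n * (e / 4) = n * (γ * e) / 8 := by ring
      rw [this]; linarith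
    have h15 : γ / 2 * n * (e / 4) ≤ Real.exp (γ / 2 * n) * (e / 4) :=
      mul_le_mul_of_nonneg_right (by linarith) (by positivity)
    linarith
  rw [h9, ← hPd] at hf0
  obtain ⟨s, hs⟩ : ∃ s : ℝ, s = P * Real.exp (-(γ / 2 * n)) := ⟨_, rfl⟩
  rw [← hs] at hf0
  have hs0 : 0 ≤ s := by rw [hs]; positivity
  have hs1 : s ≤ P * (e / 4) := by rw [hs]; gcongr
  obtain ⟨f0, hf0d⟩ : ∃ f0 : ℝ, f0 = #F0 := ⟨_, rfl⟩
  rw [← hm, ← hf0d, h4n] at hU
  rw [← hf0d] at hf0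
  have hf00 : 0 ≤ f0 := by rw [hf0d]; positivity
  have hf0m : f0 ≤ m := by
    rw [hf0d, hm]; exact_mod_cast card_le_card hF0
  have h20 := phi_aux hf00 hf0m hs0 hf0 hbig.le
  rw [← hm, h4n]
  have h21 : P * s ≤ P * (P * (e / 4)) := mul_le_mul_of_nonneg_left hs1 hP.le
  have h22 : 0 < P * P := by positivity
  have h23 : e * (P * P) ≤ ε / 2 * (P * P) := mul_le_mul_of_nonneg_right he1 h22.le
  nlinarith

end Pool.Agent.Helper77.TP
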