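import Pool.Agent.Helper77.TP.Bound

/-! MP_f69198_co: families with more than `|F|^2 / 4 + ε 4^n` unions have at least `ε / 4 * 2^n`
members balanced on all test sets. -/

namespace Pool.Agent.Helper77.TP

open Finset Pool.Agent.Lead.UB

lemma unions_le_sq {N : ℕ} (F : Finset (Fs N)) : (#(unions F) : ℝ) ≤ (#F : ℝ) ^ 2 := by
  classical
  have h1 : unions F ⊆ (F ×ˢ F).image (fun p => p.1 ∪ p.2) := by
    intro S hS
    obtain ⟨A, hA, B, hB, h⟩ := mem_unions.1 hS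
    exact mem_image.2 ⟨(A, B), mem_product.2 ⟨hA, hB⟩, h⟩
  have h2 := (card_le_card h1).trans card_image_le
  rw [card_product, ← sq] at h2
  exact_mod_cast h2

lemma unions_le_pow {n : ℕ} (F : Finset (Fs (2 * n))) : (#(unions F) : ℝ) ≤ 4 ^ n := by
  have h := card_le_univ (unions F)
  rw [Fintype.card_finset, Fintype.card_fin, pow_mul] at h
  have h2 : (#(unions F) : ℝ) ≤ ((2 ^ 2) ^ n : ℕ) := by exact_mod_cast h
  refine h2.trans (le_of_eq ?_)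
  push_cast
  norm_num

open scoped Classical in
theorem many_balanced (ε : ℝ) (hε : 0 < ε) :
    ∃ μ : ℝ, 0 < μ ∧ ∃ n₀ : ℕ, ∀ n ≥ n₀, ∀ (F TT : Finset (Fs (2 * n))),
      (#TT : ℝ) ≤ Real.exp (μ * n) → (#F : ℝ) ^ 2 / 4 + ε * 4 ^ n < #(unions F) →
      ε / 4 * 2 ^ n ≤ (#{A ∈ F | ∀ T ∈ TT, BalOn ε T A} : ℝ) := by
  obtain ⟨μ, hμ, n₁, hb⟩ := book_bound ε (ε / 8) ε hε (by positivity) hε
  obtain ⟨n2, hn2⟩ := exists_nat_gt (8 / ε)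
  refine ⟨μ, hμ, n₁ + n2, ?_⟩
  intro n hn F TT hTT hU
  have h4n : (4 : ℝ) ^ n = 2 ^ n * 2 ^ n := by rw [← mul_pow]; norm_num
  have hP : (0 : ℝ) < 2 ^ n := by positivity
  obtain ⟨P, hPd⟩ : ∃ P : ℝ, P = 2 ^ n := ⟨_, rfl⟩
  obtain ⟨m, hm⟩ : ∃ m : ℝ, m = #F := ⟨_, rfl⟩
  have hm0 : 0 ≤ m := by rw [hm]; positivity
  have hU4 := unions_le_pow F
  have hUm := unions_le_sq F
  rw [← hm] at hU hUm
  rw [h4n, ← hPd] at hU hU4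
  rw [← hPd] at hP
  have hεPP : 0 < ε * (P * P) := by positivity
  have hm2 : m < 2 * P := by
    by_contra hc
    push Not at hc
    have h1 : (2 * P) * (2 * P) ≤ m * m := mul_self_le_mul_self (by positivity) hc
    nlinarith
  have hmsq : ε * (P * P) ≤ m ^ 2 := by nlinarith [sq_nonneg m]
  obtain ⟨R, hRF, hRs, hRi, hdet, hE, -⟩ := exists_rel F (fun _ _ => False) (fun _ _ h => h)
  obtain ⟨Bal, hBal⟩ : ∃ Bal : Finset (Fs (2 * n)),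
    Bal = {A ∈ F | ∀ T ∈ TT, BalOn ε T A} := ⟨_, rfl⟩
  rw [← hBal]
  have hb2 := hb (2 * n) (by omega) F (fun A B => R A B ∧ A ∉ Bal ∧ B ∉ Bal) TT
    (hTT.trans (Real.exp_le_exp.2 (by
      push_cast
      have : (0 : ℝ) ≤ n := Nat.cast_nonneg _
      nlinarith)))
    (fun A B h => hRF A B h.1) (fun A B h => ⟨hRs _ _ h.1, h.2.2, h.2.1⟩)
    (fun A h => hRi A h.1) (fun A B A' B' h h' => hdet A B A' B' h.1 h'.1)
    (fun A B h hq => h.2.1 (by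
      rw [hBal, mem_filter]
      exact ⟨(hRF A B h.1).1, fun T hT => (hq T hT).1⟩))
    (by
      rw [← hm, pow_mul]
      have : ((2 : ℝ) ^ 2) ^ n = P * P := by rw [hPd, ← h4n]; norm_num
      rw [this]; exact hmsq) F (Subset.refl _)
  rw [← hm] at hb2
  have hb3 : (#{p : Fs (2 * n) × Fs (2 * n) |
        (R p.1 p.2 ∧ p.1 ∉ Bal ∧ p.2 ∉ Bal) ∧ p.1 ∈ F ∧ p.2 ∈ F} : ℝ) ≤
      m ^ 2 / 2 + ε / 8 * m ^ 2 := by
    convert hb2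
  have hsub : ({p : Fs (2 * n) × Fs (2 * n) | R p.1 p.2} : Finset _) ⊆
      ({p : Fs (2 * n) × Fs (2 * n) | (R p.1 p.2 ∧ p.1 ∉ Bal ∧ p.2 ∉ Bal) ∧ p.1 ∈ F ∧ p.2 ∈ F} :
        Finset _) ∪ (Bal ×ˢ F) ∪ (F ×ˢ Bal) := by
    intro p hp
    rw [mem_filter] at hp
    have hF := hRF _ _ hp.2
    rw [mem_union, mem_union]
    by_cases h1 : p.1 ∈ Bal
    · exact Or.inl (Or.inr (mem_product.2 ⟨h1, hF.2⟩))
    · by_cases h2 : p.2 ∈ Bal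
      · exact Or.inr (mem_product.2 ⟨hF.1, h2⟩)
      · exact Or.inl (Or.inl (mem_filter.2 ⟨mem_univ _, ⟨hp.2, h1, h2⟩, hF.1, hF.2⟩))
  have h1 := card_le_card hsub
  have h2 := card_union_le (({p : Fs (2 * n) × Fs (2 * n) |
    (R p.1 p.2 ∧ p.1 ∉ Bal ∧ p.2 ∉ Bal) ∧ p.1 ∈ F ∧ p.2 ∈ F} : Finset _) ∪ (Bal ×ˢ F)) (F ×ˢ Bal)
  have h3 := card_union_le ({p : Fs (2 * n) × Fs (2 * n) |
    (R p.1 p.2 ∧ p.1 ∉ Bal ∧ p.2 ∉ Bal) ∧ p.1 ∈ F ∧ p.2 ∈ F} : Finset _) (Bal ×ˢ F)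
  rw [card_product] at h2 h3
  have h4 : (#{p : Fs (2 * n) × Fs (2 * n) | R p.1 p.2} : ℝ) ≤
      (#{p : Fs (2 * n) × Fs (2 * n) |
        (R p.1 p.2 ∧ p.1 ∉ Bal ∧ p.2 ∉ Bal) ∧ p.1 ∈ F ∧ p.2 ∈ F} : ℝ) + 2 * (#Bal * #F) := by
    have : #{p : Fs (2 * n) × Fs (2 * n) | R p.1 p.2} ≤
      #{p : Fs (2 * n) × Fs (2 * n) |
        (R p.1 p.2 ∧ p.1 ∉ Bal ∧ p.2 ∉ Bal) ∧ p.1 ∈ F ∧ p.2 ∈ F} + 2 * (#Bal * #F) := by
      have e : #F * #Bal = #Bal * #F := mul_comm _ _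
      omega
    exact_mod_cast this
  rw [← hm] at h4 hE
  obtain ⟨b, hbd⟩ : ∃ b : ℝ, b = #Bal := ⟨_, rfl⟩
  rw [← hbd] at h4 ⊢
  have hb0 : 0 ≤ b := by rw [hbd]; positivity
  have h5 : 2 * (((m ^ 2 / 4 + ε * (P * P))) - m) < m ^ 2 / 2 + ε / 8 * m ^ 2 + 2 * (b * m) := by
    linarith
  have h6 : m ^ 2 ≤ 4 * (P * P) := by nlinarith
  have h7 : 8 < ε * P := by
    have h8 : (n2 : ℝ) ≤ n := by exact_mod_cast (by omega : n2 ≤ n)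
    have h9 : (n : ℝ) ≤ P := by rw [hPd]; exact_mod_cast (Nat.lt_two_pow_self).le
    have h10 : 8 / ε < P := by linarith
    rw [div_lt_iff₀ hε] at h10
    linarith
  rw [← hPd]
  -- 2 ε P² < 2 m + ε/2 P² + 2 b m ≤ 4 P + ε/2 P² + 4 b P
  have h8 : b * m ≤ b * (2 * P) := mul_le_mul_of_nonneg_left hm2.le hb0
  have h9 : 3 / 2 * ε * P * P < (4 + 4 * b) * P := by nlinarith
  have h10 : 3 / 2 * ε * P < 4 + 4 * b := lt_of_mul_lt_mul_right h9 hP.le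
  linarith

end Pool.Agent.Helper77.TP
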