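import Pool.Agent.Helper77.TP.StructMain
import Pool.Agent.Helper77.TP.Main

/-! MP_f69198_co: families which are disjoint unions of few structured parts. -/

namespace Pool.Agent.Helper77.TP

open Finset Pool.Agent.Lead.UB

/-- `C` is invariant under the isometry `A ↦ σ(A) ∆ D` of the cube, where `D` has at least `δ n`
points. -/
def Symmetric (δ : ℝ) {n : ℕ} (C : Finset (Finset (Fin (2 * n)))) : Prop :=
  ∃ (σ : Equiv.Perm (Fin (2 * n))) (D : Finset (Fin (2 * n))), δ * n ≤ (#D : ℝ) ∧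
    ∀ A ∈ C, symmDiff (A.map σ.toEmbedding) D ∈ C

lemma trace_mono {θ μ : ℝ} {n : ℕ} {C V : Finset (Finset (Fin (2 * n)))} (h : C ⊆ V)
    (hV : TraceDetermined θ μ V) : TraceDetermined θ μ C := by
  obtain ⟨I, hI, hT⟩ := hV
  refine ⟨I, hI, fun T => le_trans ?_ (hT T)⟩
  rw [Nat.cast_le]
  apply card_le_card
  intro A hA
  rw [mem_filter] at hA ⊢
  exact ⟨h hA.1, hA.2⟩

/-- A set balanced on `σ⁻¹(D)` is mapped to a set which is not balanced on `D`. -/
lemma unbal {n : ℕ} {δ e : ℝ} (hδ : 0 < δ) (he : e ≤ δ / 20) (hn : 0 < n)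
    {σ : Equiv.Perm (Fin (2 * n))} {D A : Fs (2 * n)} (hD : δ * n ≤ (#D : ℝ))
    (hA : BalOn e (D.map σ.symm.toEmbedding) A)
    (hB : BalOn e D (symmDiff (A.map σ.toEmbedding) D)) : False := by
  obtain ⟨h1, h2, h3⟩ := sqrt2_facts
  have hs : (0 : ℝ) < √2 := by positivity
  unfold BalOn at hA hB
  rw [card_map] at hA
  have e1 : #(A ∩ D.map σ.symm.toEmbedding) = #(A.map σ.toEmbedding ∩ D) := by
    have : A.map σ.toEmbedding ∩ D = (A ∩ D.map σ.symm.toEmbedding).map σ.toEmbedding := by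
      ext v
      simp only [mem_inter, mem_map_equiv, Equiv.symm_symm, Equiv.apply_symm_apply]
    rw [this, card_map]
  have e2 : symmDiff (A.map σ.toEmbedding) D ∩ D = (A.map σ.toEmbedding)ᶜ ∩ D := by
    ext v
    simp only [mem_inter, mem_symmDiff, mem_compl]
    tauto
  rw [e1] at hA
  rw [e2, card_compl_inter] at hB
  have hinv : 1 / √2 = √2 / 2 := by
    rw [div_eq_div_iff hs.ne' (by norm_num)]; linarith
  rw [hinv, abs_le] at hA hB
  have hnr : (0 : ℝ) < n := by exact_mod_cast hn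
  have h4 : e * ((2 * n : ℕ) : ℝ) ≤ δ * n / 10 := by
    push_cast
    nlinarith
  have h5 : (7 / 5 : ℝ) < √2 := by
    rw [show (7 / 5 : ℝ) = √((7 / 5) ^ 2) by rw [Real.sqrt_sq (by norm_num)]]
    exact Real.sqrt_lt_sqrt (by norm_num) (by norm_num)
  have h6 : 0 < δ * n := by positivity
  have h7 : (7 / 5 : ℝ) * #D ≤ √2 * #D :=
    mul_le_mul_of_nonneg_right h5.le (Nat.cast_nonneg _)
  have h8 := hA.2
  have h9 := hB.2
  nlinarith

lemma phi_aux {m f s P : ℝ} (hf : 0 ≤ f) (hfm : f ≤ m) (hs : 0 ≤ s) (hfs : f ≤ m / 2 + s)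
    (hm : m ≤ 2 * P) : f ^ 2 / 2 + (m - f) ^ 2 / 4 ≤ m ^ 2 / 4 + 3 / 2 * (P * s) := by
  have h1 : f * (3 * f - 2 * m) ≤ f * (3 * s) := by
    apply mul_le_mul_of_nonneg_left _ hf
    linarith
  have h2 : f * (3 * s) ≤ 2 * P * (3 * s) := by
    apply mul_le_mul_of_nonneg_right _ (by positivity)
    linarith
  nlinarith

/-- The main theorem on structured parts. -/
theorem structured (θ : ℝ) (hθ : θ * Real.binEntropy (1 - 1 / √2) < Real.log 2)
    (δ ε : ℝ) (hδ : 0 < δ) (hε : 0 < ε) :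
    ∃ μ : ℝ, 0 < μ ∧ ∃ n₀ : ℕ, ∀ n ≥ n₀, ∀ F : Finset (Fs (2 * n)), ∀ (M : ℕ)
      (C : Fin M → Finset (Fs (2 * n))), (M : ℝ) ≤ 2 ^ (μ * n) →
      (∀ A, A ∈ F ↔ ∃ k, A ∈ C k) → (∀ k l, k ≠ l → Disjoint (C k) (C l)) →
      (∀ k, TraceDetermined θ μ (C k) ∨ Symmetric δ (C k)) →
      (#(unions F) : ℝ) ≤ (#F : ℝ) ^ 2 / 4 + ε * 4 ^ n := by
  classical
  set g : ℝ := Real.log 2 - θ * Real.binEntropy (1 - 1 / √2) with hg
  have hg0 : 0 < g := by linarith
  set e : ℝ := min (ε / 2) (min (g / 12) (δ / 20)) with he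
  have he0 : 0 < e := lt_min (by positivity) (lt_min (by positivity) (by positivity))
  have he1 : e ≤ ε / 2 := min_le_left _ _
  have he2 : e ≤ g / 12 := (min_le_right _ _).trans (min_le_left _ _)
  have he3 : e ≤ δ / 20 := (min_le_right _ _).trans (min_le_right _ _)
  obtain ⟨μ₀, hμ₀, n₁, hmain⟩ := local_structure e he0
  set μ : ℝ := min (μ₀ / 2) (g / 8) with hμ
  have hμpos : 0 < μ := lt_min (by positivity) (by positivity)
  have hμ1 : μ ≤ μ₀ / 2 := min_le_left _ _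
  have hμ2 : μ ≤ g / 8 := min_le_right _ _
  obtain ⟨n2, hn2⟩ := exists_nat_gt (8 / (g * e))
  obtain ⟨n3, hn3⟩ := exists_nat_gt (6 / μ₀)
  refine ⟨μ, hμpos, n₁ + n2 + n3 + 1, ?_⟩
  intro n hn F M C hM hcov hdisj hpart
  have hn0 : 0 < n := by omega
  have hnr : (0 : ℝ) < n := by exact_mod_cast hn0
  obtain ⟨P, hPd⟩ : ∃ P : ℝ, P = 2 ^ n := ⟨_, rfl⟩
  have hP : 0 < P := by rw [hPd]; positivity
  have h4n : (4 : ℝ) ^ n = P * P := by rw [hPd, ← mul_pow]; norm_num
  obtain ⟨m, hm⟩ : ∃ m : ℝ, m = #F := ⟨_, rfl⟩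
  have hm0 : 0 ≤ m := by rw [hm]; positivity
  have hU4 := unions_le_pow F
  by_cases hbig : 2 * P ≤ m
  · rw [← hm]
    rw [h4n] at hU4 ⊢
    have h1 : (2 * P) * (2 * P) ≤ m * m := mul_self_le_mul_self (by positivity) hbig
    have h2 : 0 < ε * (P * P) := by positivity
    nlinarith
  push Not at hbig
  -- test sets
  have hex : ∀ k, ∃ I D D' : Fs (2 * n), ((#I : ℝ) ≤ θ * n ∧
      ∀ T : Fs (2 * n), (#((C k).filter fun A => A ∩ I = T) : ℝ) ≤ 2 ^ (μ * n)) ∨
      (∃ σ : Equiv.Perm (Fin (2 * n)), D' = D.map σ.symm.toEmbedding ∧ δ * n ≤ (#D : ℝ) ∧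
        ∀ A ∈ C k, symmDiff (A.map σ.toEmbedding) D ∈ C k) := by
    intro k
    rcases hpart k with ⟨I, hI1, hI2⟩ | ⟨σ, D, hD, hD2⟩
    · exact ⟨I, ∅, ∅, Or.inl ⟨hI1, hI2⟩⟩
    · exact ⟨∅, D, D.map σ.symm.toEmbedding, Or.inr ⟨σ, rfl, hD, hD2⟩⟩
  choose I D D' hID using hex
  set TT : Finset (Fs (2 * n)) := univ.image I ∪ univ.image D ∪ univ.image D' with hTT
  have hexp : (2 : ℝ) ^ (μ * (n : ℝ)) ≤ Real.exp (μ * n) := by
    rw [Real.rpow_def_of_pos (by norm_num)]
    apply Real.exp_le_exp.2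
    have h1 : Real.log 2 ≤ 1 := by
      have := Real.log_le_sub_one_of_pos (show (0 : ℝ) < 2 by norm_num)
      linarith
    have h2 : 0 ≤ μ * n := by positivity
    nlinarith
  have hMe : (M : ℝ) ≤ Real.exp (μ * n) := hM.trans hexp
  have hTTc : (#TT : ℝ) ≤ Real.exp (μ₀ * n) := by
    have h0 : ∀ J : Fin M → Fs (2 * n), #(univ.image J) ≤ M := by
      intro J
      refine card_image_le.trans ?_
      rw [card_univ, Fintype.card_fin]
    have h1 : #TT ≤ 3 * M := by
      have h5 : 3 * M = M + M + M := by ring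
      rw [h5, hTT]
      refine (card_union_le _ _).trans (Nat.add_le_add ?_ (h0 D'))
      exact (card_union_le _ _).trans (Nat.add_le_add (h0 I) (h0 D))
    have h2 : (#TT : ℝ) ≤ 3 * M := by exact_mod_cast h1
    have h3 : (3 : ℝ) ≤ Real.exp (μ₀ / 2 * n) := by
      have h4 := Real.add_one_le_exp (μ₀ / 2 * n)
      have h5 : (n3 : ℝ) ≤ n := by exact_mod_cast (by omega : n3 ≤ n)
      have h6 : 6 / μ₀ < n := by linarith
      rw [div_lt_iff₀ hμ₀] at h6
      linarith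
    calc (#TT : ℝ) ≤ 3 * M := h2
      _ ≤ Real.exp (μ₀ / 2 * n) * Real.exp (μ * n) := by gcongr
      _ = Real.exp (μ₀ / 2 * n + μ * n) := by rw [Real.exp_add]
      _ ≤ Real.exp (μ₀ * n) := by
          apply Real.exp_le_exp.2
          have : μ * n ≤ μ₀ / 2 * n := mul_le_mul_of_nonneg_right hμ1 hnr.le
          linarith
  obtain ⟨F0, hF0, hbal, hU, -⟩ := hmain n (by omega) F TT hTTc
  have hIT : ∀ k, I k ∈ TT := fun k =>
    mem_union_left _ (mem_union_left _ (mem_image_of_mem I (mem_univ k)))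
  have hDT : ∀ k, D k ∈ TT := fun k =>
    mem_union_left _ (mem_union_right _ (mem_image_of_mem D (mem_univ k)))
  have hDT' : ∀ k, D' k ∈ TT := fun k =>
    mem_union_right _ (mem_image_of_mem D' (mem_univ k))
  -- the parts
  have hk : ∀ k, (#(F0 ∩ C k) : ℝ) ≤ (#(C k) : ℝ) / 2 +
      Real.exp (n * Real.log 2 - g / 2 * n - μ * n) := by
    intro k
    have hc0 : (0 : ℝ) ≤ (#(C k) : ℝ) / 2 := by positivity
    rcases hID k with ⟨hI1, hI2⟩ | ⟨σ, hD', hD, hD2⟩
    · have h1 : (#(F0 ∩ C k) : ℝ) ≤ (#{A ∈ C k | BalOn e (I k) A} : ℝ) := by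
        rw [Nat.cast_le]
        apply card_le_card
        intro A hA
        rw [mem_inter] at hA
        rw [mem_filter]
        exact ⟨hA.2, hbal A hA.1 _ (hIT k)⟩
      have h8 := few_balanced (C k) (I k) (L := Real.exp (μ * n)) (ε := e) (Real.exp_pos _).le
        (fun T => by
          refine le_trans ?_ hexp
          convert hI2 T)
      have h9 : (#{A ∈ C k | BalOn e (I k) A} : ℝ) ≤
          Real.exp (n * Real.log 2 - g / 2 * n - μ * n) := by
        refine h8.trans ?_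
        rw [← Real.exp_add]
        apply Real.exp_le_exp.2
        have h9 := gap_aux hg n hnr.le hI1 he2 hμ2 he0.le
        push_cast
        linarith
      linarith
    · have h1 : #(F0 ∩ C k) ≤ #(C k \ F0) := by
        apply card_le_card_of_injOn (fun A => symmDiff (A.map σ.toEmbedding) (D k))
        · intro A hA
          rw [mem_coe, mem_inter] at hA
          rw [mem_coe, mem_sdiff]
          refine ⟨hD2 A hA.2, fun hmem => ?_⟩
          have hb1 := hbal A hA.1 _ (hDT' k)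
          rw [hD'] at hb1
          exact unbal hδ he3 hn0 hD hb1 (hbal _ hmem _ (hDT k))
        · intro A _ B _ hAB
          simp only at hAB
          have h2 := symmDiff_left_injective (D k) hAB
          exact map_injective _ h2
      have h2 : #(F0 ∩ C k) + #(C k \ F0) = #(C k) := by
        rw [inter_comm]
        exact card_inter_add_card_sdiff _ _
      have h3 : 2 * #(F0 ∩ C k) ≤ #(C k) := by omega
      have h4 : 2 * (#(F0 ∩ C k) : ℝ) ≤ #(C k) := by exact_mod_cast h3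
      have h5 := (Real.exp_pos (n * Real.log 2 - g / 2 * n - μ * n)).le
      linarith
  have hsumC : ∑ k : Fin M, (#(C k) : ℝ) = m := by
    have h1 : F = univ.biUnion C := by
      ext A
      rw [hcov A, mem_biUnion]
      simp
    have h2 : #F = ∑ k, #(C k) := by
      rw [h1]
      apply card_biUnion
      intro k _ l _ hkl
      exact hdisj k l hkl
    rw [hm, h2]
    push_cast
    rfl
  have hF0s : (#F0 : ℝ) ≤ ∑ k : Fin M, (#(F0 ∩ C k) : ℝ) := by
    have h1 : F0 ⊆ univ.biUnion fun k => F0 ∩ C k := by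
      intro A hA
      obtain ⟨k, hk⟩ := (hcov A).1 (hF0 hA)
      exact mem_biUnion.2 ⟨k, mem_univ _, mem_inter.2 ⟨hA, hk⟩⟩
    exact_mod_cast (card_le_card h1).trans card_biUnion_le
  have hf0 : (#F0 : ℝ) ≤ m / 2 + Real.exp (n * Real.log 2 - g / 2 * n) := by
    refine hF0s.trans ((sum_le_sum fun k _ => hk k).trans ?_)
    rw [sum_add_distrib, ← sum_div, hsumC, sum_const, card_univ, Fintype.card_fin, nsmul_eq_mul]
    gcongr
    calc (M : ℝ) * Real.exp (n * Real.log 2 - g / 2 * n - μ * n)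
        ≤ Real.exp (μ * n) * Real.exp (n * Real.log 2 - g / 2 * n - μ * n) :=
          mul_le_mul_of_nonneg_right hMe (Real.exp_pos _).le
      _ = _ := by rw [← Real.exp_add]; congr 1; ring
  have h9 : Real.exp (n * Real.log 2 - g / 2 * n) = 2 ^ n * Real.exp (-(g / 2 * n)) := by
    rw [sub_eq_add_neg, Real.exp_add]
    congr 1
    rw [mul_comm, Real.exp_mul, Real.exp_log (by norm_num), Real.rpow_natCast]
  have h10 : Real.exp (-(g / 2 * n)) < e / 4 := by
    rw [Real.exp_neg, inv_lt_comm₀ (Real.exp_pos _) (by positivity)]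
    have h11 := Real.add_one_le_exp (g / 2 * n)
    have h12 : (n2 : ℝ) ≤ n := by exact_mod_cast (by omega : n2 ≤ n)
    have h13 : 8 / (g * e) < n := by linarith
    rw [div_lt_iff₀ (by positivity)] at h13
    rw [inv_eq_one_div, div_lt_iff₀ (by positivity)]
    have h14 : 1 < g / 2 * n * (e / 4) := by
      have : g / 2 * n * (e / 4) = n * (g * e) / 8 := by ring
      rw [this]; linarith
    have h15 : g / 2 * n * (e / 4) ≤ Real.exp (g / 2 * n) * (e / 4) :=
      mul_le_mul_of_nonneg_right (by linarith) (by positivity)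
    linarith
  rw [h9, ← hPd] at hf0
  obtain ⟨s, hs⟩ : ∃ s : ℝ, s = P * Real.exp (-(g / 2 * n)) := ⟨_, rfl⟩
  rw [← hs] at hf0
  have hs0 : 0 ≤ s := by rw [hs]; positivity
  have hs1 : s ≤ P * (e / 4) := by rw [hs]; gcongr
  obtain ⟨f0, hf0d⟩ : ∃ f0 : ℝ, f0 = #F0 := ⟨_, rfl⟩
  rw [← hm, ← hf0d, h4n] at hU
  rw [← hf0d] at hf0
  have hf00 : 0 ≤ f0 := by rw [hf0d]; positivity
  have hf0m : f0 ≤ m := by
    rw [hf0d, hm]; exact_mod_cast card_le_card hF0
  have h20 := phi_aux hf00 hf0m hs0 hf0 hbig.le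
  rw [← hm, h4n]
  have h21 : P * s ≤ P * (P * (e / 4)) := mul_le_mul_of_nonneg_left hs1 hP.le
  have h22 : 0 < P * P := by positivity
  have h23 : e * (P * P) ≤ ε / 2 * (P * P) := mul_le_mul_of_nonneg_right he1 h22.le
  nlinarith

end Pool.Agent.Helper77.TP
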