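import Pool.Agent.Helper77.TP.Cherry

/-! MP_f69198_co: local structure theorem, combinatorial core. -/

namespace Pool.Agent.Helper77.TP

open Finset Pool.Agent.Lead.UB

open scoped Classical in
/-- Members with large degree in the edges with property `Q`. -/
noncomputable def lev {N : ℕ} (F : Finset (Fs N)) (R Q : Fs N → Fs N → Prop) (γ : ℝ) :
    Finset (Fs N) := F.filter fun A => γ * #F ≤ qdeg R Q A

open scoped Classical in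
/-- The combinatorial core: one step of the tolerance ladder. -/
lemma core {N : ℕ} {F : Finset (Fs N)} {R : Fs N → Fs N → Prop}
    (hRF : ∀ A B, R A B → A ∈ F ∧ B ∈ F) (hRs : ∀ A B, R A B → R B A)
    {Q₁ Q₂ Q : Fs N → Fs N → Prop} (hQs : ∀ A B, Q₂ A B → Q₂ B A)
    (h23 : ∀ A B, Q₂ A B → Q A B)
    {γ δ μ ν : ℝ} (hγ : 0 < γ)
    (hfew : (#{p : Fs N × Fs N | R p.1 p.2 ∧ γ * #F ≤ qdeg R Q₁ p.1 ∧ ¬ Q₂ p.1 p.2} : ℝ) ≤
      ν * (#F : ℝ) ^ 2 / 2)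
    (hmid : (#(lev F R Q₂ γ \ lev F R Q₁ γ) : ℝ) ≤ μ * #F)
    (hbook : (#{p : Fs N × Fs N | (R p.1 p.2 ∧ ¬ Q₂ p.1 p.2) ∧
      p.1 ∈ F \ lev F R Q₂ γ ∧ p.2 ∈ F \ lev F R Q₂ γ} : ℝ) ≤
        (#(F \ lev F R Q₂ γ) : ℝ) ^ 2 / 2 + δ * (#F : ℝ) ^ 2) :
    (#{p : Fs N × Fs N | R p.1 p.2} : ℝ) ≤ (#(lev F R Q₁ γ) : ℝ) ^ 2 +
      (#(F \ lev F R Q₂ γ) : ℝ) ^ 2 / 2 +
      (2 * μ + 2 * γ + ν + δ) * (#F : ℝ) ^ 2 ∧
    (#{p : Fs N × Fs N | R p.1 p.2 ∧ ¬ Q p.1 p.2} : ℝ) ≤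
      (#(F \ lev F R Q₂ γ) : ℝ) ^ 2 / 2 +
      (2 * μ + 2 * γ + ν + δ) * (#F : ℝ) ^ 2 := by
  have hm0 : 0 ≤ (#F : ℝ) := Nat.cast_nonneg _
  obtain ⟨M, hM⟩ : ∃ M, M = lev F R Q₂ γ \ lev F R Q₁ γ := ⟨_, rfl⟩
  obtain ⟨F0, hF0⟩ : ∃ F0, F0 = lev F R Q₁ γ := ⟨_, rfl⟩
  obtain ⟨F1, hF1⟩ : ∃ F1, F1 = F \ lev F R Q₂ γ := ⟨_, rfl⟩
  rw [← hM] at hmid
  rw [← hF1] at hbook ⊢
  rw [← hF0]
  have hcov : ∀ A ∈ F, A ∈ F0 ∨ A ∈ M ∨ A ∈ F1 := by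
    intro A hA
    rw [hF0, hM, hF1, mem_sdiff, mem_sdiff]
    by_cases k1 : A ∈ lev F R Q₁ γ
    · exact Or.inl k1
    · by_cases k2 : A ∈ lev F R Q₂ γ
      · exact Or.inr (Or.inl ⟨k2, k1⟩)
      · exact Or.inr (Or.inr ⟨hA, k2⟩)
  -- the quasi-random edges at `F1`
  have hPQ : ∀ A ∈ F1, (#{B : Fs N | R A B ∧ Q₂ A B} : ℝ) ≤ γ * #F := by
    intro A hA
    rw [hF1, mem_sdiff, lev, mem_filter] at hA
    have := hA.2
    push Not at this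
    exact (this hA.1).le
  have hF1m : (#F1 : ℝ) ≤ #F := by
    rw [hF1]
    exact_mod_cast card_le_card sdiff_subset
  set PQ : Finset (Fs N × Fs N) := {p | (R p.1 p.2 ∧ Q₂ p.1 p.2) ∧ p.1 ∈ F1} with hPQd
  have cPQ : (#PQ : ℝ) ≤ γ * (#F : ℝ) ^ 2 := by
    have e1 : #PQ = ∑ A ∈ F1, #{q ∈ PQ | q.1 = A} := by
      apply card_eq_sum_card_fiberwise
      intro q hq
      rw [mem_coe, hPQd, mem_filter] at hq
      exact hq.2.2
    rw [e1]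
    push_cast
    have e2 : ∀ A ∈ F1, (#{q ∈ PQ | q.1 = A} : ℝ) ≤ γ * #F := by
      intro A hA
      refine le_trans ?_ (hPQ A hA)
      rw [Nat.cast_le]
      refine card_le_card_of_injOn (fun q => q.2) ?_ ?_
      · intro q hq
        rw [mem_coe, mem_filter, hPQd, mem_filter] at hq
        rw [mem_coe, mem_filter]
        have := hq.1.2.1
        rw [hq.2] at this
        exact ⟨mem_univ _, this⟩
      · intro q hq q' hq' h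
        rw [mem_coe, mem_filter] at hq hq'
        exact Prod.ext (hq.2.trans hq'.2.symm) h
    refine (sum_le_sum e2).trans ?_
    rw [sum_const, nsmul_eq_mul]
    have h1 : (0 : ℝ) ≤ γ * #F := by positivity
    calc (#F1 : ℝ) * (γ * #F) ≤ #F * (γ * #F) := mul_le_mul_of_nonneg_right hF1m h1
      _ = _ := by ring
  set PQ' : Finset (Fs N × Fs N) := {p | (R p.1 p.2 ∧ Q₂ p.1 p.2) ∧ p.2 ∈ F1} with hPQd'
  have cPQ' : #PQ' ≤ #PQ := by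
    refine card_le_card_of_injOn Prod.swap ?_ (Prod.swap_injective.injOn)
    intro q hq
    rw [mem_coe, hPQd', mem_filter] at hq
    rw [mem_coe, hPQd, mem_filter]
    exact ⟨mem_univ _, ⟨hRs _ _ hq.2.1.1, hQs _ _ hq.2.1.2⟩, hq.2.2⟩
  -- the edges at `F0` which are not quasi-random
  set PN : Finset (Fs N × Fs N) := {p | R p.1 p.2 ∧ γ * #F ≤ qdeg R Q₁ p.1 ∧
      ¬ Q₂ p.1 p.2} with hPN
  set PN' : Finset (Fs N × Fs N) := {p | R p.1 p.2 ∧ γ * #F ≤ qdeg R Q₁ p.2 ∧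
      ¬ Q₂ p.1 p.2} with hPN'
  have cPN' : #PN' ≤ #PN := by
    refine card_le_card_of_injOn Prod.swap ?_ (Prod.swap_injective.injOn)
    intro q hq
    rw [mem_coe, hPN', mem_filter] at hq
    rw [mem_coe, hPN, mem_filter]
    exact ⟨mem_univ _, hRs _ _ hq.2.1, hq.2.2.1, fun h => hq.2.2.2 (hQs _ _ h)⟩
  set E11 : Finset (Fs N × Fs N) := {p | (R p.1 p.2 ∧ ¬ Q₂ p.1 p.2) ∧
      p.1 ∈ F1 ∧ p.2 ∈ F1} with hE11
  have hMM : (#(M ×ˢ F) : ℝ) ≤ μ * (#F : ℝ) ^ 2 := by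
    rw [card_product]
    push_cast
    calc (#M : ℝ) * #F ≤ (μ * #F) * #F := mul_le_mul_of_nonneg_right hmid hm0
      _ = _ := by ring
  have hMM' : (#(F ×ˢ M) : ℝ) ≤ μ * (#F : ℝ) ^ 2 := by
    rw [card_product, mul_comm, ← card_product]
    exact hMM
  -- the covering of the non quasi-random edges
  have hsub2 : ∀ p : Fs N × Fs N, R p.1 p.2 → ¬ Q₂ p.1 p.2 →
      p ∈ (M ×ˢ F) ∪ (F ×ˢ M) ∪ PN ∪ PN' ∪ E11 := by
    intro p hp hq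
    have hpF := hRF _ _ hp
    rw [mem_union, mem_union, mem_union, mem_union]
    rcases hcov _ hpF.1 with h1 | h1 | h1
    · refine Or.inl (Or.inl (Or.inr ?_))
      rw [hPN, mem_filter]
      rw [hF0, lev, mem_filter] at h1
      exact ⟨mem_univ _, hp, h1.2, hq⟩
    · exact Or.inl (Or.inl (Or.inl (Or.inl (mem_product.2 ⟨h1, hpF.2⟩))))
    · rcases hcov _ hpF.2 with h2 | h2 | h2
      · refine Or.inl (Or.inr ?_)
        rw [hPN', mem_filter]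
        rw [hF0, lev, mem_filter] at h2
        exact ⟨mem_univ _, hp, h2.2, hq⟩
      · exact Or.inl (Or.inl (Or.inl (Or.inr (mem_product.2 ⟨hpF.1, h2⟩))))
      · refine Or.inr ?_
        rw [hE11, mem_filter]
        exact ⟨mem_univ _, ⟨hp, hq⟩, h1, h2⟩
  have hsub1 : ({p : Fs N × Fs N | R p.1 p.2} : Finset (Fs N × Fs N)) ⊆
      (F0 ×ˢ F0) ∪ PQ ∪ PQ' ∪ ((M ×ˢ F) ∪ (F ×ˢ M) ∪ PN ∪ PN' ∪ E11) := by
    intro p hp
    rw [mem_filter] at hp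
    have hp := hp.2
    have hpF := hRF _ _ hp
    rw [mem_union, mem_union, mem_union]
    by_cases hq : Q₂ p.1 p.2
    · rcases hcov _ hpF.1 with h1 | h1 | h1
      · rcases hcov _ hpF.2 with h2 | h2 | h2
        · exact Or.inl (Or.inl (Or.inl (mem_product.2 ⟨h1, h2⟩)))
        · refine Or.inr ?_
          rw [mem_union, mem_union, mem_union, mem_union]
          exact Or.inl (Or.inl (Or.inl (Or.inr (mem_product.2 ⟨hpF.1, h2⟩))))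
        · refine Or.inl (Or.inr ?_)
          rw [hPQd', mem_filter]
          exact ⟨mem_univ _, ⟨hp, hq⟩, h2⟩
      · refine Or.inr ?_
        rw [mem_union, mem_union, mem_union, mem_union]
        exact Or.inl (Or.inl (Or.inl (Or.inl (mem_product.2 ⟨h1, hpF.2⟩))))
      · refine Or.inl (Or.inl (Or.inr ?_))
        rw [hPQd, mem_filter]
        exact ⟨mem_univ _, ⟨hp, hq⟩, h1⟩
    · exact Or.inr (hsub2 p hp hq)
  have cU : (#((M ×ˢ F) ∪ (F ×ˢ M) ∪ PN ∪ PN' ∪ E11) : ℝ) ≤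
      #(M ×ˢ F) + #(F ×ˢ M) + #PN + #PN' + #E11 := by
    have a1 := card_union_le ((M ×ˢ F) ∪ (F ×ˢ M) ∪ PN ∪ PN') E11
    have a2 := card_union_le ((M ×ˢ F) ∪ (F ×ˢ M) ∪ PN) PN'
    have a3 := card_union_le ((M ×ˢ F) ∪ (F ×ˢ M)) PN
    have a4 := card_union_le (M ×ˢ F) (F ×ˢ M)
    have : #((M ×ˢ F) ∪ (F ×ˢ M) ∪ PN ∪ PN' ∪ E11) ≤
      #(M ×ˢ F) + #(F ×ˢ M) + #PN + #PN' + #E11 := by omega
    exact_mod_cast this
  have cPN2 : (#PN' : ℝ) ≤ #PN := by exact_mod_cast cPN'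
  have cPQ2 : (#PQ' : ℝ) ≤ #PQ := by exact_mod_cast cPQ'
  have hm2 : 0 ≤ γ * (#F : ℝ) ^ 2 := by positivity
  constructor
  · have a1 := card_le_card hsub1
    have a2 := card_union_le ((F0 ×ˢ F0) ∪ PQ ∪ PQ') ((M ×ˢ F) ∪ (F ×ˢ M) ∪ PN ∪ PN' ∪ E11)
    have a3 := card_union_le ((F0 ×ˢ F0) ∪ PQ) PQ'
    have a4 := card_union_le (F0 ×ˢ F0) PQ
    have a5 : (#{p : Fs N × Fs N | R p.1 p.2} : ℝ) ≤
        #(F0 ×ˢ F0) + #PQ + #PQ' + #((M ×ˢ F) ∪ (F ×ˢ M) ∪ PN ∪ PN' ∪ E11) := by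
      have : #{p : Fs N × Fs N | R p.1 p.2} ≤
        #(F0 ×ˢ F0) + #PQ + #PQ' + #((M ×ˢ F) ∪ (F ×ˢ M) ∪ PN ∪ PN' ∪ E11) := by omega
      exact_mod_cast this
    have a6 : (#(F0 ×ˢ F0) : ℝ) = (#F0 : ℝ) ^ 2 := by
      rw [card_product]; push_cast; ring
    rw [a6] at a5
    have e5 : (2 * μ + 2 * γ + ν + δ) * (#F : ℝ) ^ 2 =
        2 * (μ * (#F : ℝ) ^ 2) + 2 * (γ * (#F : ℝ) ^ 2) +
          ν * (#F : ℝ) ^ 2 + δ * (#F : ℝ) ^ 2 := by ring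
    rw [e5]
    linarith
  · have hsub3 : ({p : Fs N × Fs N | R p.1 p.2 ∧ ¬ Q p.1 p.2} :
        Finset (Fs N × Fs N)) ⊆ (M ×ˢ F) ∪ (F ×ˢ M) ∪ PN ∪ PN' ∪ E11 := by
      intro p hp
      rw [mem_filter] at hp
      exact hsub2 p hp.2.1 (fun h => hp.2.2 (h23 _ _ h))
    have a1 : (#{p : Fs N × Fs N | R p.1 p.2 ∧ ¬ Q p.1 p.2} : ℝ) ≤
        #((M ×ˢ F) ∪ (F ×ˢ M) ∪ PN ∪ PN' ∪ E11) := by
      exact_mod_cast card_le_card hsub3
    have e5 : (2 * μ + 2 * γ + ν + δ) * (#F : ℝ) ^ 2 =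
        2 * (μ * (#F : ℝ) ^ 2) + 2 * (γ * (#F : ℝ) ^ 2) +
          ν * (#F : ℝ) ^ 2 + δ * (#F : ℝ) ^ 2 := by ring
    rw [e5]
    linarith

/-- Pigeonhole on the tolerance ladder. -/
lemma ladder {α : Type*} [DecidableEq α] (F : Finset α) (G : ℕ → Finset α) (hG : ∀ k, G k ⊆ F)
    (hmono : ∀ k, G k ⊆ G (k + 1)) (K : ℕ) (hK : 0 < K) :
    ∃ k < K, K * #(G (k + 1) \ G k) ≤ #F := by
  by_contra hcon
  push Not at hcon
  have h1 : ∀ j, #(G 0) + ∑ k ∈ range j, #(G (k + 1) \ G k) = #(G j) := by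
    intro j
    induction j with
    | zero => simp
    | succ j ih =>
      rw [sum_range_succ, ← add_assoc, ih, add_comm]
      exact card_sdiff_add_card_eq_card (hmono j)
  have h2 : K * #F < K * ∑ k ∈ range K, #(G (k + 1) \ G k) := by
    rw [mul_sum]
    calc K * #F = ∑ k ∈ range K, #F := by rw [sum_const, card_range, smul_eq_mul]
      _ < _ := by
        apply sum_lt_sum_of_nonempty
        · exact ⟨0, mem_range.2 hK⟩
        · intro k hk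
          exact hcon k (mem_range.1 hk)
  have h3 : #F < ∑ k ∈ range K, #(G (k + 1) \ G k) := lt_of_mul_lt_mul_left h2 (Nat.zero_le _)
  have h4 := h1 K
  have h5 := card_le_card (hG K)
  omega

end Pool.Agent.Helper77.TP
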