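import Pool.Agent.Helper77.TP.Struct

/-! MP_f69198_co: local structure theorem. -/

namespace Pool.Agent.Helper77.TP

open Finset Pool.Agent.Lead.UB

lemma err_aux {ε γ η n : ℝ} (hε : 0 < ε) (hγ : 0 < γ) (hη : 0 < η) (hn : 0 < n)
    (h : 128 / (γ * ε ^ 2 * η ^ 2) < n) : 8 / (γ * ε * η ^ 2 * n) ≤ ε / 16 := by
  rw [div_lt_iff₀ (by positivity)] at h
  rw [div_le_iff₀ (by positivity)]
  have e : ε / 16 * (γ * ε * η ^ 2 * n) = (n * (γ * ε ^ 2 * η ^ 2)) / 16 := by ring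
  rw [e]
  linarith

lemma small_aux {ε P m : ℝ} (hε : 0 < ε) (hP : 0 < P) (hm : m < 2 * P) (h : 4 / ε < P) :
    m ≤ ε / 2 * (P * P) := by
  rw [div_lt_iff₀ hε] at h
  have h1 : 4 * P ≤ (P * ε) * P := mul_le_mul_of_nonneg_right h.le hP.le
  have e : ε / 2 * (P * P) = (P * ε) * P / 2 := by ring
  rw [e]
  linarith

open scoped Classical in
lemma lev_mono {N : ℕ} (F : Finset (Fs N)) (R : Fs N → Fs N → Prop) (γ : ℝ)
    {Q Q' : Fs N → Fs N → Prop} (h : ∀ A B, Q A B → Q' A B) : lev F R Q γ ⊆ lev F R Q' γ := by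
  intro A hA
  rw [lev, mem_filter] at hA ⊢
  refine ⟨hA.1, hA.2.trans ?_⟩
  have : qdeg R Q A ≤ qdeg R Q' A := by
    unfold qdeg
    apply card_le_card
    intro B hB
    rw [mem_filter] at hB ⊢
    exact ⟨hB.1, hB.2.1, h _ _ hB.2.2⟩
  exact_mod_cast this

open scoped Classical in
/-- The unions which have a representation that is not quasi-random on some test set. -/
noncomputable def odd {N : ℕ} (ε : ℝ) (TT F : Finset (Fs N)) : Finset (Fs N) :=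
  univ.filter fun S => ∃ A ∈ F, ∃ B ∈ F, A ∪ B = S ∧ ¬ QRL ε TT A B

lemma odd_subset {N : ℕ} (ε : ℝ) (TT F : Finset (Fs N)) : odd ε TT F ⊆ unions F := by
  classical
  intro S hS
  rw [odd, mem_filter] at hS
  obtain ⟨_, A, hA, B, hB, h, _⟩ := hS
  exact mem_unions.2 ⟨A, hA, B, hB, h⟩

/-- The local structure theorem. -/
theorem local_structure (ε : ℝ) (hε : 0 < ε) : ∃ μ : ℝ, 0 < μ ∧ ∃ n₀ : ℕ, ∀ n ≥ n₀,
    ∀ F TT : Finset (Fs (2 * n)), (#TT : ℝ) ≤ Real.exp (μ * n) → ∃ F0 ⊆ F,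
      (∀ A ∈ F0, ∀ T ∈ TT, BalOn ε T A) ∧
      (#(unions F) : ℝ) ≤ (#F0 : ℝ) ^ 2 / 2 + ((#F : ℝ) - #F0) ^ 2 / 4 + ε * 4 ^ n ∧
      (#(odd ε TT F) : ℝ) ≤ ((#F : ℝ) - #F0) ^ 2 / 4 + ε * 4 ^ n := by
  classical
  -- constants
  obtain ⟨K, hK⟩ := exists_nat_gt (32 / ε)
  have hK0 : 0 < K := by
    have : (0 : ℝ) < K := lt_trans (by positivity) hK
    exact_mod_cast this
  have hK0r : (0 : ℝ) < K := by exact_mod_cast hK0
  set ε₀ : ℝ := ε / 3 ^ K with hε₀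
  have hε₀0 : 0 < ε₀ := by positivity
  set γ : ℝ := ε / 32 with hγ
  have hγ0 : 0 < γ := by positivity
  set η : ℝ := ε₀ / 5 with hη
  have hη0 : 0 < η := by positivity
  obtain ⟨μ₁, hμ₁, n1, hn1⟩ := book_bound ε₀ (ε / 16) ε hε₀0 (by positivity) hε
  obtain ⟨n2, hn2⟩ := exists_nat_gt (128 / (γ * ε ^ 2 * η ^ 2))
  obtain ⟨n3, hn3⟩ := exists_nat_gt (4 / ε)
  set μ : ℝ := min μ₁ (η ^ 2) with hμ
  have hμ0 : 0 < μ := lt_min hμ₁ (by positivity)
  have hμ1 : μ ≤ μ₁ := min_le_left _ _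
  have hμ2 : μ ≤ η ^ 2 := min_le_right _ _
  refine ⟨μ, hμ0, n1 + n2 + n3 + 1, ?_⟩
  intro n hn F TT hTT
  have hn0 : 0 < n := by omega
  have hn0r : (0 : ℝ) < n := by exact_mod_cast hn0
  have h4n : (4 : ℝ) ^ n = 2 ^ n * 2 ^ n := by rw [← mul_pow]; norm_num
  have h2pos : (0 : ℝ) < 2 ^ n := by positivity
  have h2N : (2 : ℝ) ^ (2 * n) = 4 ^ n := by rw [pow_mul]; norm_num
  have hNc : ((2 * n : ℕ) : ℝ) = 2 * (n : ℝ) := by push_cast; ring
  obtain ⟨m, hm⟩ : ∃ m : ℝ, m = #F := ⟨_, rfl⟩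
  have hm0 : 0 ≤ m := by rw [hm]; positivity
  have hU4 := unions_le_pow F
  have hUm := unions_le_sq F
  have hoU : (#(odd ε TT F) : ℝ) ≤ #(unions F) := by
    exact_mod_cast card_le_card (odd_subset ε TT F)
  have hε4 : 0 < ε * 4 ^ n := by positivity
  by_cases hbig : 2 * 2 ^ n ≤ m
  · have h1 : (2 * (2 : ℝ) ^ n) ^ 2 ≤ m ^ 2 := by gcongr
    have e : (2 * (2 : ℝ) ^ n) ^ 2 = 4 * 4 ^ n := by rw [h4n]; ring
    rw [e] at h1
    refine ⟨∅, empty_subset _, ?_, ?_, ?_⟩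
    · intro A hA
      exact absurd hA (notMem_empty _)
    · rw [card_empty, ← hm]
      push_cast
      nlinarith
    · rw [card_empty, ← hm]
      push_cast
      nlinarith
  push Not at hbig
  by_cases hsmall : m ^ 2 < ε * 4 ^ n
  · rw [← hm] at hUm
    refine ⟨∅, empty_subset _, ?_, ?_, ?_⟩
    · intro A hA
      exact absurd hA (notMem_empty _)
    · rw [card_empty, ← hm]
      push_cast
      nlinarith [sq_nonneg m]
    · rw [card_empty, ← hm]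
      push_cast
      nlinarith [sq_nonneg m]
  push Not at hsmall
  have hm4 : m ^ 2 ≤ 4 * 4 ^ n := by
    have h1 : m ^ 2 ≤ (2 * 2 ^ n) ^ 2 := by gcongr
    have e : (2 * (2 : ℝ) ^ n) ^ 2 = 4 * 4 ^ n := by rw [h4n]; ring
    rw [e] at h1
    exact h1
  have hmpos : 0 < m := by
    rcases hm0.eq_or_lt with h | h
    · rw [← h] at hsmall
      norm_num at hsmall
      exact absurd hsmall (not_le.2 hε4)
    · exact h
  obtain ⟨R, hRF, hRs, hRi, hdet, hE, hEN⟩ := exists_rel F (fun A B => ¬ QRL ε TT A B)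
    (fun A B h h' => h (qrl_symm h'))
  set tol : ℕ → ℝ := fun k => ε₀ * 3 ^ k with htol
  have htol0 : ∀ k, 0 < tol k := fun k => by simp only [htol]; positivity
  have htolm : ∀ k, tol k ≤ tol (k + 1) := by
    intro k
    simp only [htol]
    rw [pow_succ]
    have : 0 < ε₀ * 3 ^ k := by positivity
    nlinarith
  have htol0' : ∀ k, ε₀ ≤ tol k := by
    intro k
    simp only [htol]
    have : (1 : ℝ) ≤ 3 ^ k := one_le_pow₀ (by norm_num)
    nlinarith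
  have htolK : ∀ k ≤ K, tol k ≤ ε := by
    intro k hk
    simp only [htol, hε₀]
    have h1 : (3 : ℝ) ^ k ≤ 3 ^ K := pow_le_pow_right₀ (by norm_num) hk
    rw [div_mul_eq_mul_div, div_le_iff₀ (by positivity)]
    gcongr
  have hlevm : ∀ k, lev F R (QRL (tol k) TT) γ ⊆ lev F R (QRL (tol (k + 1)) TT) γ :=
    fun k => lev_mono F R γ (fun A B h => qrl_mono (htolm k) h)
  obtain ⟨k, hkK, hk⟩ := ladder F (fun k => lev F R (QRL (tol k) TT) γ)
    (fun k => filter_subset _ _) hlevm K hK0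
  have hmid : (#(lev F R (QRL (tol (k + 1)) TT) γ \ lev F R (QRL (tol k) TT) γ) : ℝ) ≤
      (ε / 32) * #F := by
    have h1 : (K : ℝ) * #(lev F R (QRL (tol (k + 1)) TT) γ \ lev F R (QRL (tol k) TT) γ) ≤
        #F := by
      exact_mod_cast hk
    have h2 : 32 ≤ K * ε := by
      rw [div_lt_iff₀ hε] at hK
      exact hK.le
    have h3 : (0 : ℝ) ≤ #(lev F R (QRL (tol (k + 1)) TT) γ \ lev F R (QRL (tol k) TT) γ) :=
      Nat.cast_nonneg _
    have h4 : 32 * (#(lev F R (QRL (tol (k + 1)) TT) γ \ lev F R (QRL (tol k) TT) γ) : ℝ) ≤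
        ε * #F := by
      calc 32 * (#(lev F R (QRL (tol (k + 1)) TT) γ \ lev F R (QRL (tol k) TT) γ) : ℝ)
          ≤ (K * ε) * #(lev F R (QRL (tol (k + 1)) TT) γ \ lev F R (QRL (tol k) TT) γ) :=
            mul_le_mul_of_nonneg_right h2 h3
        _ = ε * (K * #(lev F R (QRL (tol (k + 1)) TT) γ \ lev F R (QRL (tol k) TT) γ)) := by ring
        _ ≤ ε * #F := mul_le_mul_of_nonneg_left h1 hε.le
    linarith
  have hbook := hn1 (2 * n) (by omega) F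
    (fun A B => R A B ∧ ¬ QRL (tol (k + 1)) TT A B) TT
    (hTT.trans (Real.exp_le_exp.2 (by
      push_cast
      nlinarith)))
    (fun A B h => hRF A B h.1) (fun A B h => ⟨hRs _ _ h.1, fun hq => h.2 (qrl_symm hq)⟩)
    (fun A h => hRi A h.1) (fun A B A' B' h h' => hdet A B A' B' h.1 h'.1)
    (fun A B h hq => h.2 (qrl_mono (htol0' _) hq)) (by
      rw [← hm, h2N]; exact hsmall)
    (F \ lev F R (QRL (tol (k + 1)) TT) γ) sdiff_subset
  have hN2 : 0 < 2 * n := by omega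
  have h12 : 2 * tol k + 5 * η ≤ tol (k + 1) := by
    have h1 := htol0' k
    simp only [htol, hη] at h1 ⊢
    rw [pow_succ]
    nlinarith
  -- few pairs
  have hfew0 := few_pairs (ε := tol k) (η := η) (γ := γ) hRF hdet (htol0 k) hη0 hγ0
    (by rw [← hm]; exact hmpos) (fun T => hoeff T hη0) TT
  have hfew : (#{p : Fs (2 * n) × Fs (2 * n) | R p.1 p.2 ∧
      γ * #F ≤ qdeg R (QRL (tol k) TT) p.1 ∧ ¬ QRL (tol (k + 1)) TT p.1 p.2} : ℝ) ≤
      8 / (γ * ε * η ^ 2 * n) * (#F : ℝ) ^ 2 / 2 := by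
    have h1 : (#{p : Fs (2 * n) × Fs (2 * n) | R p.1 p.2 ∧
        γ * #F ≤ qdeg R (QRL (tol k) TT) p.1 ∧ ¬ QRL (tol (k + 1)) TT p.1 p.2} : ℝ) ≤
        (#{p : Fs (2 * n) × Fs (2 * n) | R p.1 p.2 ∧
        γ * #F ≤ qdeg R (QRL (tol k) TT) p.1 ∧ ¬ QRL (2 * tol k + 5 * η) TT p.1 p.2} : ℝ) := by
      rw [Nat.cast_le]
      apply card_le_card
      intro p hp
      rw [mem_filter] at hp ⊢
      exact ⟨hp.1, hp.2.1, hp.2.2.1, fun h => hp.2.2.2 (qrl_mono h12 h)⟩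
    refine h1.trans (hfew0.trans ?_)
    rw [← hm, hNc, h2N]
    have h2 : Real.exp (-(2 * η ^ 2 * (2 * (n : ℝ)))) * Real.exp (μ * n) ≤ 1 / (3 * η ^ 2 * n) := by
      have h3 : Real.exp (-(2 * η ^ 2 * (2 * (n : ℝ)))) * Real.exp (μ * n) ≤
          Real.exp (-(3 * η ^ 2 * n)) := by
        rw [← Real.exp_add]
        apply Real.exp_le_exp.2
        have : μ * n ≤ η ^ 2 * n := mul_le_mul_of_nonneg_right hμ2 hn0r.le
        linarith
      refine h3.trans ?_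
      rw [Real.exp_neg, inv_eq_one_div]
      apply one_div_le_one_div_of_le (by positivity)
      have := Real.add_one_le_exp (3 * η ^ 2 * n)
      linarith
    have h5 : (4 : ℝ) ^ n ≤ m ^ 2 / ε := by
      rw [le_div_iff₀ hε]
      linarith
    calc (#TT : ℝ) * (6 * (2 * (4 ^ n * Real.exp (-(2 * η ^ 2 * (2 * (n : ℝ)))))) / γ)
        ≤ Real.exp (μ * n) * (6 * (2 * (m ^ 2 / ε * Real.exp (-(2 * η ^ 2 * (2 * (n : ℝ)))))) / γ)
          := by gcongr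
      _ = 12 / (γ * ε) * (Real.exp (-(2 * η ^ 2 * (2 * (n : ℝ)))) * Real.exp (μ * n)) * m ^ 2 := by
          field_simp
          ring
      _ ≤ 12 / (γ * ε) * (1 / (3 * η ^ 2 * n)) * m ^ 2 := by gcongr
      _ = 8 / (γ * ε * η ^ 2 * n) * m ^ 2 / 2 := by
          field_simp
          ring
  obtain ⟨c1, c2⟩ := core (Q₁ := QRL (tol k) TT) (Q₂ := QRL (tol (k + 1)) TT)
    (Q := QRL ε TT) (μ := ε / 32) (δ := ε / 16) (ν := 8 / (γ * ε * η ^ 2 * n)) hRF hRs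
    (fun A B h => qrl_symm h) (fun A B h => qrl_mono (htolK (k + 1) (by omega)) h) hγ0 hfew hmid
    (by convert hbook)
  obtain ⟨f0, hf0⟩ : ∃ f0 : ℝ, f0 = #(lev F R (QRL (tol k) TT) γ) := ⟨_, rfl⟩
  obtain ⟨f1, hf1⟩ : ∃ f1 : ℝ, f1 = #(F \ lev F R (QRL (tol (k + 1)) TT) γ) := ⟨_, rfl⟩
  rw [← hf0, ← hf1, ← hm] at c1
  rw [← hf1, ← hm] at c2
  rw [← hm] at hE hEN
  have hEN' : 2 * ((#(odd ε TT F) : ℝ) - m) ≤
      (#{p : Fs (2 * n) × Fs (2 * n) | R p.1 p.2 ∧ ¬ QRL ε TT p.1 p.2} : ℝ) := by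
    unfold odd
    convert hEN
  have c2' : (#{p : Fs (2 * n) × Fs (2 * n) | R p.1 p.2 ∧ ¬ QRL ε TT p.1 p.2} : ℝ) ≤
      f1 ^ 2 / 2 + (2 * (ε / 32) + 2 * γ + 8 / (γ * ε * η ^ 2 * ↑n) + ε / 16) * m ^ 2 := by
    convert c2
  have hf1m : f1 ^ 2 ≤ (m - f0) ^ 2 := by
    have h1 : #(F \ lev F R (QRL (tol (k + 1)) TT) γ) + #(lev F R (QRL (tol k) TT) γ) ≤ #F := by
      have a1 := card_sdiff_add_card_eq_card
        (show lev F R (QRL (tol (k + 1)) TT) γ ⊆ F from filter_subset _ _)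
      have a2 := card_le_card (hlevm k)
      omega
    have h2 : f1 + f0 ≤ m := by
      rw [hf0, hf1, hm]
      exact_mod_cast h1
    have h3 : 0 ≤ f1 := by rw [hf1]; positivity
    have h4 : f1 ≤ m - f0 := by linarith
    gcongr
  have herr : 2 * (ε / 32) + 2 * γ + 8 / (γ * ε * η ^ 2 * n) + ε / 16 ≤ ε / 4 := by
    have h2 : (n2 : ℝ) ≤ n := by exact_mod_cast (by omega : n2 ≤ n)
    have h1 := err_aux hε hγ0 hη0 hn0r (lt_of_lt_of_le hn2 h2)
    have h3 : γ = ε / 32 := hγ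
    linarith
  have hm2 : (0 : ℝ) ≤ m ^ 2 := by positivity
  have herr2 : (2 * (ε / 32) + 2 * γ + 8 / (γ * ε * η ^ 2 * n) + ε / 16) * m ^ 2 ≤
      ε * 4 ^ n := by
    calc (2 * (ε / 32) + 2 * γ + 8 / (γ * ε * η ^ 2 * n) + ε / 16) * m ^ 2
        ≤ ε / 4 * m ^ 2 := mul_le_mul_of_nonneg_right herr hm2
      _ ≤ ε / 4 * (4 * 4 ^ n) := by gcongr
      _ = ε * 4 ^ n := by ring
  have hmsmall : m ≤ ε / 2 * 4 ^ n := by
    have h1 : 4 / ε < 2 ^ n := by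
      have h2 : (n3 : ℝ) ≤ n := by exact_mod_cast (by omega : n3 ≤ n)
      have h3 : (n : ℝ) ≤ 2 ^ n := by exact_mod_cast (Nat.lt_two_pow_self).le
      linarith
    rw [h4n]
    exact small_aux hε h2pos hbig h1
  refine ⟨lev F R (QRL (tol k) TT) γ, filter_subset _ _, ?_, ?_, ?_⟩
  · intro A hA T hT
    rw [lev, mem_filter] at hA
    have hpos : 0 < qdeg R (QRL (tol k) TT) A := by
      have h2 : (0 : ℝ) < qdeg R (QRL (tol k) TT) A := by
        refine lt_of_lt_of_le ?_ hA.2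
        rw [← hm]
        positivity
      exact_mod_cast h2
    unfold qdeg at hpos
    obtain ⟨B, hB⟩ := card_pos.1 hpos
    rw [mem_filter] at hB
    exact (qron_mono (htolK k (by omega)) (hB.2.2 T hT)).1
  · rw [← hf0, ← hm]
    linarith
  · rw [← hf0, ← hm]
    linarith

end Pool.Agent.Helper77.TP
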