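import Pool.Agent.Helper77.TP.Many

/-! MP_f69198_co: counting members of small density on an information set. -/

namespace Pool.Agent.Helper77.TP

open Finset Pool.Agent.Lead.UB

lemma sqrt2_facts : √2 * √2 = 2 ∧ 1 < √2 ∧ √2 < 3 / 2 := by
  refine ⟨Real.mul_self_sqrt (by norm_num), ?_, ?_⟩
  · rw [show (1 : ℝ) = √1 by simp]
    exact Real.sqrt_lt_sqrt (by norm_num) (by norm_num)
  · rw [show (3 / 2 : ℝ) = √((3 / 2) ^ 2) by rw [Real.sqrt_sq (by norm_num)]]
    exact Real.sqrt_lt_sqrt (by norm_num) (by norm_num)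

/-- The entropy of `1 - 1/√2`. -/
lemma entropy_eq : Real.binEntropy (1 - 1 / √2) =
    Real.log √2 + (1 - 1 / √2) * Real.log (1 + √2) := by
  obtain ⟨h1, h2, h3⟩ := sqrt2_facts
  have hs : (0 : ℝ) < √2 := by positivity
  rw [Real.binEntropy]
  have e1 : (1 - (1 - 1 / √2))⁻¹ = √2 := by
    rw [sub_sub_cancel, one_div, inv_inv]
  have e2 : (1 - 1 / √2)⁻¹ = √2 * (1 + √2) := by
    rw [inv_eq_iff_eq_inv]
    refine eq_inv_of_mul_eq_one_left ?_
    have e3 : 1 / √2 * √2 = 1 := one_div_mul_cancel hs.ne'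
    calc (1 - 1 / √2) * (√2 * (1 + √2)) = (√2 - 1 / √2 * √2) * (1 + √2) := by ring
      _ = 1 := by rw [e3]; nlinarith
  rw [e1, e2, Real.log_mul hs.ne' (by positivity)]
  ring

/-- Few subsets of `I` have density at most `1 - 1/√2` up to an error. -/
lemma count_small {N : ℕ} (I : Fs N) {a : ℝ} :
    (#{T ∈ I.powerset | (#T : ℝ) ≤ (1 - 1 / √2) * #I + a} : ℝ) ≤
      Real.exp (#I * Real.binEntropy (1 - 1 / √2) + a * Real.log (1 + √2)) := by
  classical
  obtain ⟨h1, h2, h3⟩ := sqrt2_facts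
  have hs : (0 : ℝ) < √2 := by positivity
  set J : ℝ := (1 - 1 / √2) * #I + a with hJ
  have hx : (√2 - 1) * (1 + √2) = 1 := by nlinarith
  have hx0 : 0 < √2 - 1 := by linarith
  have e1 : ∑ T ∈ I.powerset, (√2 - 1) ^ #T = √2 ^ #I := by
    have := Finset.prod_add (fun _ : Fin N => √2 - 1) (fun _ => (1 : ℝ)) I
    simp only [prod_const, one_pow, mul_one, sub_add_cancel] at this
    exact this.symm
  have hlog : Real.log (√2 - 1) = -Real.log (1 + √2) := by
    have : √2 - 1 = (1 + √2)⁻¹ := eq_inv_of_mul_eq_one_left hx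
    rw [this, Real.log_inv]
  have hlp : 0 < Real.log (1 + √2) := Real.log_pos (by linarith)
  have e2 : ∀ T ∈ ({T ∈ I.powerset | (#T : ℝ) ≤ J} : Finset (Fs N)),
      Real.exp (-(J * Real.log (1 + √2))) ≤ (√2 - 1) ^ #T := by
    intro T hT
    rw [mem_filter] at hT
    rw [← Real.exp_log (pow_pos hx0 #T), Real.log_pow, hlog]
    apply Real.exp_le_exp.2
    have := mul_le_mul_of_nonneg_right hT.2 hlp.le
    linarith
  have e3 : (#{T ∈ I.powerset | (#T : ℝ) ≤ J} : ℝ) * Real.exp (-(J * Real.log (1 + √2))) ≤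
      √2 ^ #I := by
    rw [← e1, ← nsmul_eq_mul, ← sum_const]
    refine (sum_le_sum e2).trans ?_
    apply sum_le_sum_of_subset_of_nonneg (filter_subset _ _)
    intro T _ _
    positivity
  have e4 : √2 ^ #I = Real.exp (#I * Real.log √2) := by
    rw [mul_comm, Real.exp_mul, Real.exp_log hs, Real.rpow_natCast]
  have e5 : (#{T ∈ I.powerset | (#T : ℝ) ≤ J} : ℝ) ≤
      Real.exp (#I * Real.log √2) * Real.exp (J * Real.log (1 + √2)) := by
    rw [e4] at e3
    have h5 : Real.exp (-(J * Real.log (1 + √2))) * Real.exp (J * Real.log (1 + √2)) = 1 := by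
      rw [← Real.exp_add]; simp
    calc (#{T ∈ I.powerset | (#T : ℝ) ≤ J} : ℝ)
        = (#{T ∈ I.powerset | (#T : ℝ) ≤ J} : ℝ) * Real.exp (-(J * Real.log (1 + √2))) *
          Real.exp (J * Real.log (1 + √2)) := by rw [mul_assoc, h5, mul_one]
      _ ≤ _ := mul_le_mul_of_nonneg_right e3 (Real.exp_pos _).le
  refine e5.trans (le_of_eq ?_)
  rw [← Real.exp_add, entropy_eq, hJ]
  congr 1
  ring

/-- `C` is determined, up to multiplicity `2 ^ (μ n)`, by its traces on at most `θ n` points. -/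
def TraceDetermined (θ μ : ℝ) {n : ℕ} (C : Finset (Finset (Fin (2 * n)))) : Prop :=
  ∃ I : Finset (Fin (2 * n)), (#I : ℝ) ≤ θ * n ∧
    ∀ T : Finset (Fin (2 * n)), (#(C.filter fun A => A ∩ I = T) : ℝ) ≤ 2 ^ (μ * n)

open scoped Classical in
/-- Few members of a trace-determined family are balanced on its information set. -/
lemma few_balanced {n : ℕ} (C : Finset (Fs (2 * n))) (I : Fs (2 * n)) {L ε : ℝ} (hL : 0 ≤ L)
    (hC : ∀ T : Fs (2 * n), (#{A ∈ C | A ∩ I = T} : ℝ) ≤ L) :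
    (#{A ∈ C | BalOn ε I A} : ℝ) ≤ L * Real.exp (#I * Real.binEntropy (1 - 1 / √2) +
      ε * (2 * n : ℕ) * Real.log (1 + √2)) := by
  have h1 := count_small I (a := ε * (2 * n : ℕ))
  have h2 : #{A ∈ C | BalOn ε I A} =
      ∑ T ∈ {T ∈ I.powerset | (#T : ℝ) ≤ (1 - 1 / √2) * #I + ε * (2 * n : ℕ)},
        #{A ∈ ({A ∈ C | BalOn ε I A} : Finset (Fs (2 * n))) | A ∩ I = T} := by
    apply card_eq_sum_card_fiberwise
    intro A hA
    rw [mem_coe, mem_filter] at hA
    rw [mem_coe, mem_filter, mem_powerset]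
    refine ⟨inter_subset_right, ?_⟩
    have := (abs_le.1 hA.2).2
    linarith
  rw [h2]
  push_cast
  calc ∑ T ∈ {T ∈ I.powerset | (#T : ℝ) ≤ (1 - 1 / √2) * #I + ε * (2 * (n : ℝ))},
        (#{A ∈ ({A ∈ C | BalOn ε I A} : Finset (Fs (2 * n))) | A ∩ I = T} : ℝ)
      ≤ ∑ T ∈ {T ∈ I.powerset | (#T : ℝ) ≤ (1 - 1 / √2) * #I + ε * (2 * (n : ℝ))}, L := by
        apply sum_le_sum
        intro T _
        refine le_trans ?_ (hC T)
        rw [Nat.cast_le]
        apply card_le_card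
        intro A hA
        rw [mem_filter, mem_filter] at hA
        rw [mem_filter]
        exact ⟨hA.1.1, hA.2⟩
    _ = (#{T ∈ I.powerset | (#T : ℝ) ≤ (1 - 1 / √2) * #I + ε * (2 * (n : ℝ))} : ℝ) * L := by
        rw [sum_const, nsmul_eq_mul]
    _ ≤ _ := by
        rw [mul_comm]
        apply mul_le_mul_of_nonneg_left _ hL
        push_cast at h1
        exact h1

end Pool.Agent.Helper77.TP
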