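import Mathlib

/-! MP_f69198_co: the entropy inequality `h(x y) ≥ (K/2) (x h(y) + y h(x))` with `K = 1.45`. -/

namespace Pool.Agent.Helper77.TP

open Real Set

lemma fu_hasDeriv {u : ℝ} (hu : 0 < u) :
    HasDerivAt (fun u : ℝ => exp u * binEntropy (exp (-u)))
      (-(exp u * log (1 - exp (-u)))) u := by
  have hx0 : 0 < exp (-u) := exp_pos _
  have hx1 : exp (-u) < 1 := by rw [exp_lt_one_iff]; linarith
  have h1 : HasDerivAt (fun u : ℝ => exp (-u)) (-exp (-u)) u := by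
    have := (hasDerivAt_neg u).exp
    simpa using this
  have h2 : HasDerivAt (fun u : ℝ => binEntropy (exp (-u)))
      ((log (1 - exp (-u)) - log (exp (-u))) * (-exp (-u))) u :=
    HasDerivAt.comp (h₂ := binEntropy) (h := fun u : ℝ => exp (-u)) u
      (hasDerivAt_binEntropy hx0.ne' hx1.ne) h1
  have h3 := (Real.hasDerivAt_exp u).mul h2
  refine h3.congr_deriv ?_
  have h4 : exp u * exp (-u) = 1 := by rw [← exp_add]; simp
  have h6 : binEntropy (exp (-u)) =
      exp (-u) * -(-u) + (1 - exp (-u)) * -log (1 - exp (-u)) := by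
    unfold binEntropy
    rw [log_inv, log_inv, log_exp]
  rw [h6, log_exp]
  have h5 : exp u * (exp (-u) * -(-u) + (1 - exp (-u)) * -log (1 - exp (-u))) +
      exp u * ((log (1 - exp (-u)) - -u) * -exp (-u)) =
      (exp u * exp (-u)) * u - (exp u - exp u * exp (-u)) * log (1 - exp (-u)) -
        (exp u * exp (-u)) * (log (1 - exp (-u)) + u) := by ring
  rw [h5, h4]
  ring

lemma slope_log {x y : ℝ} (hx : 0 < x) (hxy : x ≤ y) (hy : y < 1) :
    -(x⁻¹ * log (1 - x)) ≤ -(y⁻¹ * log (1 - y)) := by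
  have hy0 : 0 < y := by linarith
  have hc := strictConcaveOn_log_Ioi.concaveOn.2 (show (1 : ℝ) ∈ Ioi 0 by simp)
    (show 1 - y ∈ Ioi (0 : ℝ) by rw [mem_Ioi]; linarith)
    (show 0 ≤ 1 - x / y by rw [sub_nonneg, div_le_one hy0]; exact hxy)
    (show 0 ≤ x / y by positivity) (by ring)
  rw [log_one, smul_zero, zero_add, smul_eq_mul, smul_eq_mul, smul_eq_mul] at hc
  have e : (1 - x / y) * 1 + x / y * (1 - y) = 1 - x := by
    field_simp
    ring
  rw [e] at hc
  rw [neg_le_neg_iff]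
  have h1 : y⁻¹ * log (1 - y) = x⁻¹ * (x / y * log (1 - y)) := by
    field_simp
  rw [h1]
  exact mul_le_mul_of_nonneg_left hc (by positivity)

lemma fu_concave : ConcaveOn ℝ (Ici 0) (fun u : ℝ => exp u * binEntropy (exp (-u))) := by
  apply AntitoneOn.concaveOn_of_deriv (convex_Ici 0)
  · apply Continuous.continuousOn
    have := binEntropy_continuous
    fun_prop
  · rw [interior_Ici]
    intro u hu
    exact (fu_hasDeriv hu).differentiableAt.differentiableWithinAt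
  · rw [interior_Ici]
    intro u hu v hv huv
    rw [(fu_hasDeriv hu).deriv, (fu_hasDeriv hv).deriv]
    have h1 : exp (-v) ≤ exp (-u) := exp_le_exp.2 (by linarith)
    have h2 : exp (-u) < 1 := by rw [exp_lt_one_iff]; rw [mem_Ioi] at hu; linarith
    have h3 := slope_log (exp_pos (-v)) h1 h2
    rw [← exp_neg, ← exp_neg, neg_neg, neg_neg] at h3
    exact h3

lemma log_lower {x : ℝ} (hx0 : 0 ≤ x) (hx1 : x < 1) :
    x + x ^ 2 / 2 + x ^ 3 / 3 + x ^ 4 / 4 ≤ -log (1 - x) := by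
  have h := hasSum_pow_div_log_of_abs_lt_one (x := x) (by rw [abs_of_nonneg hx0]; exact hx1)
  have h1 := sum_le_hasSum (Finset.range 4) (fun i _ => by positivity) h
  refine le_trans (le_of_eq ?_) h1
  simp only [Finset.sum_range_succ, Finset.sum_range_zero]
  push_cast
  ring

lemma log_upper {x : ℝ} (hx0 : 0 ≤ x) : log (1 + x) ≤ x - x ^ 2 / 2 + x ^ 3 / 3 := by
  have hmono : MonotoneOn (fun x : ℝ => x - x ^ 2 / 2 + x ^ 3 / 3 - log (1 + x)) (Ici 0) := by
    have hd : ∀ x : ℝ, 0 < 1 + x → HasDerivAt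
        (fun x : ℝ => x - x ^ 2 / 2 + x ^ 3 / 3 - log (1 + x))
        (1 - x + x ^ 2 - 1 / (1 + x)) x := by
      intro x hx
      have h1 : HasDerivAt (fun x : ℝ => log (1 + x)) (1 / (1 + x)) x := by
        have h0 : HasDerivAt (fun x : ℝ => 1 + x) 1 x := (hasDerivAt_id x).const_add 1
        exact h0.log hx.ne'
      have h2 : HasDerivAt (fun x : ℝ => x - x ^ 2 / 2 + x ^ 3 / 3) (1 - x + x ^ 2) x := by
        have h3 := ((hasDerivAt_id x).sub ((hasDerivAt_pow 2 x).div_const 2)).add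
          ((hasDerivAt_pow 3 x).div_const 3)
        refine h3.congr_deriv ?_
        push_cast
        ring
      exact h2.sub h1
    apply monotoneOn_of_deriv_nonneg (convex_Ici 0)
    · intro x hx
      rw [mem_Ici] at hx
      exact (hd x (by linarith)).continuousAt.continuousWithinAt
    · rw [interior_Ici]
      intro x hx
      rw [mem_Ioi] at hx
      exact (hd x (by linarith)).differentiableAt.differentiableWithinAt
    · rw [interior_Ici]
      intro x hx
      rw [mem_Ioi] at hx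
      rw [(hd x (by linarith)).deriv]
      have h1 : 1 - x + x ^ 2 - 1 / (1 + x) = x ^ 3 / (1 + x) := by
        field_simp
        ring
      rw [h1]
      positivity
  have h := hmono (show (0 : ℝ) ∈ Ici 0 by simp) (show x ∈ Ici 0 from hx0) hx0
  simp only at h
  norm_num at h
  linarith

/-- The diagonal case. -/
lemma diag {z : ℝ} (h0 : 0 ≤ z) (h1 : z ≤ 1) :
    29 / 20 * (z * binEntropy z) ≤ binEntropy (z ^ 2) := by
  rcases h0.eq_or_lt with h | h0
  · rw [← h]; simp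
  rcases h1.eq_or_lt with h | h1
  · rw [h]; simp
  obtain ⟨a, ha⟩ : ∃ a : ℝ, a = -log z := ⟨_, rfl⟩
  obtain ⟨b, hb⟩ : ∃ b : ℝ, b = -log (1 - z) := ⟨_, rfl⟩
  obtain ⟨c, hc⟩ : ∃ c : ℝ, c = log (1 + z) := ⟨_, rfl⟩
  have ha1 : (1 - z) + (1 - z) ^ 2 / 2 ≤ a := by
    have := log_lower (x := 1 - z) (by linarith) (by linarith)
    rw [sub_sub_cancel] at this
    have h2 : 0 ≤ (1 - z) ^ 3 / 3 + (1 - z) ^ 4 / 4 := by
      have : 0 ≤ 1 - z := by linarith
      positivity
    rw [ha]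
    linarith
  have hb1 : z + z ^ 2 / 2 + z ^ 3 / 3 + z ^ 4 / 4 ≤ b := by
    rw [hb]; exact log_lower h0.le h1
  have hc1 : c ≤ z - z ^ 2 / 2 + z ^ 3 / 3 := by
    rw [hc]; exact log_upper h0.le
  have e1 : binEntropy (z ^ 2) = 2 * z ^ 2 * a + (1 - z ^ 2) * (b - c) := by
    unfold binEntropy
    rw [log_inv, log_inv, log_pow, show 1 - z ^ 2 = (1 - z) * (1 + z) by ring,
      log_mul (by linarith) (by linarith), ha, hb, hc]
    push_cast
    ring
  have e2 : z * binEntropy z = z ^ 2 * a + z * (1 - z) * b := by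
    unfold binEntropy
    rw [log_inv, log_inv, ha, hb]
    ring
  rw [e1, e2]
  have k1 : 11 / 20 * z ^ 2 * ((1 - z) + (1 - z) ^ 2 / 2) ≤ 11 / 20 * z ^ 2 * a :=
    mul_le_mul_of_nonneg_left ha1 (by positivity)
  have k2 : (1 - z) * (1 - 9 / 20 * z) * (z + z ^ 2 / 2 + z ^ 3 / 3 + z ^ 4 / 4) ≤
      (1 - z) * (1 - 9 / 20 * z) * b := by
    apply mul_le_mul_of_nonneg_left hb1
    apply mul_nonneg <;> linarith
  have k3 : (1 - z ^ 2) * c ≤ (1 - z ^ 2) * (z - z ^ 2 / 2 + z ^ 3 / 3) := by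
    apply mul_le_mul_of_nonneg_left hc1
    nlinarith
  have k4 : 0 ≤ (1 - z) * z ^ 2 * (3 / 2 - 5 / 2 * (9 / 20) - (1 / 12 + 9 / 20 / 3) * z ^ 2 -
      9 / 20 * z ^ 3 / 4) := by
    apply mul_nonneg
    · apply mul_nonneg <;> nlinarith
    · have hz2 : z ^ 2 ≤ 1 := by nlinarith
      have hz3 : z ^ 3 ≤ 1 := by
        have : z ^ 3 ≤ 1 ^ 3 := pow_le_pow_left₀ h0.le h1.le 3
        simpa using this
      linarith
  have k5 : 11 / 20 * z ^ 2 * ((1 - z) + (1 - z) ^ 2 / 2) +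
      (1 - z) * (1 - 9 / 20 * z) * (z + z ^ 2 / 2 + z ^ 3 / 3 + z ^ 4 / 4) -
      (1 - z ^ 2) * (z - z ^ 2 / 2 + z ^ 3 / 3) =
      (1 - z) * z ^ 2 * (3 / 2 - 5 / 2 * (9 / 20) - (1 / 12 + 9 / 20 / 3) * z ^ 2 -
      9 / 20 * z ^ 3 / 4) := by ring
  nlinarith

/-- The entropy inequality. -/
theorem two_var {x y : ℝ} (hx0 : 0 ≤ x) (hx1 : x ≤ 1) (hy0 : 0 ≤ y) (hy1 : y ≤ 1) :
    29 / 40 * (x * binEntropy y + y * binEntropy x) ≤ binEntropy (x * y) := by
  rcases hx0.eq_or_lt with h | hx0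
  · rw [← h]; simp
  rcases hy0.eq_or_lt with h | hy0
  · rw [← h]; simp
  have hlx : 0 ≤ -log x := by have := log_nonpos hx0.le hx1; linarith
  have hly : 0 ≤ -log y := by have := log_nonpos hy0.le hy1; linarith
  have hc := fu_concave.2 (show -log x ∈ Ici (0 : ℝ) from hlx) (show -log y ∈ Ici (0 : ℝ) from hly)
    (show (0 : ℝ) ≤ 1 / 2 by norm_num) (show (0 : ℝ) ≤ 1 / 2 by norm_num) (by norm_num)
  simp only [smul_eq_mul, neg_neg, exp_log hx0, exp_log hy0] at hc
  obtain ⟨z, hz⟩ : ∃ z : ℝ, z = exp (-(1 / 2 * -log x + 1 / 2 * -log y)) := ⟨_, rfl⟩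
  have hz0 : 0 < z := by rw [hz]; exact exp_pos _
  have hz1 : z ≤ 1 := by
    rw [hz, exp_le_one_iff]
    linarith
  have hz2 : z ^ 2 = x * y := by
    rw [hz, ← exp_nat_mul]
    have : ((2 : ℕ) : ℝ) * -(1 / 2 * -log x + 1 / 2 * -log y) = log x + log y := by
      push_cast
      ring
    rw [this, exp_add, exp_log hx0, exp_log hy0]
  have e1 : exp (1 / 2 * -log x + 1 / 2 * -log y) = z⁻¹ := by
    rw [hz, ← exp_neg, neg_neg]
  have e2 : exp (-log x) = x⁻¹ := by rw [exp_neg, exp_log hx0]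
  have e3 : exp (-log y) = y⁻¹ := by rw [exp_neg, exp_log hy0]
  rw [e1, e2, e3, ← hz] at hc
  have hd := diag hz0.le hz1
  rw [← hz2]
  have k1 : x * binEntropy y + y * binEntropy x ≤ 2 * (z * binEntropy z) := by
    have h1 := mul_le_mul_of_nonneg_left hc (show 0 ≤ 2 * (x * y) by positivity)
    have h2 : 2 * (x * y) * (1 / 2 * (x⁻¹ * binEntropy x) + 1 / 2 * (y⁻¹ * binEntropy y)) =
        y * binEntropy x + x * binEntropy y := by
      field_simp
    have h3 : 2 * (x * y) * (z⁻¹ * binEntropy z) = 2 * (z * binEntropy z) := by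
      rw [← hz2]
      field_simp
    rw [h2, h3] at h1
    linarith
  linarith

end Pool.Agent.Helper77.TP
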